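import Pool.Agent.Lib.MP_361a6f_ag.FL.EMB.DefsN

/-!
# Theorem EMBC, the hook: the statement

As `R11NStatement`, where isotropic stable subspaces are allowed if every minimal one is the
eigenspace for `1` of a central element of `S` with the eigenvalues `1`, `0`, `-1`. The condition
on six independent minimal stable subspaces is only asked for those which are not isotropic.
-/

set_option autoImplicit false

open Matrix

namespace Pool.Agent.Lib.MP_361a6f_ag.FL.E

/-- `U` is isotropic for the form of `P` -/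
def Isot {I : Type} [Fintype I] (P : Matrix I I ℂ) (U : Submodule ℂ (I → ℂ)) : Prop :=
  ∀ v ∈ U, ∀ w ∈ U, dotProduct v (P.mulVec w) = 0

/-- every minimal stable subspace that is isotropic is the eigenspace for `1` of an element `Z` of
`S` which commutes with `S` and has the eigenvalues `1`, `0`, `-1` -/
def BalC {I : Type} [Fintype I] [DecidableEq I] (S : Submodule ℂ (Matrix I I ℂ))
    (E : Set (Matrix I I ℂ)) (P : Matrix I I ℂ) : Prop :=
  ∀ U, MinS S E U → Isot P U → ∃ Z ∈ S, (∀ A ∈ S, Z * A = A * Z) ∧ Z * Z * Z = Z ∧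
    ∀ v, v ∈ U ↔ Z.mulVec v = v

/-- Row R11NC: row R11N with isotropic stable subspaces. -/
def R11NCStatement : Prop :=
  ∀ {I : Type} [Fintype I] [DecidableEq I] (S : Submodule ℂ (Matrix I I ℂ))
    (E : Set (Matrix I I ℂ)) (P : Matrix I I ℂ),
    (∀ x ∈ S, ∀ y ∈ S, x * y - y * x ∈ S) → (∀ x ∈ S, x.conjTranspose ∈ S) →
    (∀ e ∈ E, ∀ A ∈ S, e * A = A * e) → (∀ e ∈ E, ∃ f ∈ E, f.transpose * P = P * e) →
    (∀ A ∈ S, A.transpose * P + P * A = 0) → IsUnit P → P.transpose = -P →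
    ∀ a : I → ℂ, (∀ i, (starRingEnd ℂ) (a i) = a i) → Matrix.diagonal a ∈ S →
    ∀ k : I → ℂ, (∀ i j, a i = a j → k i = k j) →
    ∀ (τ : I → I) (G : ℤˣ → List I → Prop), (∀ i, τ (τ i) = i) → (∀ i, a (τ i) = -a i) →
    Calc τ a G → (∀ ε v, G ε v → Even v.length) →
    (∀ A ∈ S, ∀ i0 j0, mvR τ G i0 j0 A ∈ S) →
    BalC S E P →
    ∀ N ∈ S, N * N = 0 → Matrix.diagonal a * N = 0 →
    Few6N N (fun U => MinS S E U ∧ ¬ Isot P U) →
    ∀ (L : ℕ) (u : Ten I L), (∀ A ∈ S, aT A u = 0) →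
      (∀ w, u w ≠ 0 → ∃ ε : ℤˣ, G ε (List.ofFn w) ∧ ∏ j, k (w j) = (((ε : ℤ) : ℝ) : ℂ)) →
      gT (Matrix.diagonal k) u = u

end Pool.Agent.Lib.MP_361a6f_ag.FL.E
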