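import Pool.Agent.Lib.MP_361a6f_ag.FL.EMC.DefsC
import Pool.Agent.Lib.MP_361a6f_ag.FL.EMB.DefsW

/-!
# Theorem EMC in coordinates: the statements of the theorem and of the assembly

As Theorem EMB, but isotropic minimal stable subspaces are allowed if they are eigenspaces of
symmetries in the span of the endomorphisms.
-/

set_option autoImplicit false

open Filter Topology

namespace Pool.Agent.Lib.MP_361a6f_ag.FL.E

/-- every isotropic minimal stable subspace is the space of the `v` with `M v = 2 v`, for an element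
`M` of the group with the eigenvalues `1`, `2`, `1/2` that fixes all members of the system and is in
the span of the endomorphisms -/
def BalM {I Λ : Type} [Fintype I] [DecidableEq I] (D : Dat I Λ)
    (At : (L : ℕ) → Ten I L → Prop) (Γ : Set (Matrix I I ℂ)) : Prop :=
  ∀ U : Submodule ℂ (I → ℂ), MinStab D At Γ U → Isot (Psi D) U →
    ∃ M ∈ endS D At, IsG D M ∧ (∀ L u, At L u → gT M u = u) ∧
      (M - 1) * (M - 2) * (2 * M - 1) = 0 ∧ ∀ v, v ∈ U ↔ M.mulVec v = (2 : ℂ) • v

/-- the data of Theorem EMC -/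
structure KSysC {I Λ : Type} [Fintype I] [DecidableEq I] [DecidableEq Λ] (D : Dat I Λ)
    (At Bt : (L : ℕ) → Ten I L → Prop) (l : I → ℂ) (Γ : Set (Matrix I I ℂ)) {β : Type} [Fintype β]
    (lb : β → ℕ) (b : Tup I lb) (N : Matrix I I ℂ) : Prop extends CSys D At Bt l Γ lb b where
  n2 : N * N = 0
  nlie : IsLie D N
  nfix : ∀ L u, At L u → aT N u = 0
  nl : Matrix.diagonal l * N = N

/-- THEOREM EMC in coordinates. -/
def ThmCStatement : Prop :=
  ∀ {I Λ : Type} [Fintype I] [DecidableEq I] [DecidableEq Λ] (D : Dat I Λ)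
    (At Bt : (L : ℕ) → Ten I L → Prop) (l : I → ℂ) (Γ : Set (Matrix I I ℂ))
    {β : Type} [Fintype β] (lb : β → ℕ) (b : Tup I lb) (N : Matrix I I ℂ),
    KSysC D At Bt l Γ lb b N → FData D Bt l → Full D At Γ → BalM D At Γ →
    Few6N N (fun U => MinStab D At Γ U ∧ ¬ Isot (Psi D) U) →
    ∀ (L : ℕ) (u : Ten I L), u ∈ Submodule.span ℝ {u | At L u} → u ≠ 0 →
      ∃ r : ℝ, 0 < r ∧ psiT D u u = (r : ℂ)

/-- Row WNC: the assembly. -/
def WNCStatement : Prop :=
  EB.W1zStatement → W2Statement → R11NCStatement → Ful1Statement → P2Statement → P3Statement →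
    G4Statement → G4bStatement → ThmCStatement

/-- Row NDC: nondegeneracy. -/
def NdCStatement : Prop :=
  ∀ {I Λ : Type} [Fintype I] [DecidableEq I] [DecidableEq Λ] (D : Dat I Λ)
    (At : (L : ℕ) → Ten I L → Prop) (Γ : Set (Matrix I I ℂ)), ASys D At →
    (∀ i, D.odd (D.typ i)) → (∀ i j, D.typ i = D.typ j) → (∀ x ∈ Γ, IsG D x) →
    (∀ x ∈ Γ, ∀ L u, At L u → gT x u = u) → BalM D At Γ →
    ∀ L, ∀ u ∈ Submodule.span ℂ {u | At L u}, u ≠ 0 →
      ∃ v ∈ Submodule.span ℂ {u | At L u}, psiT D u v ≠ 0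

end Pool.Agent.Lib.MP_361a6f_ag.FL.E
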