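import Pool.Agent.Lib.MP_361a6f_ag.FL.EMB.NSN
import Pool.Agent.Lib.MP_361a6f_ag.FL.EMC.DefsW

/-!
# Theorem EMC for the data as they come from geometry
-/

open Filter Topology MeasureTheory

set_option autoImplicit false
set_option linter.unusedSectionVars false

namespace Pool.Agent.Lib.MP_361a6f_ag.FL.E

open Pool.Agent.Lib.MP_361a6f_ag.FL.E.QS Pool.Agent.Lib.MP_361a6f_ag.FL.E.BR

variable {I Λ : Type} [Fintype I] [DecidableEq I] [DecidableEq Λ]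

namespace NSC

variable {D : Dat I Λ} {Y : Matrix I I ℂ}

/-- isotropic subspaces after transport -/
theorem isot_map (hG : IsG D Y) {U : Submodule ℂ (I → ℂ)} (h : Isot (Psi D) U) :
    Isot (Psi D) (U.map (Matrix.toLin' Y)) := by
  rintro _ ⟨v, hv, rfl⟩ _ ⟨w, hw, rfl⟩
  rw [Matrix.toLin'_apply, Matrix.toLin'_apply, iso_G hG]
  exact h v hv w hw

/-- and back -/
theorem isot_back (hG : IsG D Y) {U : Submodule ℂ (I → ℂ)}
    (h : Isot (Psi D) (U.map (Matrix.toLin' Y))) : Isot (Psi D) U := by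
  intro v hv w hw
  rw [← iso_G hG]
  exact h _ ⟨v, hv, rfl⟩ _ ⟨w, hw, rfl⟩

/-- the balancing symmetries after transport -/
theorem balM_tr (hodd : ∀ i, D.odd (D.typ i)) (a1 : Alg1) (hG : IsG D Y)
    {At : (L : ℕ) → Ten I L → Prop} {Γ : Set (Matrix I I ℂ)} (h : BalM D At Γ) :
    BalM D (fun L u => At L (gT Y u)) {x' | ∃ x ∈ Γ, x' = Y⁻¹ * x * Y} := by
  obtain ⟨hY1, hY2, hY3⟩ := a1.G_inv D Y hG
  intro U hU hiso
  obtain ⟨M, hM, hMG, hMf, hM3, hMU⟩ := h _ (K6.minStab_tr hodd a1 hG hU) (isot_map hG hiso)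
  have hconj : ∀ A B : Matrix I I ℂ, Y⁻¹ * A * Y * (Y⁻¹ * B * Y) = Y⁻¹ * (A * B) * Y := by
    intro A B
    have : Y⁻¹ * A * Y * (Y⁻¹ * B * Y) = Y⁻¹ * (A * (Y * Y⁻¹) * B) * Y := by
      simp only [Matrix.mul_assoc]
    rw [this, hY2, Matrix.mul_one]
  refine ⟨Y⁻¹ * M * Y, endS_back hodd a1 hG At hM, a1.G_mul D _ _ (a1.G_mul D _ _ hY1 hMG) hG,
    fun L u hu => ?_, ?_, fun v => ?_⟩
  · apply inj a1 hG
    rw [a1.gT_mul, a1.gT_mul, psi_outer_gT a1 hG]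
    exact hMf L _ hu
  · have e1 : Y⁻¹ * M * Y - 1 = Y⁻¹ * (M - 1) * Y := by
      rw [Matrix.mul_sub, Matrix.mul_one, Matrix.sub_mul, hY3]
    have e2 : Y⁻¹ * M * Y - 2 = Y⁻¹ * (M - 2) * Y := by
      have e : (2 : Matrix I I ℂ) = (2 : ℂ) • 1 := by
        rw [← one_add_one_eq_two, ← one_add_one_eq_two, add_smul, one_smul]
      rw [e, Matrix.mul_sub, Matrix.mul_smul, Matrix.mul_one, Matrix.sub_mul, Matrix.smul_mul, hY3]
    have e3 : 2 * (Y⁻¹ * M * Y) - 1 = Y⁻¹ * (2 * M - 1) * Y := by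
      rw [two_mul, two_mul, Matrix.mul_sub, Matrix.mul_one, Matrix.sub_mul, hY3, Matrix.mul_add,
        Matrix.add_mul]
    rw [e1, e2, e3, hconj, hconj, hM3, Matrix.mul_zero, Matrix.zero_mul]
  · have h1 : v ∈ U ↔ Y.mulVec v ∈ U.map (Matrix.toLin' Y) := by
      constructor
      · intro hv
        exact ⟨v, hv, rfl⟩
      · rintro ⟨w, hw, e⟩
        have e' := toLin_inj a1 hG (e.trans (Matrix.toLin'_apply Y v).symm)
        rwa [← e']
    rw [h1, hMU]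
    constructor
    · intro e
      have e' := congrArg (Matrix.mulVec Y⁻¹) e
      rw [Matrix.mulVec_mulVec, Matrix.mulVec_mulVec, Matrix.mulVec_smul, Matrix.mulVec_mulVec,
        hY3, Matrix.one_mulVec, Matrix.mul_assoc] at e'
      rw [Matrix.mul_assoc]
      exact e'
    · intro e
      have e' := congrArg (Matrix.mulVec Y) e
      rw [Matrix.mulVec_mulVec, Matrix.mulVec_smul, ← Matrix.mul_assoc, ← Matrix.mul_assoc,
        hY2, Matrix.one_mul] at e'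
      rw [Matrix.mulVec_mulVec]
      exact e'

end NSC

/-- **Theorem EMC for the data from geometry.** -/
theorem ofEMC (hY : YStatement) (a1 : Alg1) (a2 : Alg2) (hB : ThmCStatement) {D : Dat I Λ}
    {At Ct : (L : ℕ) → Ten I L → Prop} {F : Matrix I I ℂ} {Γ : Set (Matrix I I ℂ)}
    (S : NSys D At Ct F Γ)
    (hf : ∀ u ∈ Submodule.span ℝ {u : Ten I 4 | Ct 4 u}, ∃ r : ℝ, 0 ≤ r ∧ psiT D u u = (r : ℂ))
    (hfull : Full D At Γ) (hbal : BalM D At Γ)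
    (N : Matrix I I ℂ) (n2 : N * N = 0) (hNG : IsG D (1 + N))
    (hNfix : ∀ L u, At L u → gT (1 + N) u = u) (hNF : F * N = N)
    (hfew : Few6N N (fun U => MinStab D At Γ U ∧ ¬ Isot (Psi D) U))
    (L : ℕ) (u : Ten I L) (hu : u ∈ Submodule.span ℝ {u | At L u}) (hu0 : u ≠ 0) :
    ∃ r : ℝ, 0 < r ∧ psiT D u u = (r : ℂ) := by
  obtain ⟨Y, l, β, _, lb, b, hG, hFY, C, F4⟩ := EB.exists_core4B hY a1 a2 S hf
  obtain ⟨hY1, hY2, hY3⟩ := a1.G_inv D Y hG
  have hconj : ∀ A B : Matrix I I ℂ, Y⁻¹ * A * Y * (Y⁻¹ * B * Y) = Y⁻¹ * (A * B) * Y := by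
    intro A B
    have : Y⁻¹ * A * Y * (Y⁻¹ * B * Y) = Y⁻¹ * (A * (Y * Y⁻¹) * B) * Y := by
      simp only [Matrix.mul_assoc]
    rw [this, hY2, Matrix.mul_one]
  have hn2 : Y⁻¹ * N * Y * (Y⁻¹ * N * Y) = 0 := by
    rw [hconj, n2, Matrix.mul_zero, Matrix.zero_mul]
  have h1N : 1 + Y⁻¹ * N * Y = Y⁻¹ * (1 + N) * Y := by
    rw [Matrix.mul_add, Matrix.mul_one, Matrix.add_mul, hY3]
  have hBS : KSysC D (fun L u => At L (gT Y u)) (fun L u => Rsp.Bt Ct L (gT Y u)) l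
      {x' | ∃ x ∈ Γ, x' = Y⁻¹ * x * Y} lb b (Y⁻¹ * N * Y) :=
    { toCSys := C.toCSys
      n2 := hn2
      nlie := by
        refine lie_of_G hn2 a1 ?_
        rw [h1N]
        exact a1.G_mul D _ _ (a1.G_mul D _ _ hY1 hNG) hG
      nfix := by
        intro L u hu
        refine kill_of_fix hn2 a1 ?_
        rw [h1N]
        apply inj a1 hG
        rw [a1.gT_mul, a1.gT_mul, psi_outer_gT a1 hG]
        exact hNfix L _ hu
      nl := by
        have h3 : Matrix.diagonal l = Y⁻¹ * F * Y := by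
          rw [Matrix.mul_assoc, hFY, ← Matrix.mul_assoc, hY3, Matrix.one_mul]
        rw [h3, hconj, hNF] }
  rw [← spanR a1 hG At L] at hu
  obtain ⟨u', hu', rfl⟩ := hu
  have h4 := hB D _ _ _ _ _ _ _ hBS F4 (fun x hx hfix => K6.full_tr a1 hG hfull hx hfix)
    (NSC.balM_tr S.odd a1 hG hbal)
    (K6.few6N_map a1 hG hfew fun U hU => ⟨K6.minStab_tr S.odd a1 hG hU.1, fun h =>
      hU.2 (NSC.isot_back hG h)⟩) L u' hu'
    (fun h => hu0 (by rw [h, map_zero]))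
  obtain ⟨r, hr, h5⟩ := h4
  refine ⟨r, hr, ?_⟩
  rw [← h5]
  exact a1.psiT_gT D Y u' u' hG

end Pool.Agent.Lib.MP_361a6f_ag.FL.E
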