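import Pool.Agent.Lib.MP_361a6f_ag.FL.E.NdZ
import Pool.Agent.Lib.MP_361a6f_ag.FL.E.CenSq
import Pool.Agent.Lib.MP_361a6f_ag.FL.EMC.DefsW

/-!
# Theorem EMC, row NDC: nondegeneracy

The steps of the optimal filtration are stable. On the eigenspaces `V+ = ker (M - 2)`,
`V- = ker (M - 1/2)` of a symmetry the filtration has one jump `α`, `β`, with `α + β ≤ -1`, and a
word of a member has as many letters in `V+` as in `V-`. On the rest there is no isotropic stable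
subspace, so that the weights are not positive there.
-/

open Matrix

set_option autoImplicit false
set_option linter.unusedSectionVars false

namespace Pool.Agent.Lib.MP_361a6f_ag.FL.E.NdC

open Pool.Agent.Lib.MP_54168f_ag (Tens ev Feas eq_zero_of_ev)
open Nd NdZ
open OL (CA)
open AL1A (gT_mul gT_add gT_smul)

variable {I Λ : Type} [Fintype I] [DecidableEq I] [DecidableEq Λ] {D : Dat I Λ}
  {At : (L : ℕ) → Ten I L → Prop} {Γ : Set (Matrix I I ℂ)}

/-- the symmetries of `BalM` -/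
structure GM (D : Dat I Λ) (At : (L : ℕ) → Ten I L → Prop) (Γ : Set (Matrix I I ℂ))
    (M : Matrix I I ℂ) : Prop where
  mem : M ∈ endS D At
  grp : IsG D M
  fix : ∀ L u, At L u → gT M u = u
  cub : (M - 1) * (M - 2) * (2 * M - 1) = 0
  min : ∃ U, MinStab D At Γ U ∧ ∀ v, v ∈ U ↔ M.mulVec v = (2 : ℂ) • v

variable {M M' : Matrix I I ℂ}

theorem GM.r1 (h : GM D At Γ M) : Nd.dag D M * M = 1 := dag_mul_self h.grp

theorem GM.r2 (h : GM D At Γ M) : M * Nd.dag D M = 1 := mul_eq_one_comm.1 h.r1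

theorem num (n : ℕ) [n.AtLeastTwo] : (OfNat.ofNat n : Matrix I I ℂ) = (OfNat.ofNat n : ℂ) • 1 :=
  (map_ofNat (algebraMap ℂ (Matrix I I ℂ)) n).symm.trans (Algebra.algebraMap_eq_smul_one _)

theorem GM.sq (h : GM D At Γ M) :
    M * M = (7 / 2 : ℂ) • M - (7 / 2 : ℂ) • 1 + Nd.dag D M := by
  obtain ⟨N, hN⟩ : ∃ N, N = Nd.dag D M := ⟨_, rfl⟩
  have h2 : M * N = 1 := hN ▸ h.r2
  have h0 : (M - 1) * (M - 2) * (2 * M - 1) * N = 0 := by rw [h.cub, Matrix.zero_mul]
  have e : (M - 1) * (M - 2) * (2 * M - 1) * N =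
      2 * (M * M * (M * N)) - 7 * (M * (M * N)) + 7 * (M * N) - 2 * N := by noncomm_ring
  rw [e, h2, Matrix.mul_one, Matrix.mul_one, num 2, num 7, Matrix.smul_mul, Matrix.one_mul,
    Matrix.smul_mul, Matrix.one_mul, Matrix.smul_mul, Matrix.one_mul, Matrix.smul_mul,
    Matrix.one_mul] at h0
  rw [← hN]
  have h3 : M * M = (1 / 2 : ℂ) • ((2 : ℂ) • (M * M) - (7 : ℂ) • M + (7 : ℂ) • 1 - (2 : ℂ) • N) +
      ((7 / 2 : ℂ) • M - (7 / 2 : ℂ) • 1 + N) := by module
  rw [h0, smul_zero, zero_add] at h3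
  exact h3

/-- the projector on `ker (M - 2)` -/
noncomputable def p2 (D : Dat I Λ) (M : Matrix I I ℂ) : Matrix I I ℂ :=
  (4 / 3 : ℂ) • M + (2 / 3 : ℂ) • Nd.dag D M - (2 : ℂ) • 1

/-- the projector on `ker (M - 1/2)` -/
noncomputable def m2 (D : Dat I Λ) (M : Matrix I I ℂ) : Matrix I I ℂ :=
  (2 / 3 : ℂ) • M + (4 / 3 : ℂ) • Nd.dag D M - (2 : ℂ) • 1

theorem GM.mp (h : GM D At Γ M) : M * p2 D M = (2 : ℂ) • p2 D M := by
  rw [p2, Matrix.mul_sub, Matrix.mul_add, Matrix.mul_smul, Matrix.mul_smul, Matrix.mul_smul,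
    Matrix.mul_one, h.r2, h.sq]
  module

theorem GM.mm (h : GM D At Γ M) : M * m2 D M = (1 / 2 : ℂ) • m2 D M := by
  rw [m2, Matrix.mul_sub, Matrix.mul_add, Matrix.mul_smul, Matrix.mul_smul, Matrix.mul_smul,
    Matrix.mul_one, h.r2, h.sq]
  module

theorem GM.m1 (h : GM D At Γ M) : M * (1 - p2 D M - m2 D M) = 1 - p2 D M - m2 D M := by
  rw [Matrix.mul_sub, Matrix.mul_sub, h.mp, h.mm, Matrix.mul_one, p2, m2]
  module

theorem sub_one (M : Matrix I I ℂ) : M - 1 = p2 D M - (1 / 2 : ℂ) • m2 D M := by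
  rw [p2, m2]
  module

theorem dag_add (M N : Matrix I I ℂ) : Nd.dag D (M + N) = Nd.dag D M + Nd.dag D N := by
  unfold Nd.dag
  rw [Matrix.transpose_add, Matrix.mul_add, Matrix.add_mul]

theorem dag_p2 (ho : ∀ i, D.odd (D.typ i)) (M : Matrix I I ℂ) :
    Nd.dag D (p2 D M) = m2 D M := by
  rw [p2, m2, dag_sub, dag_add, dag_smul, dag_smul, dag_smul, dag_one ho, dag_dag ho]
  module

theorem dag_m2 (ho : ∀ i, D.odd (D.typ i)) (M : Matrix I I ℂ) :
    Nd.dag D (m2 D M) = p2 D M := by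
  rw [← dag_p2 ho, dag_dag ho]

theorem one_mem (S : ASys D At) (he : ∀ i j, D.typ i = D.typ j) :
    (1 : Matrix I I ℂ) ∈ endS D At := mem_endS.2 (op_one_mem S he)

theorem p2_mem (S : ASys D At) (ho : ∀ i, D.odd (D.typ i)) (he : ∀ i j, D.typ i = D.typ j)
    (h : M ∈ endS D At) : p2 D M ∈ endS D At :=
  sub_mem (add_mem (Submodule.smul_mem _ _ h) (Submodule.smul_mem _ _ (dag_mem S ho h)))
    (Submodule.smul_mem _ _ (one_mem S he))

theorem m2_mem (S : ASys D At) (ho : ∀ i, D.odd (D.typ i)) (he : ∀ i j, D.typ i = D.typ j)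
    (h : M ∈ endS D At) : m2 D M ∈ endS D At :=
  sub_mem (add_mem (Submodule.smul_mem _ _ h) (Submodule.smul_mem _ _ (dag_mem S ho h)))
    (Submodule.smul_mem _ _ (one_mem S he))

/-- eigenvectors -/
theorem GM.dagv (h : GM D At Γ M) {c c' : ℂ} (hc : c' * c = 1) {v : I → ℂ} (hv : M *ᵥ v = c • v) :
    Nd.dag D M *ᵥ v = c' • v := by
  have h1 : Nd.dag D M *ᵥ (M *ᵥ v) = v := by
    rw [Matrix.mulVec_mulVec, h.r1, Matrix.one_mulVec]
  rw [hv, Matrix.mulVec_smul] at h1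
  calc Nd.dag D M *ᵥ v = (c' * c) • (Nd.dag D M *ᵥ v) := by rw [hc, one_smul]
    _ = c' • v := by rw [mul_smul, h1]

theorem GM.p2v (h : GM D At Γ M) {v : I → ℂ} (hv : M *ᵥ v = (2 : ℂ) • v) : p2 D M *ᵥ v = v := by
  rw [p2, Matrix.sub_mulVec, Matrix.add_mulVec, Matrix.smul_mulVec, Matrix.smul_mulVec,
    Matrix.smul_mulVec, Matrix.one_mulVec, hv, h.dagv (c' := 1 / 2) (by norm_num) hv]
  module

theorem GM.m2v (h : GM D At Γ M) {v : I → ℂ} (hv : M *ᵥ v = (1 / 2 : ℂ) • v) :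
    m2 D M *ᵥ v = v := by
  rw [m2, Matrix.sub_mulVec, Matrix.add_mulVec, Matrix.smul_mulVec, Matrix.smul_mulVec,
    Matrix.smul_mulVec, Matrix.one_mulVec, hv, h.dagv (c' := 2) (by norm_num) hv]
  module

theorem GM.fv (h : GM D At Γ M) {v : I → ℂ} (hv : M *ᵥ v = v) :
    p2 D M *ᵥ v = 0 ∧ m2 D M *ᵥ v = 0 := by
  have h1 : M *ᵥ v = (1 : ℂ) • v := by rw [hv, one_smul]
  rw [p2, m2, Matrix.sub_mulVec, Matrix.add_mulVec, Matrix.smul_mulVec, Matrix.smul_mulVec,
    Matrix.smul_mulVec, Matrix.one_mulVec, h.dagv (c' := 1) (by norm_num) h1, h1,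
    Matrix.sub_mulVec, Matrix.add_mulVec, Matrix.smul_mulVec, Matrix.smul_mulVec,
    Matrix.smul_mulVec, Matrix.one_mulVec, h.dagv (c' := 1) (by norm_num) h1, h1]
  constructor <;> module

/-- the symmetries commute with the span of the endomorphisms -/
theorem GM.comm (ho : ∀ i, D.odd (D.typ i)) (h : GM D At Γ M) {N : Matrix I I ℂ}
    (hN : N ∈ endS D At) : M * N = N * M :=
  CenSq.comm_endS (CenSq.comm_gam ho alg1 h.grp h.fix) hN

/-! ### The filtration -/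

section filt

variable {p q : Matrix I I ℂ} {wt : I → ℝ}

/-- a letter of the filtration that is paired with `v` -/
theorem exists_y (S : ASys D At) (ho : ∀ i, D.odd (D.typ i)) (he : ∀ i j, D.typ i = D.typ j)
    {n : ℕ} (hF : Feas ((Kr D At n : Submodule ℂ (Ten I n)) : Set (Ten I n)) (CC D At) p q wt)
    {v : I → ℂ} {x : I} (hx0 : (q *ᵥ (Psi D *ᵥ v)) x ≠ 0) :
    ∃ (y : I) (u : I → ℂ), wt x + wt y ≤ -1 ∧ (Psi D *ᵥ u) ⬝ᵥ v ≠ 0 ∧
      ∀ P : ℝ → Prop, ¬ P (wt y) → u ∈ Up D q wt P := by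
  have hpq := hF.pq
  have hqp := mul_eq_one_comm.1 hpq
  have h1 : q *ᵥ (Psi D *ᵥ v) = (q * Psi D * q.transpose) *ᵥ (p.transpose *ᵥ v) := by
    rw [Matrix.mulVec_mulVec, Matrix.mulVec_mulVec]
    congr 1
    rw [Matrix.mul_assoc (q * Psi D), ← Matrix.transpose_mul, hpq, Matrix.transpose_one,
      Matrix.mul_one]
  rw [h1, Matrix.mulVec, dotProduct] at hx0
  obtain ⟨y, _, hy⟩ := Finset.exists_ne_zero_of_sum_ne_zero hx0
  have hy1 := left_ne_zero_of_mul hy
  have hy2 := right_ne_zero_of_mul hy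
  have hxy : wt x + wt y ≤ -1 := by
    have hmem : (Psi D : I → I → ℂ) ∈ CC D At := by
      refine ⟨om D (D.typ x), sub_CA (S.om _), ?_⟩
      rw [tm_om he, PsiT_mul_Psi, Matrix.one_mul]
    refine hF.biv (Psi D) hmem x y fun h0 => hy1 ?_
    rw [← h0, Matrix.mul_apply, Finset.sum_comm]
    refine Finset.sum_congr rfl fun y' _ => ?_
    rw [Matrix.mul_apply, Finset.sum_mul]
    refine Finset.sum_congr rfl fun x' _ => ?_
    rw [Matrix.transpose_apply]
    change q x x' * Psi D x' y' * q y y' = q x x' * q y y' * Psi D x' y'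
    ring
  obtain ⟨u, hu⟩ : ∃ u : I → ℂ, u = -(Psi D *ᵥ fun z => p z y) := ⟨_, rfl⟩
  have hΨu : Psi D *ᵥ u = fun z => p z y := by
    rw [hu, Matrix.mulVec_neg, Matrix.mulVec_mulVec, Psi_mul_Psi ho, Matrix.neg_mulVec,
      Matrix.one_mulVec, neg_neg]
  refine ⟨y, u, hxy, ?_, fun P hP z hz => ?_⟩
  · rw [hΨu]
    exact hy2
  · rw [hΨu]
    have h3 : (q *ᵥ fun z => p z y) z = (q * p) z y := rfl
    rw [h3, hqp, Matrix.one_apply_ne]
    rintro rfl
    exact hP hz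

/-- the steps are stable -/
theorem up_endS (S : ASys D At) (ho : ∀ i, D.odd (D.typ i)) (he : ∀ i j, D.typ i = D.typ j)
    (hpq : p * q = 1)
    (hst : ∀ g, Pres D At g → ∀ x y, (q * g.transpose * p) x y ≠ 0 → wt x ≤ wt y)
    {P : ℝ → Prop} (hP : ∀ a b, a ≤ b → P a → P b) {N : Matrix I I ℂ} (hN : N ∈ endS D At)
    {v : I → ℂ} (hv : v ∈ Up D q wt P) : N *ᵥ v ∈ Up D q wt P :=
  stable_of_units S he
    (fun _ hM hM' _ hv => Up_stable ho hpq (hst _ ((pres_of_mem S ho he hM hM').dag ho)) hP hv) _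
    (mem_endS.1 hN) v hv

theorem up_gam (ho : ∀ i, D.odd (D.typ i)) (hpq : p * q = 1)
    (hst : ∀ g, Pres D At g → ∀ x y, (q * g.transpose * p) x y ≠ 0 → wt x ≤ wt y)
    {P : ℝ → Prop} (hP : ∀ a b, a ≤ b → P a → P b) {x : Matrix I I ℂ} (hx : IsG D x)
    (hfix : ∀ L u, At L u → gT x u = u) {v : I → ℂ} (hv : v ∈ Up D q wt P) :
    x *ᵥ v ∈ Up D q wt P :=
  Up_stable ho hpq (hst _ ((pres_of_fix hx hfix).dag ho)) hP hv

/-- a stable subspace -/
theorem stabU_of (grp : ∀ x ∈ Γ, IsG D x) {U : Submodule ℂ (I → ℂ)}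
    (h1 : ∀ N ∈ endS D At, ∀ v ∈ U, N *ᵥ v ∈ U) (h2 : ∀ x ∈ Γ, ∀ v ∈ U, x *ᵥ v ∈ U) :
    StabU D At Γ U := by
  refine ⟨fun z hz v hv => h1 _ (Submodule.subset_span ⟨z, hz, rfl⟩) v hv, ?_⟩
  refine (Set.finite_singleton U).subset ?_
  rintro U' ⟨x, hx, rfl⟩
  exact map_eq_of_stable (grp x hx) (h2 x hx)

/-- **The two jumps.** -/
theorem jumps (S : ASys D At) (ho : ∀ i, D.odd (D.typ i)) (he : ∀ i j, D.typ i = D.typ j)
    (grp : ∀ x ∈ Γ, IsG D x) (gfix : ∀ x ∈ Γ, ∀ L u, At L u → gT x u = u)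
    {n : ℕ} (hF : Feas ((Kr D At n : Submodule ℂ (Ten I n)) : Set (Ten I n)) (CC D At) p q wt)
    (hst : ∀ g, Pres D At g → ∀ x y, (q * g.transpose * p) x y ≠ 0 → wt x ≤ wt y)
    (h : GM D At Γ M) :
    ∃ α β : ℝ, α + β ≤ -1 ∧ (∀ v, M *ᵥ v = (2 : ℂ) • v → v ∈ Up D q wt (fun r => α < r)) ∧
      ∀ v, M *ᵥ v = (1 / 2 : ℂ) • v → v ∈ Up D q wt (fun r => β < r) := by
  classical
  have hpq := hF.pq
  obtain ⟨U, hU, hUM⟩ := h.min
  have hinj : ∀ v : I → ℂ, v ≠ 0 → ∃ x, (q *ᵥ (Psi D *ᵥ v)) x ≠ 0 := by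
    intro v hv
    by_contra hc
    push Not at hc
    apply hv
    have h1 : q *ᵥ (Psi D *ᵥ v) = 0 := funext hc
    have h2 : Psi D *ᵥ v = 0 := by
      have h3 : p *ᵥ (q *ᵥ (Psi D *ᵥ v)) = 0 := by rw [h1, Matrix.mulVec_zero]
      rwa [Matrix.mulVec_mulVec, hpq, Matrix.one_mulVec] at h3
    have h4 : Psi D *ᵥ (Psi D *ᵥ v) = 0 := by rw [h2, Matrix.mulVec_zero]
    rwa [Matrix.mulVec_mulVec, Psi_mul_Psi ho, Matrix.neg_mulVec, Matrix.one_mulVec,
      neg_eq_zero] at h4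
  obtain ⟨v0, hv0, hv00⟩ := Submodule.exists_mem_ne_zero_of_ne_bot hU.1
  obtain ⟨x0, hx0⟩ := hinj v0 hv00
  obtain ⟨x2, hx2, hmax2⟩ := Finset.exists_max_image
    (Finset.univ.filter fun x => ∃ v, M *ᵥ v = (2 : ℂ) • v ∧ (q *ᵥ (Psi D *ᵥ v)) x ≠ 0) wt
    ⟨x0, Finset.mem_filter.2 ⟨Finset.mem_univ _, v0, (hUM v0).1 hv0, hx0⟩⟩
  obtain ⟨v2, hv2, hv2x⟩ := (Finset.mem_filter.1 hx2).2
  have hα : ∀ v, M *ᵥ v = (2 : ℂ) • v → v ∈ Up D q wt (fun r => wt x2 < r) := by
    intro v hv x hx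
    by_contra hc
    exact absurd (hmax2 x (Finset.mem_filter.2 ⟨Finset.mem_univ _, v, hv, hc⟩)) (not_le.2 hx)
  by_cases hne : (Finset.univ.filter fun x => ∃ v, M *ᵥ v = (1 / 2 : ℂ) • v ∧
      (q *ᵥ (Psi D *ᵥ v)) x ≠ 0).Nonempty
  · obtain ⟨x', hx', hmax'⟩ := Finset.exists_max_image _ wt hne
    obtain ⟨v', hv', hv'x⟩ := (Finset.mem_filter.1 hx').2
    refine ⟨wt x2, wt x', ?_, hα, fun v hv x hx => ?_⟩
    · obtain ⟨y, u, hxy, hu, huU⟩ := exists_y S ho he hF hv'x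
      by_contra hcon
      have hlt : ¬ wt x2 ≤ wt y := by
        intro hle
        apply hcon
        linarith
      have hP : ∀ a b : ℝ, a ≤ b → wt x2 ≤ a → wt x2 ≤ b := fun a b hab ha => ha.trans hab
      have h1 := huU (fun r => wt x2 ≤ r) hlt
      -- the projection of `u` on `ker (M - 2)`
      have h2 : p2 D M *ᵥ u ∈ Up D q wt (fun r => wt x2 ≤ r) :=
        up_endS S ho he hpq hst hP (p2_mem S ho he h.mem) h1
      have h3 : p2 D M *ᵥ u ∈ U := by
        rw [hUM, Matrix.mulVec_mulVec, h.mp, Matrix.smul_mulVec]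
      have hs : StabU D At Γ (U ⊓ Up D q wt (fun r => wt x2 ≤ r)) := by
        refine stabU_of grp (fun N hN v hv => ⟨?_, up_endS S ho he hpq hst hP hN hv.2⟩)
          fun x hx v hv => ⟨?_, up_gam ho hpq hst hP (grp x hx) (gfix x hx) hv.2⟩
        · refine (hUM _).2 ?_
          rw [Matrix.mulVec_mulVec, h.comm ho hN, ← Matrix.mulVec_mulVec,
            (hUM v).1 hv.1, Matrix.mulVec_smul]
        · refine (hUM _).2 ?_
          rw [Matrix.mulVec_mulVec,
            ← CenSq.comm_endS (CenSq.comm_gam ho alg1 (grp x hx) (gfix x hx)) h.mem,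
            ← Matrix.mulVec_mulVec, (hUM v).1 hv.1, Matrix.mulVec_smul]
      have h4 : U ⊓ Up D q wt (fun r => wt x2 ≤ r) = ⊥ := by
        by_contra h5
        have h6 := hU.2.2 _ inf_le_left h5 hs
        have h7 : v2 ∈ U ⊓ Up D q wt (fun r => wt x2 ≤ r) := by
          rw [h6, hUM]
          exact hv2
        exact hv2x (h7.2 x2 le_rfl)
      have h5 : p2 D M *ᵥ u = 0 := by
        have h6 : p2 D M *ᵥ u ∈ U ⊓ Up D q wt (fun r => wt x2 ≤ r) := ⟨h3, h2⟩
        rwa [h4, Submodule.mem_bot] at h6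
      apply hu
      have h7 : Psi D *ᵥ (p2 D M *ᵥ u) = (m2 D M).transpose *ᵥ (Psi D *ᵥ u) := by
        rw [Matrix.mulVec_mulVec, Psi_mul_eq ho, dag_p2 ho, ← Matrix.mulVec_mulVec]
      rw [← h.m2v hv', Matrix.dotProduct_mulVec, ← Matrix.mulVec_transpose, ← h7, h5,
        Matrix.mulVec_zero, zero_dotProduct]
    · by_contra hc
      exact absurd (hmax' x (Finset.mem_filter.2 ⟨Finset.mem_univ _, v, hv, hc⟩)) (not_le.2 hx)
  · refine ⟨wt x2, -1 - wt x2, by linarith, hα, fun v hv x hx => ?_⟩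
    by_contra hc
    exact hne ⟨x, Finset.mem_filter.2 ⟨Finset.mem_univ _, v, hv, hc⟩⟩

/-- the orthogonal of the step `≤ 0` is contained in it -/
theorem perp_le (S : ASys D At) (ho : ∀ i, D.odd (D.typ i)) (he : ∀ i j, D.typ i = D.typ j)
    {n : ℕ} (hF : Feas ((Kr D At n : Submodule ℂ (Ten I n)) : Set (Ten I n)) (CC D At) p q wt) :
    perp D (Up D q wt (fun r => 0 < r)) ≤ Up D q wt (fun r => 0 < r) := by
  intro r hr x hx
  by_contra hc
  obtain ⟨y, u, hxy, hu, huU⟩ := exists_y S ho he hF hc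
  have h1 := hr u (huU _ (fun h : 0 < wt y => by linarith))
  apply hu
  have h2 : (Psi D *ᵥ u) ⬝ᵥ r = -(u ⬝ᵥ (Psi D *ᵥ r)) := by
    rw [Matrix.dotProduct_mulVec, ← Matrix.mulVec_transpose, PsiT_eq ho, Matrix.neg_mulVec,
      neg_dotProduct, neg_neg]
  rw [h2, h1, neg_zero]

theorem perp_perp (ho : ∀ i, D.odd (D.typ i)) {U : Submodule ℂ (I → ℂ)} {v : I → ℂ}
    (hv : v ∈ perp D (perp D U)) : v ∈ U := by
  by_contra hne
  obtain ⟨f, hf, hle⟩ := Submodule.exists_le_ker_of_notMem hne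
  let ξ : I → ℂ := fun i => f (Pi.single i 1)
  have hfξ : ∀ v, f v = v ⬝ᵥ ξ := by
    intro v
    conv_lhs => rw [← Finset.univ_sum_single v]
    rw [map_sum, dotProduct]
    refine Finset.sum_congr rfl fun i _ => ?_
    have : (Pi.single i (v i) : I → ℂ) = v i • (Pi.single i 1 : I → ℂ) := by
      rw [← Pi.single_smul, smul_eq_mul, mul_one]
    rw [this, map_smul, smul_eq_mul]
  have h1 : -(Psi D *ᵥ ξ) ∈ perp D U := by
    rw [mem_perp]
    intro v hv
    rw [Matrix.mulVec_neg, Matrix.mulVec_mulVec, Psi_mul_Psi ho, Matrix.neg_mulVec,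
      Matrix.one_mulVec, neg_neg, ← hfξ]
    exact LinearMap.mem_ker.1 (hle hv)
  have h2 := (mem_perp.1 hv) _ h1
  apply hf
  rw [hfξ]
  have h3 : (-(Psi D *ᵥ ξ)) ⬝ᵥ (Psi D *ᵥ v) = -(v ⬝ᵥ ξ) := by
    rw [neg_dotProduct, Matrix.dotProduct_mulVec, ← Matrix.mulVec_transpose,
      Matrix.mulVec_mulVec, PsiT_mul_Psi, Matrix.one_mulVec, dotProduct_comm]
  rw [h3, neg_eq_zero] at h2
  exact h2

end filt

/-! ### Families of symmetries -/

/-- pairwise orthogonal symmetries -/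
structure Fam (D : Dat I Λ) (At : (L : ℕ) → Ten I L → Prop) (Γ : Set (Matrix I I ℂ))
    (F : Finset (Matrix I I ℂ)) : Prop where
  gm : ∀ M ∈ F, GM D At Γ M
  orth : ∀ M ∈ F, ∀ N ∈ F, M ≠ N → (M - 1) * (N - 1) = 0

/-- the common fixed space -/
def V0 (F : Finset (Matrix I I ℂ)) : Submodule ℂ (I → ℂ) where
  carrier := {v | ∀ M ∈ F, M *ᵥ v = v}
  add_mem' := by
    intro a b ha hb M hM
    rw [Matrix.mulVec_add, ha M hM, hb M hM]
  zero_mem' := fun M _ => Matrix.mulVec_zero M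
  smul_mem' := by
    intro c a ha M hM
    rw [Matrix.mulVec_smul, ha M hM]

theorem mem_V0 {F : Finset (Matrix I I ℂ)} {v : I → ℂ} :
    v ∈ V0 F ↔ ∀ M ∈ F, M *ᵥ v = v := Iff.rfl

/-- the two projectors of a symmetry `N` are killed by `M - 1` if the first one is -/
theorem orth_of (ho : ∀ i, D.odd (D.typ i)) {M N : Matrix I I ℂ} (hM : GM D At Γ M)
    (hN : GM D At Γ N) (h : (M - 1) * p2 D N = 0) : (M - 1) * (N - 1) = 0 := by
  have h1 : m2 D N * (Nd.dag D M - 1) = 0 := by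
    have h2 := congrArg (Nd.dag D) h
    rw [dag_mul ho, dag_p2 ho, dag_sub, dag_one ho] at h2
    rw [h2]
    unfold Nd.dag
    simp
  have h2 : m2 D N * (1 - M) = 0 := by
    calc m2 D N * (1 - M) = m2 D N * (Nd.dag D M - 1) * M := by
          rw [Matrix.mul_assoc, Matrix.sub_mul, hM.r1, Matrix.one_mul]
      _ = 0 := by rw [h1, Matrix.zero_mul]
  have h3 : M * m2 D N = m2 D N * M := by
    have h4 : M * N = N * M := hM.comm ho hN.mem
    have h5 : M * Nd.dag D N = Nd.dag D N * M := by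
      calc M * Nd.dag D N = Nd.dag D N * N * (M * Nd.dag D N) := by
            rw [hN.r1, Matrix.one_mul]
        _ = Nd.dag D N * (N * M) * Nd.dag D N := by noncomm_ring
        _ = Nd.dag D N * (M * N) * Nd.dag D N := by rw [h4]
        _ = Nd.dag D N * M * (N * Nd.dag D N) := by noncomm_ring
        _ = Nd.dag D N * M := by rw [hN.r2, Matrix.mul_one]
    rw [m2, Matrix.mul_sub, Matrix.mul_add, Matrix.sub_mul, Matrix.add_mul]
    simp only [Matrix.mul_smul, Matrix.smul_mul, h4, h5, Matrix.mul_one, Matrix.one_mul]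
  have h4 : (M - 1) * m2 D N = 0 := by
    rw [Matrix.sub_mul, h3, Matrix.one_mul]
    rw [Matrix.mul_sub, Matrix.mul_one, sub_eq_zero] at h2
    rw [← h2, sub_self]
  rw [sub_one (D := D) N, Matrix.mul_sub, h, Matrix.mul_smul, h4, smul_zero, sub_zero]

/-- the labels -/
def Lb (F : Finset (Matrix I I ℂ)) (v : I → ℂ) : Prop :=
  ∀ M ∈ F, M *ᵥ v = v ∨ M *ᵥ v = (2 : ℂ) • v ∨ M *ᵥ v = (1 / 2 : ℂ) • v

theorem span_lb (S : ASys D At) (ho : ∀ i, D.odd (D.typ i)) (he : ∀ i j, D.typ i = D.typ j)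
    (F : Finset (Matrix I I ℂ)) (hF : ∀ M ∈ F, GM D At Γ M) :
    (⊤ : Submodule ℂ (I → ℂ)) ≤ Submodule.span ℂ {v | Lb F v} := by
  classical
  induction F using Finset.induction_on with
  | empty =>
    intro v _
    exact Submodule.subset_span fun M hM => absurd hM (Finset.notMem_empty M)
  | insert M F hMF ih =>
    have ih' := ih fun N hN => hF N (Finset.mem_insert_of_mem hN)
    have hM := hF M (Finset.mem_insert_self M F)
    refine ih'.trans (Submodule.span_le.2 ?_)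
    intro v hv
    have key : ∀ A ∈ endS D At, (∀ w, M *ᵥ (A *ᵥ w) = A *ᵥ w ∨ M *ᵥ (A *ᵥ w) = (2 : ℂ) • (A *ᵥ w) ∨
        M *ᵥ (A *ᵥ w) = (1 / 2 : ℂ) • (A *ᵥ w)) → A *ᵥ v ∈ {v | Lb (insert M F) v} := by
      intro A hA h1 N hN
      rcases Finset.mem_insert.1 hN with rfl | hN'
      · exact h1 v
      · have h2 : N *ᵥ (A *ᵥ v) = A *ᵥ (N *ᵥ v) := by
          rw [Matrix.mulVec_mulVec, (hF N hN).comm ho hA, ← Matrix.mulVec_mulVec]
        rw [h2]
        rcases hv N hN' with h | h | h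
        · exact Or.inl (by rw [h])
        · exact Or.inr (Or.inl (by rw [h, Matrix.mulVec_smul]))
        · exact Or.inr (Or.inr (by rw [h, Matrix.mulVec_smul]))
    have e : v = p2 D M *ᵥ v + m2 D M *ᵥ v + (1 - p2 D M - m2 D M) *ᵥ v := by
      rw [← Matrix.add_mulVec, ← Matrix.add_mulVec]
      have : p2 D M + m2 D M + (1 - p2 D M - m2 D M) = 1 := by abel
      rw [this, Matrix.one_mulVec]
    rw [SetLike.mem_coe, e]
    refine add_mem (add_mem (Submodule.subset_span (key _ (p2_mem S ho he hM.mem) fun w => ?_))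
      (Submodule.subset_span (key _ (m2_mem S ho he hM.mem) fun w => ?_)))
      (Submodule.subset_span (key _ (sub_mem (sub_mem (one_mem S he) (p2_mem S ho he hM.mem))
        (m2_mem S ho he hM.mem)) fun w => ?_))
    · exact Or.inr (Or.inl (by rw [Matrix.mulVec_mulVec, hM.mp, Matrix.smul_mulVec]))
    · exact Or.inr (Or.inr (by rw [Matrix.mulVec_mulVec, hM.mm, Matrix.smul_mulVec]))
    · exact Or.inl (by rw [Matrix.mulVec_mulVec, hM.m1])

/-- a non-zero stable subspace contains a minimal one -/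
theorem exists_minStab (D : Dat I Λ) (At : (L : ℕ) → Ten I L → Prop) (Γ : Set (Matrix I I ℂ)) :
    ∀ (n : ℕ) {U : Submodule ℂ (I → ℂ)}, Module.finrank ℂ U ≤ n → StabU D At Γ U → U ≠ ⊥ →
      ∃ M, M ≤ U ∧ MinStab D At Γ M := by
  intro n
  induction n with
  | zero =>
    intro U hn _ h0
    exact absurd (Submodule.finrank_eq_zero.1 (Nat.le_zero.1 hn)) h0
  | succ n ih =>
    intro U hn hU h0
    by_cases hm : ∃ W, W ≤ U ∧ StabU D At Γ W ∧ W ≠ ⊥ ∧ W ≠ U
    · obtain ⟨W, hW1, hW2, hW3, hW4⟩ := hm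
      have h1 := Submodule.finrank_lt_finrank_of_lt (lt_of_le_of_ne hW1 hW4)
      obtain ⟨M, hM1, hM2⟩ := ih (by omega) hW2 hW3
      exact ⟨M, hM1.trans hW1, hM2⟩
    · refine ⟨U, le_rfl, h0, hU, fun W hW1 hW2 hW3 => ?_⟩
      by_contra hW4
      exact hm ⟨W, hW1, hW3, hW2, hW4⟩

/-- there is a family such that no minimal isotropic stable subspace is in the fixed space -/
theorem exists_fam (ho : ∀ i, D.odd (D.typ i)) (hB : BalM D At Γ) :
    ∃ F, Fam D At Γ F ∧ ∀ U, MinStab D At Γ U → Isot (Psi D) U → ¬ U ≤ V0 F := by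
  classical
  have hne : ∃ n, ∃ F, Fam D At Γ F ∧ Module.finrank ℂ (V0 F) = n :=
    ⟨_, ∅, ⟨fun M hM => absurd hM (Finset.notMem_empty M),
      fun M hM => absurd hM (Finset.notMem_empty M)⟩, rfl⟩
  obtain ⟨F, hF, hn⟩ := Nat.find_spec hne
  refine ⟨F, hF, fun U hU hi hle => ?_⟩
  obtain ⟨M, hM1, hM2, hM3, hM4, hM5⟩ := hB U hU hi
  have hM : GM D At Γ M := ⟨hM1, hM2, hM3, hM4, U, hU, hM5⟩
  have ho1 : ∀ N ∈ F, (N - 1) * (M - 1) = 0 := by
    intro N hN
    refine orth_of ho (hF.gm N hN) hM (mat_ext fun v => ?_)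
    rw [← Matrix.mulVec_mulVec, Matrix.sub_mulVec, Matrix.one_mulVec, Matrix.zero_mulVec,
      sub_eq_zero]
    refine hle ?_ N hN
    rw [hM5, Matrix.mulVec_mulVec, hM.mp, Matrix.smul_mulVec]
  have hF' : Fam D At Γ (insert M F) := by
    refine ⟨fun N hN => ?_, fun A hA B hB hAB => ?_⟩
    · rcases Finset.mem_insert.1 hN with rfl | hN
      · exact hM
      · exact hF.gm N hN
    · rcases Finset.mem_insert.1 hA with rfl | hA' <;> rcases Finset.mem_insert.1 hB with rfl | hB'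
      · exact absurd rfl hAB
      · have h1 := ho1 B hB'
        have h2 : A * B = B * A := hM.comm ho (hF.gm B hB').mem
        have h3 : (A - 1) * (B - 1) = (B - 1) * (A - 1) + (A * B - B * A) := by noncomm_ring
        rw [h3, h1, h2, sub_self, add_zero]
      · exact ho1 A hA'
      · exact hF.orth A hA' B hB' hAB
  have hlt : V0 (insert M F) < V0 F := by
    refine lt_of_le_of_ne (fun v hv N hN => hv N (Finset.mem_insert_of_mem hN)) fun h0 => ?_
    obtain ⟨v, hv, hv0⟩ := Submodule.exists_mem_ne_zero_of_ne_bot hU.1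
    have h1 : v ∈ V0 (insert M F) := by
      rw [h0]
      exact hle hv
    have h2 := h1 M (Finset.mem_insert_self M F)
    rw [(hM5 v).1 hv] at h2
    have h3 : (1 : ℂ) • v = 0 := by
      calc (1 : ℂ) • v = (2 : ℂ) • v - v := by module
        _ = 0 := by rw [h2, sub_self]
    rw [one_smul] at h3
    exact hv0 h3
  have h1 := Submodule.finrank_lt_finrank_of_lt hlt
  rw [hn] at h1
  exact Nat.find_min hne h1 ⟨_, hF', rfl⟩

/-- the projector on the fixed space of a family -/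
noncomputable def e0 (D : Dat I Λ) (F : Finset (Matrix I I ℂ)) : Matrix I I ℂ :=
  1 - ∑ M ∈ F, (p2 D M + m2 D M)

theorem e0_mem (S : ASys D At) (ho : ∀ i, D.odd (D.typ i)) (he : ∀ i j, D.typ i = D.typ j)
    {F : Finset (Matrix I I ℂ)} (hF : Fam D At Γ F) : e0 D F ∈ endS D At :=
  sub_mem (one_mem S he) (sum_mem fun M hM =>
    add_mem (p2_mem S ho he (hF.gm M hM).mem) (m2_mem S ho he (hF.gm M hM).mem))

theorem dag_e0 (ho : ∀ i, D.odd (D.typ i)) (F : Finset (Matrix I I ℂ)) :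
    Nd.dag D (e0 D F) = e0 D F := by
  rw [e0, dag_sub, dag_one ho, dag_sum]
  congr 1
  refine Finset.sum_congr rfl fun M _ => ?_
  rw [dag_add, dag_p2 ho, dag_m2 ho, add_comm]

theorem mul_e0 {F : Finset (Matrix I I ℂ)} (hF : Fam D At Γ F) {M : Matrix I I ℂ} (hM : M ∈ F) :
    (M - 1) * e0 D F = 0 := by
  classical
  have h1 : (M - 1) * (p2 D M + m2 D M) = M - 1 := by
    have h := (hF.gm M hM).m1
    have e : (M - 1) * (p2 D M + m2 D M) =
        (M - 1) - (M * (1 - p2 D M - m2 D M) - (1 - p2 D M - m2 D M)) := by noncomm_ring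
    rw [e, h, sub_self, sub_zero]
  have h2 : ∀ N ∈ F.erase M, (M - 1) * (p2 D N + m2 D N) = 0 := by
    intro N hN
    obtain ⟨hNM, hNF⟩ := Finset.mem_erase.1 hN
    have h3 := hF.orth M hM N hNF (Ne.symm hNM)
    have h4 : (M - 1) * (Nd.dag D N - 1) = 0 := by
      have e : (M - 1) * (Nd.dag D N - 1) = -((M - 1) * (N - 1) * Nd.dag D N) +
          (M - 1) * (N * Nd.dag D N - 1) := by noncomm_ring
      rw [e, h3, (hF.gm N hNF).r2, sub_self, Matrix.zero_mul, Matrix.mul_zero, neg_zero,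
        add_zero]
    have e : p2 D N + m2 D N = (2 : ℂ) • (N - 1) + (2 : ℂ) • (Nd.dag D N - 1) := by
      rw [p2, m2]
      module
    rw [e, Matrix.mul_add, Matrix.mul_smul, Matrix.mul_smul, h3, h4, smul_zero, add_zero]
  rw [e0, Matrix.mul_sub, Matrix.mul_one, Finset.mul_sum, ← Finset.add_sum_erase _ _ hM, h1,
    Finset.sum_eq_zero h2, add_zero, sub_self]

section main

variable {p q : Matrix I I ℂ} {wt : I → ℝ}

/-- the fixed space is in the step `≤ 0` -/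
theorem v0_le (S : ASys D At) (ho : ∀ i, D.odd (D.typ i)) (he : ∀ i j, D.typ i = D.typ j)
    (grp : ∀ x ∈ Γ, IsG D x) (gfix : ∀ x ∈ Γ, ∀ L u, At L u → gT x u = u)
    {n : ℕ} (hF : Feas ((Kr D At n : Submodule ℂ (Ten I n)) : Set (Ten I n)) (CC D At) p q wt)
    (hst : ∀ g, Pres D At g → ∀ x y, (q * g.transpose * p) x y ≠ 0 → wt x ≤ wt y)
    {F : Finset (Matrix I I ℂ)} (hFam : Fam D At Γ F)
    (hV : ∀ U, MinStab D At Γ U → Isot (Psi D) U → ¬ U ≤ V0 F) :
    V0 F ≤ Up D q wt (fun r => 0 < r) := by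
  have hpq := hF.pq
  have hP : ∀ a b : ℝ, a ≤ b → 0 < a → 0 < b := fun a b hab ha => ha.trans_le hab
  have hR : ∀ N ∈ endS D At, ∀ v ∈ perp D (Up D q wt (fun r => 0 < r)),
      N *ᵥ v ∈ perp D (Up D q wt (fun r => 0 < r)) := fun N hN v hv =>
    perp_stable ho (fun w hw => up_endS S ho he hpq hst hP (dag_mem S ho hN) hw) v hv
  have hW : StabU D At Γ (perp D (Up D q wt (fun r => 0 < r)) ⊓ V0 F) := by
    refine stabU_of grp (fun N hN v hv => ⟨hR N hN v hv.1, fun M hM => ?_⟩)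
      fun x hx v hv => ⟨perp_stable ho (dag_stable (grp x hx) fun w hw =>
        up_gam ho hpq hst hP (grp x hx) (gfix x hx) hw) v hv.1, fun M hM => ?_⟩
    · rw [Matrix.mulVec_mulVec, (hFam.gm M hM).comm ho hN, ← Matrix.mulVec_mulVec, hv.2 M hM]
    · rw [Matrix.mulVec_mulVec,
        ← CenSq.comm_endS (CenSq.comm_gam ho alg1 (grp x hx) (gfix x hx)) (hFam.gm M hM).mem,
        ← Matrix.mulVec_mulVec, hv.2 M hM]
  have hbot : perp D (Up D q wt (fun r => 0 < r)) ⊓ V0 F = ⊥ := by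
    by_contra h0
    obtain ⟨U, hU1, hU2⟩ := exists_minStab D At Γ _ le_rfl hW h0
    refine hV U hU2 (fun v hv w hw => ?_) (hU1.trans inf_le_right)
    exact (mem_perp.1 (hU1 hw).1) v (perp_le S ho he hF (hU1 hv).1)
  intro v hv
  refine perp_perp ho (mem_perp.2 fun r hr => ?_)
  have h1 : e0 D F *ᵥ r ∈ perp D (Up D q wt (fun r => 0 < r)) ⊓ V0 F := by
    refine ⟨hR _ (e0_mem S ho he hFam) r hr, fun M hM => ?_⟩
    have h2 := mul_e0 hFam hM
    rw [Matrix.sub_mul, Matrix.one_mul, sub_eq_zero] at h2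
    rw [Matrix.mulVec_mulVec, h2]
  rw [hbot, Submodule.mem_bot] at h1
  have h2 : e0 D F *ᵥ v = v := by
    rw [e0, Matrix.sub_mulVec, Matrix.one_mulVec, Matrix.sum_mulVec, Finset.sum_eq_zero,
      sub_zero]
    intro M hM
    obtain ⟨h3, h4⟩ := (hFam.gm M hM).fv (hv M hM)
    rw [Matrix.add_mulVec, h3, h4, add_zero]
  rw [← h2, Matrix.mulVec_mulVec, Psi_mul_eq ho, dag_e0 ho, ← Matrix.mulVec_mulVec,
    Matrix.dotProduct_mulVec, ← Matrix.mulVec_transpose, Matrix.transpose_transpose, h1,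
    zero_dotProduct]

theorem gT_simple {n : ℕ} (g : Matrix I I ℂ) (v : Fin n → I → ℂ) :
    gT g (fun w : Fin n → I => ∏ a, v a (w a)) = fun w => ∏ a, (g *ᵥ v a) (w a) := by
  funext w
  unfold gT
  simp only [← Finset.prod_mul_distrib]
  simp only [Matrix.mulVec, dotProduct]
  rw [Finset.prod_univ_sum, Fintype.piFinset_univ]

theorem prod_two {n : ℕ} (m : Fin n → ℤ) : ∏ a, (2 : ℂ) ^ m a = (2 : ℂ) ^ ∑ a, m a := by
  have key : ∀ s : Finset (Fin n), ∏ a ∈ s, (2 : ℂ) ^ m a = (2 : ℂ) ^ ∑ a ∈ s, m a := by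
    intro s
    induction s using Finset.induction_on with
    | empty => simp
    | insert a s ha ih =>
      rw [Finset.prod_insert ha, Finset.sum_insert ha, ih, zpow_add₀ (two_ne_zero)]
  exact key _

theorem kr_eq_zero (S : ASys D At) (ho : ∀ i, D.odd (D.typ i)) (he : ∀ i j, D.typ i = D.typ j)
    (grp : ∀ x ∈ Γ, IsG D x) (gfix : ∀ x ∈ Γ, ∀ L u, At L u → gT x u = u)
    (hB : BalM D At Γ) (n : ℕ) (t : Ten I n) (ht : t ∈ Kr D At n) : t = 0 := by
  classical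
  obtain ⟨p, q, wt, hF, hst⟩ := exists_opt S ho n
  obtain ⟨F, hFam, hV⟩ := exists_fam ho hB
  have hpq := hF.pq
  have hV0 := v0_le S ho he grp gfix hF hst hFam hV
  choose! α β hαβ hα hβ using fun M (hM : M ∈ F) => jumps S ho he grp gfix hF hst (hFam.gm M hM)
  -- a basis of joint eigenvectors
  let b := Module.Basis.ofSpan (span_lb S ho he F hFam.gm)
  have hb : ∀ κ, Lb F (b κ) := fun κ =>
    Module.Basis.ofSpan_subset (span_lb S ho he F hFam.gm) ⟨κ, rfl⟩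
  have hb0 : ∀ κ, b κ ≠ 0 := fun κ => b.ne_zero κ
  have hfin : Finite ((linearIndepOn_empty ℂ (id : (I → ℂ) → I → ℂ)).extend
      (Set.empty_subset {v | Lb F v})) := Module.Finite.finite_basis b
  -- the map `Ψ`
  let ψe : (I → ℂ) ≃ₗ[ℂ] (I → ℂ) :=
    { toFun := fun v => Psi D *ᵥ v
      map_add' := fun a b => Matrix.mulVec_add _ _ _
      map_smul' := fun c a => Matrix.mulVec_smul _ _ _
      invFun := fun v => -(Psi D *ᵥ v)
      left_inv := fun v => by
        change -(Psi D *ᵥ (Psi D *ᵥ v)) = v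
        rw [Matrix.mulVec_mulVec, Psi_mul_Psi ho, Matrix.neg_mulVec, Matrix.one_mulVec, neg_neg]
      right_inv := fun v => by
        change Psi D *ᵥ -(Psi D *ᵥ v) = v
        rw [Matrix.mulVec_neg, Matrix.mulVec_mulVec, Psi_mul_Psi ho, Matrix.neg_mulVec,
          Matrix.one_mulVec, neg_neg] }
  -- the labels
  let c2 : Matrix I I ℂ → _ → ℤ := fun M κ => if M *ᵥ b κ = (2 : ℂ) • b κ then 1 else 0
  let cm : Matrix I I ℂ → _ → ℤ := fun M κ =>
    if M *ᵥ b κ = (2 : ℂ) • b κ then 0 else if M *ᵥ b κ = (1 / 2 : ℂ) • b κ then 1 else 0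
  let lev : _ → ℝ := fun κ => ∑ M ∈ F, ((c2 M κ : ℝ) * α M + (cm M κ : ℝ) * β M)
  have hne2 : ∀ κ, b κ ≠ (2 : ℂ) • b κ := by
    intro κ h
    have h3 : b κ = (2 : ℂ) • b κ - b κ := by module
    rw [← h, sub_self] at h3
    exact hb0 κ h3
  have hnem : ∀ κ, b κ ≠ (1 / 2 : ℂ) • b κ := by
    intro κ h
    have h3 : b κ = (2 : ℂ) • (b κ - (1 / 2 : ℂ) • b κ) := by module
    rw [← h, sub_self, smul_zero] at h3
    exact hb0 κ h3
  have hne2m : ∀ κ, (2 : ℂ) • b κ ≠ (1 / 2 : ℂ) • b κ := by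
    intro κ h
    have h3 : b κ = (2 / 3 : ℂ) • ((2 : ℂ) • b κ - (1 / 2 : ℂ) • b κ) := by module
    rw [h, sub_self, smul_zero] at h3
    exact hb0 κ h3
  have hc1 : ∀ M κ, M *ᵥ b κ = b κ → c2 M κ = 0 ∧ cm M κ = 0 := by
    intro M κ h
    have h1 : ¬ M *ᵥ b κ = (2 : ℂ) • b κ := by rw [h]; exact hne2 κ
    have h2 : ¬ M *ᵥ b κ = (1 / 2 : ℂ) • b κ := by rw [h]; exact hnem κ
    exact ⟨if_neg h1, by show (if _ then _ else _) = _; rw [if_neg h1, if_neg h2]⟩
  have hlev : ∀ κ, b κ ∈ Up D q wt (fun r => lev κ < r) := by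
    intro κ
    by_cases hex : ∃ M ∈ F, M *ᵥ b κ ≠ b κ
    · obtain ⟨M, hM, hMb⟩ := hex
      have hother : ∀ N ∈ F, N ≠ M → N *ᵥ b κ = b κ := by
        intro N hN hNM
        by_contra hNb
        have key : ∀ A ∈ F, A *ᵥ b κ ≠ b κ → ∃ c : ℂ, c ≠ 0 ∧ (A - 1) *ᵥ b κ = c • b κ := by
          intro A hA hAb
          rcases hb κ A hA with h | h | h
          · exact absurd h hAb
          · refine ⟨1, one_ne_zero, ?_⟩
            rw [Matrix.sub_mulVec, h, Matrix.one_mulVec]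
            module
          · refine ⟨-(1 / 2), by norm_num, ?_⟩
            rw [Matrix.sub_mulVec, h, Matrix.one_mulVec]
            module
        obtain ⟨c, hc, h1⟩ := key N hN hNb
        obtain ⟨c', hc', h2⟩ := key M hM hMb
        have h3 : (N - 1) *ᵥ ((M - 1) *ᵥ b κ) = 0 := by
          rw [Matrix.mulVec_mulVec, hFam.orth N hN M hM hNM, Matrix.zero_mulVec]
        rw [h2, Matrix.mulVec_smul, h1, smul_smul] at h3
        exact (smul_ne_zero (mul_ne_zero hc' hc) (hb0 κ)) h3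
      have hsum : lev κ = (c2 M κ : ℝ) * α M + (cm M κ : ℝ) * β M := by
        refine Finset.sum_eq_single M (fun N hN hNM => ?_) fun h => absurd hM h
        obtain ⟨h1, h2⟩ := hc1 N κ (hother N hN hNM)
        rw [h1, h2]
        simp
      rcases hb κ M hM with h | h | h
      · exact absurd h hMb
      · have h1 : c2 M κ = 1 := if_pos h
        have h2 : cm M κ = 0 := if_pos h
        have h3 : lev κ = α M := by rw [hsum, h1, h2]; simp
        rw [h3]
        exact hα M hM _ h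
      · have h0 : ¬ M *ᵥ b κ = (2 : ℂ) • b κ := by rw [h]; exact (hne2m κ).symm
        have h1 : c2 M κ = 0 := if_neg h0
        have h2 : cm M κ = 1 := by show (if _ then _ else _) = _; rw [if_neg h0, if_pos h]
        have h3 : lev κ = β M := by rw [hsum, h1, h2]; simp
        rw [h3]
        exact hβ M hM _ h
    · push Not at hex
      have h1 : lev κ = 0 := by
        refine Finset.sum_eq_zero fun M hM => ?_
        obtain ⟨h1, h2⟩ := hc1 M κ (hex M hM)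
        rw [h1, h2]
        simp
      rw [h1]
      exact hV0 hex
  refine eq_zero_of_ev (b.map ψe) t fun κ => ?_
  by_contra hne
  have hne' : ev (Ω := ℂ) (t : Tens I ℂ n) (fun a => Psi D *ᵥ b (κ a)) ≠ 0 := by
    intro h
    apply hne
    rw [← h]
    congr 1
  -- (1) the weight of `t`
  have h1 : 1 ≤ ∑ a, lev (κ a) := by
    have h0 := hne'
    rw [ev_expand t hpq] at h0
    obtain ⟨J, _, hJ0⟩ := Finset.exists_ne_zero_of_sum_ne_zero h0
    have h2 := hF.tens t ht J (right_ne_zero_of_mul hJ0)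
    refine h2.trans (Finset.sum_le_sum fun a _ => ?_)
    by_contra hlt
    rw [not_le] at hlt
    exact left_ne_zero_of_mul hJ0 (Finset.prod_eq_zero (Finset.mem_univ a)
      (hlev (κ a) (J a) hlt))
  -- (2) `t` is fixed by the symmetries
  have h2 : ∀ M ∈ F, ∑ a, c2 M (κ a) = ∑ a, cm M (κ a) := by
    intro M hM
    have hdv : ∀ a, Nd.dag D M *ᵥ b (κ a) = (2 : ℂ) ^ (cm M (κ a) - c2 M (κ a)) • b (κ a) := by
      intro a
      rcases hb (κ a) M hM with h | h | h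
      · obtain ⟨h3, h4⟩ := hc1 M (κ a) h
        have h5 : M *ᵥ b (κ a) = (1 : ℂ) • b (κ a) := by rw [h, one_smul]
        rw [h3, h4, sub_self, zpow_zero]
        exact (hFam.gm M hM).dagv (by norm_num) h5
      · have h3 : c2 M (κ a) = 1 := if_pos h
        have h4 : cm M (κ a) = 0 := if_pos h
        rw [h3, h4, (hFam.gm M hM).dagv (c' := 1 / 2) (by norm_num) h]
        norm_num
      · have h0 : ¬ M *ᵥ b (κ a) = (2 : ℂ) • b (κ a) := by rw [h]; exact (hne2m (κ a)).symm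
        have h3 : c2 M (κ a) = 0 := if_neg h0
        have h4 : cm M (κ a) = 1 := by show (if _ then _ else _) = _; rw [if_neg h0, if_pos h]
        rw [h3, h4, (hFam.gm M hM).dagv (c' := 2) (by norm_num) h]
        norm_num
    have h3 : psiT D t (fun w : Fin n → I => ∏ a, b (κ a) (w a)) =
        (2 : ℂ) ^ (∑ a, (cm M (κ a) - c2 M (κ a))) *
          psiT D t (fun w : Fin n → I => ∏ a, b (κ a) (w a)) := by
      conv_lhs => rw [← gT_fix (hFam.gm M hM).fix ht.1]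
      rw [psi_gT ho, gT_simple, ← prod_two]
      have e : (fun w : Fin n → I => ∏ a, (Nd.dag D M *ᵥ b (κ a)) (w a)) =
          (∏ a, (2 : ℂ) ^ (cm M (κ a) - c2 M (κ a))) •
            fun w : Fin n → I => ∏ a, b (κ a) (w a) := by
        funext w
        rw [Pi.smul_apply, smul_eq_mul, ← Finset.prod_mul_distrib]
        refine Finset.prod_congr rfl fun a _ => ?_
        rw [hdv a, Pi.smul_apply, smul_eq_mul]
      rw [e, ← Qps.psiL_apply, map_smul, Qps.psiL_apply, smul_eq_mul]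
    rw [psi_simple] at h3
    have h4 : (2 : ℂ) ^ (∑ a, (cm M (κ a) - c2 M (κ a))) = 1 := by
      have h5 : ((2 : ℂ) ^ (∑ a, (cm M (κ a) - c2 M (κ a))) - 1) *
          ev (Ω := ℂ) (t : Tens I ℂ n) (fun a => Psi D *ᵥ b (κ a)) = 0 := by
        rw [sub_mul, one_mul, ← h3, sub_self]
      exact sub_eq_zero.1 ((mul_eq_zero.1 h5).resolve_right hne')
    have h5 : (2 : ℝ) ^ (∑ a, (cm M (κ a) - c2 M (κ a))) = 1 := by
      have h6 := congrArg norm h4
      rw [norm_zpow, norm_one] at h6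
      simpa using h6
    have h6 : ∑ a, (cm M (κ a) - c2 M (κ a)) = 0 :=
      (zpow_eq_one_iff_right₀ (by norm_num) (by norm_num)).1 h5
    rw [Finset.sum_sub_distrib, sub_eq_zero] at h6
    exact h6.symm
  -- (3) the sum
  have h3 : ∑ a, lev (κ a) ≤ 0 := by
    show ∑ a, ∑ M ∈ F, ((c2 M (κ a) : ℝ) * α M + (cm M (κ a) : ℝ) * β M) ≤ 0
    rw [Finset.sum_comm]
    refine Finset.sum_nonpos fun M hM => ?_
    have e : ∑ a, ((c2 M (κ a) : ℝ) * α M + (cm M (κ a) : ℝ) * β M) =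
        ((∑ a, c2 M (κ a) : ℤ) : ℝ) * (α M + β M) := by
      rw [Finset.sum_add_distrib, ← Finset.sum_mul, ← Finset.sum_mul, mul_add]
      have h4 := congrArg (fun z : ℤ => (z : ℝ)) (h2 M hM)
      push_cast at h4 ⊢
      rw [← h4]
    rw [e]
    have h4 : (0 : ℝ) ≤ ((∑ a, c2 M (κ a) : ℤ) : ℝ) := by
      have : (0 : ℤ) ≤ ∑ a, c2 M (κ a) := Finset.sum_nonneg fun a _ => by
        show (0 : ℤ) ≤ if _ then _ else _
        split_ifs <;> norm_num
      exact_mod_cast this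
    have h5 := hαβ M hM
    nlinarith
  linarith

end main

end Pool.Agent.Lib.MP_361a6f_ag.FL.E.NdC

namespace Pool.Agent.Lib.MP_361a6f_ag.FL.E

/-- **Row NDC.** -/
theorem ndC : NdCStatement := by
  intro I Λ _ _ _ D At Γ S ho he grp gfix hB L u hu h0
  by_contra hcon
  push Not at hcon
  exact h0 (NdC.kr_eq_zero S ho he grp gfix hB L u ⟨hu, hcon⟩)

end Pool.Agent.Lib.MP_361a6f_ag.FL.E
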