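import Pool.Agent.Lib.MP_361a6f_ag.FL.EM.StatEM
import Pool.Agent.Lib.MP_361a6f_ag.FL.E.BR.StatB

/-!
# Theorem EMC: few big pieces, modulo the pieces with bad reduction and the balanced pieces
-/

open CategoryTheory AlgebraicGeometry MonoidalCategory CartesianMonoidalCategory

universe u v w w'

namespace Pool.Agent.Lib.MP_361a6f_ag.FL

open Pool.Agent.Lib.MP_361a6f_ag.H3 Pool.Agent.Lib.MP_361a6f_ag.SQ

section defs

variable {k : Type u} [Field k]

/-- The form `Tr(ξ^(n-1) x y)` is zero on the subspace `U` of `H^1(X)`. -/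
def EQ.Isot (W : CohomologyData.{u, 0, w} k ℂ) (X : Sch k) (n : ℕ) (ξ : W.coh X)
    (U : Submodule ℂ (W.coh X)) : Prop :=
  ∀ x ∈ U, ∀ y ∈ U, W.Tr (W.cup (ξ ^ (n - 1)) (W.cup x y)) = 0

/-- There is a symmetry `M` of the cohomology of the powers of `X` that acts on `H^1(X)` as a
complex linear combination of algebraic correspondences, with `(M - 1)(M - 2)(2 M - 1) = 0`, such
that `U` is the eigenspace of `M` on `H^1(X)` for the eigenvalue `2`. (The conditions are written
with `M - 1`. For an abelian variety and the subspace `U = V_σ` that belongs to a homomorphism `σ`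
from the centre of the endomorphism algebra to `ℂ` that is not real: `M` is `2` on `V_σ`, `1/2` on
the subspace of the complex conjugate of `σ`, and `1` on the others. It exists if and only if the
algebraic classes on the powers of `X` are balanced: sums of tensors with as many letters in `V_σ`
as in the subspace of the complex conjugate.) -/
def EQ.Bal (W : CohomologyData.{u, 0, w} k ℂ) (X : Sch k) (n : ℕ)
    (U : Submodule ℂ (W.coh X)) : Prop :=
  ∃ M : ∀ P : Prd 1, W.coh (EQ.pw X P) → W.coh (EQ.pw X P), EQ.IsSym W X M ∧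
    (∃ z ∈ Submodule.span ℂ {z | W.IsAlg (X.prod X) n z},
      ∀ x, W.Deg X 1 x → M (.leaf 0) x = EQ.act W z x) ∧
    ∀ x, W.Deg X 1 x →
      W.scal 2 (EQ.sub1 (X := X) M (EQ.sub1 (X := X) M (EQ.sub1 (X := X) M x))) =
          EQ.sub1 (X := X) M (EQ.sub1 (X := X) M x) + EQ.sub1 (X := X) M x ∧
        (x ∈ U ↔ EQ.sub1 (X := X) M x = x)

/-- There are no six independent minimal stable subspaces of `H^1(X)` that are not isotropic, at
least five of which are fixed by `T`, such that the first one has dimension at least `32`, or the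
first two have dimension at least `8`. -/
def EQ.Few6 (W : CohomologyData.{u, 0, w} k ℂ) (X : Sch k) (n : ℕ) (ξ : W.coh X)
    (T : ∀ P : Prd 1, W.coh (EQ.pw X P) → W.coh (EQ.pw X P)) : Prop :=
  ∀ U : Fin 6 → Submodule ℂ (W.coh X),
    (∀ i, EQ.MinStab W X n (U i) ∧ ¬ EQ.Isot W X n ξ (U i)) → iSupIndep U →
    (∃ i, ∀ j, j ≠ i → ∀ x ∈ U j, EQ.sub1 (X := X) T x = 0) →
    Module.finrank ℂ (U 0) < 32 ∧ (8 ≤ Module.finrank ℂ (U 0) → Module.finrank ℂ (U 1) < 8)

variable {k' : Type v} [Field k'] {W : CohomologyData.{u, 0, w} k ℂ}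
  {W' : CohomologyData.{v, 0, w'} k' ℂ}

/-- `T` is a symmetry of the cohomology of the powers of `X` like a local monodromy operator at the
place of the specialisation: `(T - 1)^2 = 0` on `H^1(X)`, and `F^*` is the multiplication by the
square root of `q` on the specialisation of `(T - 1) H^1(X)`. -/
def EQ.Mono (D : EQ.Data W W') (T : ∀ P : Prd 1, W.coh (EQ.pw D.X P) → W.coh (EQ.pw D.X P)) :
    Prop :=
  EQ.IsSym W D.X T ∧
    (∀ x, W.Deg D.X 1 x → EQ.sub1 (X := D.X) T (EQ.sub1 (X := D.X) T x) = 0) ∧
    ∀ x, W.Deg D.X 1 x → W'.pb D.F (D.s (.leaf 0) (EQ.sub1 (X := D.X) T x)) =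
      W'.scal ((Real.sqrt D.q : ℝ) : ℂ) (D.s (.leaf 0) (EQ.sub1 (X := D.X) T x))

/-- Every isotropic minimal stable subspace of `H^1(X)` has the property `EQ.Bal`, and there is an
operator `T` as in `EQ.Mono` (`T = 1` is allowed) with `EQ.Few6`.

(For abelian varieties: the first condition is empty if there is no factor of type IV. The second
condition is true for `T = 1` if `dim X ≤ 11`, or if `X` is simple and `dim X ≤ 23`, or if the
centre of the endomorphism algebra has at most `5` real embeddings, for instance if all factors are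
of type IV; and at a place of bad reduction, for a local monodromy operator `T`, if `X` is simple
of any dimension, or if no simple factor of `X` has potentially good reduction at the place.) -/
structure EQ.Cond (D : EQ.Data W W') : Prop where
  bal : ∀ U, EQ.MinStab W D.X D.g U → EQ.Isot W D.X D.g D.ξ U → EQ.Bal W D.X D.g U
  few : ∃ T, EQ.Mono D T ∧ EQ.Few6 W D.X D.g D.ξ T

end defs

/-- **Theorem EMC.** Let `X` be an abelian variety with the property `EQ.Cond`. Then `Q1` holds
for all algebraic classes on all powers of `X`, and numerical equivalence is homological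
equivalence. Here `X'` is a reduction of `X` over the algebraic closure of a finite field or, at a
place of bad reduction, the product of the abelian part of the semistable reduction and of a power
of a supersingular elliptic curve, and `ξ` is the class of an ample divisor, so that `s(ξ)` is the
class of an ample divisor on `X'`. -/
def ThmC : Prop :=
  ∀ {k : Type u} [Field k] (W : CohomologyData.{u, 0, w} k ℂ) (𝒱 : VarietyClass k)
    (_ : IsWeilCohomology W 𝒱) {k' : Type v} [Field k'] (W' : CohomologyData.{v, 0, w'} k' ℂ)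
    (𝒱' : VarietyClass k') (_ : IsWeilCohomology W' 𝒱') (D : EQ.Data W W') (_ : EQ.Hyp 𝒱 𝒱' D)
    (_ : EQ.Moving W' D.X' D.g (D.s (.leaf 0) D.ξ)) (_ : EQ.Cond D)
    (P : Prd 1) (η : W.coh (EQ.pw D.X P)) (_ : IsPol W (fun _ => D.ξ) P η),
    EQ.Q1 W (EQ.pw D.X P) (P.dim fun _ => D.g) η ∧ EQ.NumHom W (EQ.pw D.X P)

end Pool.Agent.Lib.MP_361a6f_ag.FL
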