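import Pool.Agent.Lib.MP_361a6f_ag.FL.EMB.Geo
import Pool.Agent.Lib.MP_361a6f_ag.FL.EMC.NSNC
import Pool.Agent.Lib.MP_361a6f_ag.FL.EMC.NdC
import Pool.Agent.Lib.MP_361a6f_ag.FL.EMC.StatEMC

/-!
# Theorem EMC from Theorem EMC in coordinates
-/

open CategoryTheory AlgebraicGeometry MonoidalCategory CartesianMonoidalCategory

universe u v w w'

set_option autoImplicit false

namespace Pool.Agent.Lib.MP_361a6f_ag.FL.E

open Pool.Agent.Lib.MP_361a6f_ag.H3 Pool.Agent.Lib.MP_361a6f_ag.SQ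
  Pool.Agent.Lib.MP_361a6f_ag.PP Pool.Agent.Lib.MP_361a6f_ag.FL.PT

namespace GeoC

open Pool.Agent.Lib.MP_361a6f_ag.FL.E.Orb Pool.Agent.Lib.MP_361a6f_ag.FL.E.BR

section act

variable {k : Type u} [Field k] {W : CohomologyData.{u, 0, w} k ℂ} {𝒱 : VarietyClass k}
  {H : Host W 𝒱 1} {d : ℕ}

/-- operators of degree `0` on `H^*(X)` which preserve the algebraic classes on `X × X` if they act
on the first factor are given on the letter by members of length `2` -/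
theorem op_mem (ge : H.GeFacts) (at_ : H.AtFacts) {M : Matrix H.I H.I ℂ}
    (hM : ∀ i j, H.D.typ i ≠ H.D.typ j → M i j = 0)
    {φ : W.coh (H.X 0) →ₗ[ℂ] W.coh (H.X 0)} (hφ : ∀ j, φ (H.e 0 j) = ∑ i, M i j • H.e 0 i)
    {Φ : W.coh (H.X 0 ⊗ H.X 0) →ₗ[ℂ] W.coh (H.X 0 ⊗ H.X 0)}
    (hΦ : ∀ x y, Φ (W.pull (fst (H.X 0) (H.X 0)) x * W.pull (snd (H.X 0) (H.X 0)) y) =
      W.pull (fst (H.X 0) (H.X 0)) (φ x) * W.pull (snd (H.X 0) (H.X 0)) y)
    (htot : ∀ z ∈ tot W (H.X 0 ⊗ H.X 0), Φ z ∈ tot W (H.X 0 ⊗ H.X 0)) :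
    ∃ z, atS H.D (lt d) (fun L u => u ∈ H.At L) 2 z ∧
      ∀ v, φ (cls H d v) = cls H d ((opM (subD H.D (lt d)) z).mulVec v) := by
  refine ⟨mt H.D (lt d) M, ?_, fun v => ?_⟩
  · change ext0 H.D (lt d) (mt H.D (lt d) M) ∈ H.At 2
    rw [← sl0_om hM]
    exact sl0_mem ge hφ hΦ htot _ (at_.om (lt d))
  · rw [opM_mt]
    change φ (∑ j, v j • H.e 0 j.1) = ∑ i, (blk M).mulVec v i • H.e 0 i.1
    rw [map_sum]
    have h2 : ∀ j : Sub H.D (lt d), φ (v j • H.e 0 j.1) =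
        ∑ i : Sub H.D (lt d), (M i.1 j.1 * v j) • H.e 0 i.1 := by
      intro j
      rw [map_smul, hφ, Finset.smul_sum,
        ← Finset.sum_filter_add_sum_filter_not Finset.univ (fun i => H.D.typ i = lt d),
        Finset.sum_eq_zero (s := Finset.univ.filter fun i => ¬ H.D.typ i = lt d), add_zero]
      · refine (Finset.sum_bij (fun (i : Sub H.D (lt d)) _ => (i : H.I)) ?_ ?_ ?_ ?_).symm
        · intro i _
          exact Finset.mem_filter.2 ⟨Finset.mem_univ _, i.2⟩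
        · intro i _ i' _ h
          exact Subtype.ext h
        · intro i hi
          exact ⟨⟨i, (Finset.mem_filter.1 hi).2⟩, Finset.mem_univ _, rfl⟩
        · intro i _
          rw [smul_smul, mul_comm]
      · intro i hi
        rw [hM i j.1 fun h => (Finset.mem_filter.1 hi).2 (h.trans j.2), zero_smul, smul_zero]
    rw [Finset.sum_congr rfl fun j _ => h2 j, Finset.sum_comm]
    refine Finset.sum_congr rfl fun i _ => ?_
    rw [← Finset.sum_smul]
    rfl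

/-- algebraic correspondences of codimension `dim X` are given on the letter by members of length
`2` -/
theorem alg_mem (hSta : StaStatement.{w}) (ge : H.GeFacts) (at_ : H.AtFacts)
    {γ : W.coh (H.X 0 ⊗ H.X 0)} (hγ : γ ∈ W.alg (H.X 0 ⊗ H.X 0) (H.n 0)) :
    ∃ z, atS H.D (lt d) (fun L u => u ∈ H.At L) 2 z ∧
      ∀ v, H3.act W γ (cls H d v) = cls H d ((opM (subD H.D (lt d)) z).mulVec v) := by
  obtain ⟨φ, hφ'⟩ := act_lin W γ
  let M : Matrix H.I H.I ℂ := Matrix.of fun i j =>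
    H.tc (.leaf 0) (H3.act W γ (H.e 0 j)) (fun _ => i)
  have hφ : ∀ j, φ (H.e 0 j) = ∑ i, M i j • H.e 0 i := by
    intro j
    rw [hφ']
    have h := ge.expand (.leaf 0) (H3.act W γ (H.e 0 j))
    refine h.trans ?_
    change ∑ w : Fin 1 → H.I, (H.tc (.leaf 0) (H3.act W γ (H.e 0 j)) w) • H.e 0 (w 0) = _
    refine Fintype.sum_equiv (Equiv.funUnique (Fin 1) H.I) _ _ fun w => ?_
    have hw : w = fun _ => w 0 := funext fun i => congrArg w (Subsingleton.elim (α := Fin 1) i 0)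
    conv_lhs => rw [hw]
    rfl
  have hM : ∀ i j, H.D.typ i ≠ H.D.typ j → M i j = 0 := fun i j hij => tc_act hSta hγ hij
  have hop : AlgOp W (H.X 0) φ := ⟨γ, alg_le_tot H.hW _ _ hγ, hφ'⟩
  obtain ⟨z, hz, h⟩ := op_mem (d := d) ge at_ hM hφ
    (Φ := ten H.hW (H.mem 0) (H.mem 0) φ LinearMap.id)
    (fun x y => by rw [ten_gen, LinearMap.id_apply])
    (fun z hz => ten_left_tot H.hW (H.mem 0) (H.mem 0) hop hz)
  exact ⟨z, hz, fun v => by rw [← hφ', h]⟩

end act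

section core

variable {k : Type u} [Field k] {W : CohomologyData.{u, 0, w} k ℂ} {𝒱 : VarietyClass k}
  {X : Sch k} {g : ℕ} {ξ : W.coh X} (c : Hst.Core W X g ξ) (hW : IsWeilCohomology W 𝒱)
  (hX : 𝒱.mem X g) (hξ : ξ ∈ W.alg X 1)

/-- complex combinations of algebraic correspondences are given on `H^1(X)` by matrices in the span
of the endomorphisms -/
theorem span_mem {z : W.coh (X ⊗ X)} (hz : z ∈ Submodule.span ℂ {z | W.IsAlg (X.prod X) g z}) :
    ∃ E ∈ endS (subD c.D (lt 1)) (atS c.D (lt 1) fun L u => u ∈ (c.host hW hX hξ).At L),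
      ∀ v, EQ.act W z (cl1 c hW hX hξ v) = cl1 c hW hX hξ (E.mulVec v) := by
  induction hz using Submodule.span_induction with
  | mem γ hγ =>
    obtain ⟨u, hu, h⟩ := alg_mem (H := c.host hW hX hξ) (d := 1) staB (ge _) (at_ _) hγ
    exact ⟨_, Submodule.subset_span ⟨u, hu, rfl⟩, h⟩
  | zero =>
    refine ⟨0, Submodule.zero_mem _, fun v => ?_⟩
    rw [Matrix.zero_mulVec, map_zero]
    change W.push (snd X X) (W.pull (fst X X) (cl1 c hW hX hξ v) * 0) = 0
    rw [mul_zero, map_zero]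
  | add a b _ _ ha hb =>
    obtain ⟨E, hE, h⟩ := ha
    obtain ⟨E', hE', h'⟩ := hb
    refine ⟨E + E', Submodule.add_mem _ hE hE', fun v => ?_⟩
    rw [Matrix.add_mulVec, map_add, ← h, ← h']
    change W.push (snd X X) (W.pull (fst X X) (cl1 c hW hX hξ v) * (a + b)) =
      W.push (snd X X) (W.pull (fst X X) (cl1 c hW hX hξ v) * a) +
      W.push (snd X X) (W.pull (fst X X) (cl1 c hW hX hξ v) * b)
    rw [mul_add, map_add]
  | smul t a _ ha =>
    obtain ⟨E, hE, h⟩ := ha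
    refine ⟨t • E, Submodule.smul_mem _ t hE, fun v => ?_⟩
    rw [Matrix.smul_mulVec, map_smul, ← h]
    change W.push (snd X X) (W.pull (fst X X) (cl1 c hW hX hξ v) * (t • a)) =
      t • W.push (snd X X) (W.pull (fst X X) (cl1 c hW hX hξ v) * a)
    rw [mul_smul_comm, map_smul]

/-- isotropy in the coordinates of `H^1(X)` -/
theorem isot_iff (hpos : PositiveDivisor W X g ξ) (hg : 0 < g)
    (U : Submodule ℂ (Sub c.D (lt 1) → ℂ)) :
    EQ.Isot W X g ξ (U.map (cl1 c hW hX hξ)) ↔ Isot (Psi (subD c.D (lt 1))) U := by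
  have h2 : ((g - 1).factorial : ℂ)⁻¹ ≠ 0 :=
    inv_ne_zero (Nat.cast_ne_zero.2 (Nat.factorial_ne_zero _))
  have h1 : ∀ v w, dotProduct v ((Psi (subD c.D (lt 1))).mulVec w) =
      ((g - 1).factorial : ℂ)⁻¹ * -W.tr X (ξ ^ (g - 1) *
        (cl1 c hW hX hξ v * cl1 c hW hX hξ w)) := by
    intro v w
    rw [← psi_cl1 c hW hX hξ]
    exact psi_one hW hX hpos c.lam hg (cl1 c hW hX hξ v) (w := cl1 c hW hX hξ w)
      (cls_gr (H := c.host hW hX hξ) w)
  constructor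
  · intro h v hv w hw
    rw [h1]
    have h3 : W.tr X (ξ ^ (g - 1) * (cl1 c hW hX hξ v * cl1 c hW hX hξ w)) = 0 :=
      h _ ⟨v, hv, rfl⟩ _ ⟨w, hw, rfl⟩
    rw [h3, neg_zero, mul_zero]
  · rintro h _ ⟨v, hv, rfl⟩ _ ⟨w, hw, rfl⟩
    have h3 := h v hv w hw
    rw [h1] at h3
    exact neg_eq_zero.1 ((mul_eq_zero.1 h3).resolve_left h2)

end core

section hyp

variable {k : Type u} [Field k] {k' : Type v} [Field k'] {W : CohomologyData.{u, 0, w} k ℂ}
  {𝒱 : VarietyClass k} {W' : CohomologyData.{v, 0, w'} k' ℂ} {𝒱' : VarietyClass k'}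
  (hW : IsWeilCohomology W 𝒱) (hW' : IsWeilCohomology W' 𝒱') {D : EQ.Data W W'}
  (h : EQ.Hyp 𝒱 𝒱' D) (c : Hst.Core W D.X D.g D.ξ)

/-- a minimal stable subspace exists only in positive dimension -/
theorem pos_of {U : Submodule ℂ (Sub c.D (0, 1) → ℂ)}
    (hU : MinStab (subD c.D (0, 1)) (At1 (hst hW h c)) (E.blk '' Ful.symSet hW h c) U) :
    0 < D.g := by
  rcases Nat.eq_zero_or_pos D.g with hg | hg
  · have h1 := GeoM.minStab_of hW h c hU
    refine absurd ?_ h1.ne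
    rw [eq_bot_iff]
    intro x hx
    exact hW.top_gr h.mem (h1.stable.le hx) (by omega)
  · exact hg

/-- the balancing symmetries in the coordinates -/
theorem balM_of (bal : ∀ U, EQ.MinStab W D.X D.g U → EQ.Isot W D.X D.g D.ξ U →
      EQ.Bal W D.X D.g U) :
    BalM (subD c.D (0, 1)) (At1 (hst hW h c)) (E.blk '' Ful.symSet hW h c) := by
  have hΓ := Ful.isMats_symSet hW h c
  intro U hU hiso
  have hinj : Function.Injective (cl1 c hW h.mem h.div.1) :=
    cls_inj (H := hst hW h c) (d := 1) (ge _)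
  have hgr : ∀ v, cl1 c hW h.mem h.div.1 v ∈ W.gr D.X 1 := fun v =>
    cls_gr (H := hst hW h c) v
  obtain ⟨M, hM, ⟨z, hz, hMz⟩, hMM⟩ := bal _ (GeoM.minStab_of hW h c hU)
    ((isot_iff c hW h.mem h.div.1 h.div (pos_of hW h c hU) U).2 hiso)
  obtain ⟨M0, hM0, hTM⟩ := hΓ.sym M hM
  obtain ⟨E, hE, hEz⟩ := span_mem c hW h.mem h.div.1 hz
  have hB : ∀ v, (M (.leaf 0) (cl1 c hW h.mem h.div.1 v) : W.coh D.X) =
      cl1 c hW h.mem h.div.1 ((blk M0).mulVec v) := fun v =>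
    map_cls (H := hst hW h c) (d := 1) (ge _) (hΓ.blk M0 hM0)
      (T := fun z : W.coh D.X => (M (.leaf 0) z : W.coh D.X)) hTM v
  have hBE : (blk M0 : Matrix (Sub c.D (0, 1)) (Sub c.D (0, 1)) ℂ) = E := by
    refine Matrix.mulVec_injective (funext fun v => hinj ?_)
    exact (hB v).symm.trans ((hMz _ (hgr v)).trans (hEz v))
  have hsub := sub1_cl1 c hW h.mem h.div.1 (hΓ.blk M0 hM0) hTM
  refine ⟨blk M0, ?_, grp1 hW h c hΓ _ ⟨M0, hM0, rfl⟩, gfix1 hW h c hΓ _ ⟨M0, hM0, rfl⟩, ?_, ?_⟩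
  · rw [hBE]
    exact hE
  · have h3 : (2 : ℂ) • ((blk M0 - 1) * (blk M0 - 1) * (blk M0 - 1) :
        Matrix (Sub c.D (0, 1)) (Sub c.D (0, 1)) ℂ) =
        (blk M0 - 1) * (blk M0 - 1) + (blk M0 - 1) := by
      refine Matrix.mulVec_injective (funext fun v => hinj ?_)
      have h1 := (hMM _ (hgr v)).1
      rw [hsub, hsub, hsub, ← map_add] at h1
      rw [Matrix.smul_mulVec, map_smul, Matrix.add_mulVec, ← Matrix.mulVec_mulVec,
        ← Matrix.mulVec_mulVec, ← Matrix.mulVec_mulVec]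
      exact h1
    have h4 : (blk M0 - 1) * (blk M0 - 2) * (2 * blk M0 - 1) =
        (2 : ℂ) • ((blk M0 - 1) * (blk M0 - 1) * (blk M0 - 1) :
          Matrix (Sub c.D (0, 1)) (Sub c.D (0, 1)) ℂ) -
        ((blk M0 - 1) * (blk M0 - 1) + (blk M0 - 1)) := by
      rw [two_smul]
      noncomm_ring
    rw [h4, h3, sub_self]
  · intro v
    have h1 : v ∈ U ↔ cl1 c hW h.mem h.div.1 v ∈ U.map (GeoM.cl hW h c) := by
      constructor
      · intro hv
        exact ⟨v, hv, rfl⟩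
      · rintro ⟨w, hw, e⟩
        rwa [← hinj e]
    have h2 : (blk M0 - 1 : Matrix (Sub c.D (0, 1)) (Sub c.D (0, 1)) ℂ).mulVec v = v ↔
        (blk M0 : Matrix (Sub c.D (0, 1)) (Sub c.D (0, 1)) ℂ).mulVec v = (2 : ℂ) • v := by
      rw [Matrix.sub_mulVec, Matrix.one_mulVec, sub_eq_iff_eq_add, two_smul]
    rw [h1, (hMM _ (hgr v)).2, hsub, ← h2]
    exact ⟨fun e => hinj e, fun e => by rw [e]⟩

include hW' in
/-- positivity -/
theorem pos1_C (thmC : ThmCStatement)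
    (four : ∀ u : Ten (Sub c.D (0, 1)) 4,
      u ∈ Submodule.span ℝ {u | At1 (hstY hW hW' h c) 4 u} →
        ∃ r : ℝ, 0 ≤ r ∧ psiT (subD c.D (0, 1)) u u = (r : ℂ)) (few : EQ.Cond D) :
    EndE.Pos1 (hst hW h c) := by
  have hΓ := Ful.isMats_symSet hW h c
  have grp := grp1 hW h c hΓ
  have gfix := gfix1 hW h c hΓ
  have hbal := balM_of hW h c few.bal
  have S := nsys_hyp hW hW' h c _ grp gfix (ndC _ _ _ (sys1 hW h c) (odd1 hW h c)
    (fun i j => i.2.trans j.2.symm) grp gfix hbal)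
  -- the monodromy
  obtain ⟨T, ⟨hT, hT2, hTF⟩, hTU⟩ := few.few
  obtain ⟨M, hMΓ, hTM⟩ := hΓ.sym T hT
  have hbM := hΓ.blk M hMΓ
  have hsub := sub1_cl1 c hW h.mem h.div.1 hbM hTM
  have hinj : Function.Injective (cl1 c hW h.mem h.div.1) :=
    cls_inj (H := hst hW h c) (d := 1) (ge _)
  have hgr : ∀ v, cl1 c hW h.mem h.div.1 v ∈ W.gr D.X 1 := fun v =>
    cls_gr (H := hst hW h c) v
  have hN : (1 : Matrix (Sub c.D (0, 1)) (Sub c.D (0, 1)) ℂ) + (blk M - 1) = blk M := by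
    abel
  have n2 : (blk M - 1 : Matrix (Sub c.D (0, 1)) (Sub c.D (0, 1)) ℂ) * (blk M - 1) = 0 := by
    refine Matrix.mulVec_injective (funext fun v => ?_)
    have h2 := hT2 _ (hgr v)
    rw [hsub, hsub] at h2
    rw [← Matrix.mulVec_mulVec, Matrix.zero_mulVec]
    exact hinj (h2.trans (map_zero _).symm)
  have hNF : ∀ F' : Matrix (Sub c.D (0, 1)) (Sub c.D (0, 1)) ℂ,
      F' = FM (hst hW h c) (spcOf h.spec D.ξ) hW' h.mem' D.F D.q →
      F' * (blk M - 1) = blk M - 1 := by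
    intro F' hF'
    refine Matrix.mulVec_injective (funext fun v => ?_)
    have h2 := hTF _ (hgr v)
    rw [hsub] at h2
    have h3 := pull_vec1 hW hW' h c ((blk M - 1).mulVec v)
    have h4 : sq D.q • D.s (.leaf 0) (cl1 c hW h.mem h.div.1
        ((FM (hst hW h c) (spcOf h.spec D.ξ) hW' h.mem' D.F D.q).mulVec
          ((blk M - 1).mulVec v))) =
        sq D.q • D.s (.leaf 0) (cl1 c hW h.mem h.div.1 ((blk M - 1).mulVec v)) :=
      h3.symm.trans h2
    have h5 := smul_right_injective _ (sq_ne h.pos) h4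
    have h6 := hinj (h.spec.bij.1 h5)
    rw [← Matrix.mulVec_mulVec, hF']
    exact h6
  have h6 : Few6N (blk M - 1 : Matrix (Sub c.D (0, 1)) (Sub c.D (0, 1)) ℂ)
      (fun U => MinStab (subD c.D (0, 1)) (At1 (hst hW h c)) (E.blk '' Ful.symSet hW h c) U ∧
        ¬ Isot (Psi (subD c.D (0, 1))) U) := by
    intro U hU hi hk
    have h7 := hTU (fun i => (U i).map (GeoM.cl hW h c))
      (fun i => ⟨GeoM.minStab_of hW h c (hU i).1, fun h0 => (hU i).2
        ((isot_iff c hW h.mem h.div.1 h.div (pos_of hW h c (hU i).1) (U i)).1 h0)⟩)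
      (indep_map (GeoM.cl_inj hW h c) hi) (by
        obtain ⟨i, hk⟩ := hk
        refine ⟨i, fun j hj => ?_⟩
        rintro _ ⟨v, hv, rfl⟩
        exact (hsub v).trans (by rw [hk j hj v hv, map_zero]))
    have h2 : ∀ V : Submodule ℂ (Sub c.D (0, 1) → ℂ),
        Module.finrank ℂ (V.map (GeoM.cl hW h c)) = Module.finrank ℂ V := fun V =>
      (LinearEquiv.finrank_eq
        (Submodule.equivMapOfInjective (GeoM.cl hW h c) (GeoM.cl_inj hW h c) V)).symm
    simp only [h2] at h7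
    exact h7
  exact EndE.pos1_of _ fun L u hu h0 =>
    ofEMC mainY alg1 alg2 thmC S four (Ful.full_symSet hW h c) hbal
      (blk M - 1) n2 (by rw [hN]; exact grp _ ⟨M, hMΓ, rfl⟩)
      (by rw [hN]; exact gfix _ ⟨M, hMΓ, rfl⟩) (hNF _ rfl) h6 L u (Submodule.subset_span hu) h0

end hyp

end GeoC

/-- **Theorem EMC** from Theorem EMC in coordinates. -/
theorem thmC_of (thmC : ThmCStatement) : ThmC.{u, v, w, w'} := by
  intro k _ W 𝒱 hW k' _ W' 𝒱' hW' D h hM few P η hη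
  obtain ⟨c⟩ := Hst.exists_core_hyp hW h
  exact of_pos1 hW h c (GeoC.pos1_C hW hW' h c thmC (four_hyp hW hW' h hM c) few) P η hη

end Pool.Agent.Lib.MP_361a6f_ag.FL.E
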