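import Pool.Agent.Lib.MP_361a6f_ag.FL.E.BR.Iso

/-!
# Theorem EMBC: the centre of the centraliser kills the toric part of the self-dual classes

As the first part of `FL/E/BR/Iso.lean`, with a projector `p` that commutes with `S` and kills all
isotropic stable subspaces.
-/

open Matrix
open scoped ComplexOrder

namespace Pool.Agent.Lib.MP_361a6f_ag.FL.E.BR.IsoC

open Iso

variable {I : Type} [Fintype I] [DecidableEq I]

/-- The hermitian case. -/
theorem herm (h3 : R3Statement) (S : Submodule ℂ (Matrix I I ℂ))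
    (E : Set (Matrix I I ℂ)) (P : Matrix I I ℂ) (hL : LieStar S)
    (hE : ∀ e ∈ E, ∀ A ∈ S, e * A = A * e) (hP : ∀ A ∈ S, Aᵀ * P + P * A = 0)
    (A0 : Matrix I I ℂ) (hA0 : A0 ∈ S) (hA0h : A0ᴴ = A0)
    (p : Matrix I I ℂ) (hp : pᴴ = p) (hpp : p * p = p) (hpS : ∀ A ∈ S, p * A = A * p)
    (iso : ∀ U : Submodule ℂ (I → ℂ), (∀ A ∈ S, ∀ v ∈ U, A *ᵥ v ∈ U) →
      (∀ e ∈ E, ∀ v ∈ U, e *ᵥ v ∈ U) →
      (∀ v ∈ U, ∀ w ∈ U, v ⬝ᵥ (P *ᵥ w) = 0) → ∀ v ∈ U, p *ᵥ v = 0)
    (N : Matrix I I ℂ) (hN : N ∈ S) (hNN : N * N = 0) (hAN : A0 * N = 0) (hNA : N * A0 = 0)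
    (y : Matrix I I ℂ) (hy : y ∈ zen S A0) (hyh : yᴴ = y) : y * N * p = 0 := by
  obtain ⟨R, hR1, hR2, hR3, hR4, hR5, hR6, hR7⟩ := Gra.pen S hL N hN hNN
  have hNh : Nᴴ ∈ S := hL.star _ hN
  have hANh : A0 * Nᴴ = 0 := by
    have h := congrArg conjTranspose hNA
    rwa [conjTranspose_mul, hA0h, conjTranspose_zero] at h
  have hNhA : Nᴴ * A0 = 0 := by
    have h := congrArg conjTranspose hAN
    rwa [conjTranspose_mul, hA0h, conjTranspose_zero] at h
  have hyN : y * N = N * y := hy.2.2 N hN (by rw [hNA, hAN])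
  have hyNh : y * Nᴴ = Nᴴ * y := hy.2.2 _ hNh (by rw [hNhA, hANh])
  have hyR := hR7 y hyN hyNh
  have hAP : A0 * (N * R) = 0 := by rw [← mul_assoc, hAN, zero_mul]
  have hAQ : A0 * (R * N) = 0 := by
    rw [← hR5, conjTranspose_mul, ← mul_assoc, hANh, zero_mul]
  have hPP : N * R * (N * R) = N * R := by rw [← mul_assoc, hR1]
  have hQQ : R * N * (R * N) = R * N := by rw [← mul_assoc, hR2]
  have hPQ : N * R * (R * N) = 0 := by
    rw [mul_assoc, ← mul_assoc R, hR3, zero_mul, mul_zero]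
  have hQP : R * N * (N * R) = 0 := by
    rw [mul_assoc, ← mul_assoc N, hNN, zero_mul, mul_zero]
  have top := h3 S hL A0 (N * R) (R * N) hA0 hA0h hR4 hR5 hPP hQQ hPQ hQP hR6 hAP hAQ y hy
  have hyP : y * (N * R) = N * R * y := by
    rw [← mul_assoc, hyN, mul_assoc, hyR, mul_assoc]
  have hpN : p * N = N * p := hpS N hN
  have hpR : p * R = R * p := hR7 p hpN (hpS _ hNh)
  have hpy : p * y = y * p := hpS y hy.1
  have hpNR : p * (N * R) = N * R * p := by
    rw [← mul_assoc, hpN, mul_assoc, hpR, mul_assoc]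
  by_contra hne
  have hM : y * (N * R) * p ≠ 0 := by
    intro h0
    refine hne ?_
    calc y * N * p = y * (N * R * N) * p := by rw [hR1]
      _ = y * (N * R) * (N * p) := by simp only [mul_assoc]
      _ = y * (N * R) * p * N := by rw [← hpN, ← mul_assoc]
      _ = 0 := by rw [h0, zero_mul]
  have hMh : (y * (N * R) * p).IsHermitian := by
    show (y * (N * R) * p)ᴴ = y * (N * R) * p
    rw [conjTranspose_mul, conjTranspose_mul, hR4, hyh, hp, ← hyP]
    calc p * (y * (N * R)) = p * y * (N * R) := (mul_assoc _ _ _).symm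
      _ = y * (p * (N * R)) := by rw [hpy, mul_assoc]
      _ = y * (N * R) * p := by rw [hpNR, ← mul_assoc]
  obtain ⟨v, t, ht, hv, hMv⟩ := hMh.exists_eigenvector_of_ne_zero hM
  have hMv' : (y * (N * R) * p) *ᵥ v = (t : ℂ) • v := by
    rw [hMv]; rfl
  have ht' : (t : ℂ) ≠ 0 := by exact_mod_cast ht
  have hpv : p *ᵥ v = v := by
    have h1 : p *ᵥ ((t : ℂ) • v) = (t : ℂ) • v := by
      have h2 : p * (y * (N * R) * p) = y * (N * R) * p := by
        calc p * (y * (N * R) * p) = p * y * (N * R) * p := by simp only [mul_assoc]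
          _ = y * (p * (N * R)) * p := by rw [hpy, mul_assoc y]
          _ = y * (N * R) * (p * p) := by rw [hpNR]; simp only [mul_assoc]
          _ = y * (N * R) * p := by rw [hpp]
      rw [← hMv', mulVec_mulVec, h2]
    rw [mulVec_smul] at h1
    exact smul_right_injective _ ht' h1
  have hMv'' : (y * (N * R)) *ᵥ v = (t : ℂ) • v := by
    have h1 : (y * (N * R) * p) *ᵥ v = (y * (N * R)) *ᵥ v := by
      rw [← mulVec_mulVec, hpv]
    rw [← h1]
    exact hMv'
  -- `v` is in the image of `N R` and an eigenvector of `y`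
  have hPv : (N * R) *ᵥ v = v := by
    have h1 : (N * R) *ᵥ ((t : ℂ) • v) = (t : ℂ) • v := by
      rw [← hMv'', mulVec_mulVec, ← mul_assoc, ← hyP, mul_assoc, hPP]
    rw [mulVec_smul] at h1
    exact smul_right_injective _ ht' h1
  have hyv : y *ᵥ v = (t : ℂ) • v := by
    rw [← hMv'', ← mulVec_mulVec, hPv]
  -- the eigenspace
  obtain ⟨W, hW⟩ : ∃ W : Submodule ℂ (I → ℂ), ∀ x, x ∈ W ↔
      (N * R) *ᵥ x = x ∧ y *ᵥ x = (t : ℂ) • x := by
    refine ⟨{ carrier := {x | (N * R) *ᵥ x = x ∧ y *ᵥ x = (t : ℂ) • x}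
              add_mem' := ?_, zero_mem' := ?_, smul_mem' := ?_ }, fun x => Iff.rfl⟩
    · rintro a b ⟨h1, h2⟩ ⟨h3, h4⟩
      exact ⟨by rw [mulVec_add, h1, h3], by rw [mulVec_add, h2, h4, smul_add]⟩
    · exact ⟨by rw [mulVec_zero], by rw [mulVec_zero, smul_zero]⟩
    · rintro c a ⟨h1, h2⟩
      exact ⟨by rw [mulVec_smul, h1], by rw [mulVec_smul, h2, smul_comm]⟩
  obtain ⟨U, hU⟩ : ∃ U : Submodule ℂ (I → ℂ), U = Submodule.span ℂ {x | ∃ l : List (Matrix I I ℂ),
    (∀ A ∈ l, A ∈ S) ∧ ∃ w ∈ W, x = l.prod *ᵥ w} := ⟨_, rfl⟩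
  have hUS : ∀ A ∈ S, ∀ x ∈ U, A *ᵥ x ∈ U := by
    intro A hA x hx
    rw [hU] at hx ⊢
    induction hx using Submodule.span_induction with
    | mem x hx =>
      obtain ⟨l, hl, w, hw, rfl⟩ := hx
      refine Submodule.subset_span ⟨A :: l, ?_, w, hw, ?_⟩
      · intro B hB
        rcases List.mem_cons.1 hB with rfl | hB
        · exact hA
        · exact hl B hB
      · rw [List.prod_cons, mulVec_mulVec]
    | zero => rw [mulVec_zero]; exact zero_mem _
    | add a b _ _ ha hb => rw [mulVec_add]; exact add_mem ha hb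
    | smul c a _ ha => rw [mulVec_smul]; exact Submodule.smul_mem _ _ ha
  have hcomm : ∀ e : Matrix I I ℂ, (∀ A ∈ S, e * A = A * e) → ∀ l : List (Matrix I I ℂ),
      (∀ A ∈ l, A ∈ S) → e * l.prod = l.prod * e := by
    intro e he l
    induction l with
    | nil => intro _; rw [List.prod_nil, mul_one, one_mul]
    | cons A l ih =>
      intro hl
      rw [List.prod_cons, ← mul_assoc, he A (hl A List.mem_cons_self), mul_assoc,
        ih fun B hB => hl B (List.mem_cons_of_mem _ hB), mul_assoc]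
  have hUE : ∀ e ∈ E, ∀ x ∈ U, e *ᵥ x ∈ U := by
    intro e he x hx
    have heR : e * R = R * e := hR7 e (hE e he N hN) (hE e he _ hNh)
    rw [hU] at hx ⊢
    induction hx using Submodule.span_induction with
    | mem x hx =>
      obtain ⟨l, hl, w, hw, rfl⟩ := hx
      refine Submodule.subset_span ⟨l, hl, e *ᵥ w, (hW _).2 ?_, ?_⟩
      · obtain ⟨h1, h2⟩ := (hW _).1 hw
        constructor
        · have h4 : N * R * e = e * (N * R) := by
            rw [mul_assoc, ← heR, ← mul_assoc, ← hE e he N hN, mul_assoc]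
          rw [mulVec_mulVec, h4, ← mulVec_mulVec, h1]
        · rw [mulVec_mulVec, ← hE e he y hy.1, ← mulVec_mulVec, h2, mulVec_smul]
      · rw [mulVec_mulVec, hcomm e (hE e he) l hl, mulVec_mulVec]
    | zero => rw [mulVec_zero]; exact zero_mem _
    | add a b _ _ ha hb => rw [mulVec_add]; exact add_mem ha hb
    | smul c a _ ha => rw [mulVec_smul]; exact Submodule.smul_mem _ _ ha
  -- the top level lemma
  have hUW : ∀ x ∈ U, (N * R) *ᵥ x ∈ W := by
    intro x hx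
    rw [hU] at hx
    induction hx using Submodule.span_induction with
    | mem x hx =>
      obtain ⟨l, hl, w, hw, rfl⟩ := hx
      obtain ⟨h1, h2⟩ := (hW _).1 hw
      have h4 : (N * R) *ᵥ (l.prod *ᵥ w) = (N * R * l.prod * (N * R)) *ᵥ w := by
        conv_lhs => rw [← h1]
        simp only [mulVec_mulVec, mul_assoc]
      refine (hW _).2 ⟨?_, ?_⟩
      · rw [mulVec_mulVec, hPP]
      · rw [h4, mulVec_mulVec, ← top l hl, ← mulVec_mulVec, h2, mulVec_smul]
    | zero => rw [mulVec_zero]; exact zero_mem _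
    | add a b _ _ ha hb => rw [mulVec_add]; exact add_mem ha hb
    | smul c a _ ha => rw [mulVec_smul]; exact Submodule.smul_mem _ _ ha
  have hbase : ∀ w ∈ W, ∀ u ∈ U, w ⬝ᵥ (P *ᵥ u) = 0 := by
    intro w hw u hu
    obtain ⟨h1, h2⟩ := (hW _).1 hw
    have hw1 : w = N *ᵥ (R *ᵥ w) := by rw [mulVec_mulVec, h1]
    have hNu : N *ᵥ u ∈ W := by
      have h4 := hUW _ (hUS N hN u hu)
      rwa [mulVec_mulVec, hR1] at h4
    have hyw : y *ᵥ (R *ᵥ w) = (t : ℂ) • (R *ᵥ w) := by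
      rw [mulVec_mulVec, hyR, ← mulVec_mulVec, h2, mulVec_smul]
    have h5 := skew (hP y hy.1) (R *ᵥ w) (N *ᵥ u)
    rw [hyw, ((hW _).1 hNu).2, smul_dotProduct, mulVec_smul, dotProduct_smul, smul_eq_mul] at h5
    have h6 : (R *ᵥ w) ⬝ᵥ (P *ᵥ (N *ᵥ u)) = 0 := by
      have h7 : (2 * (t : ℂ)) * ((R *ᵥ w) ⬝ᵥ (P *ᵥ (N *ᵥ u))) = 0 := by linear_combination h5
      exact (mul_eq_zero.1 h7).resolve_left (mul_ne_zero two_ne_zero ht')
    rw [hw1, skew (hP N hN), h6, neg_zero]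
  have hiso : ∀ x ∈ U, ∀ u ∈ U, x ⬝ᵥ (P *ᵥ u) = 0 := by
    intro x hx
    rw [hU] at hx
    induction hx using Submodule.span_induction with
    | mem x hx =>
      obtain ⟨l, hl, w, hw, rfl⟩ := hx
      induction l with
      | nil =>
        intro u hu
        rw [List.prod_nil, one_mulVec]
        exact hbase w hw u hu
      | cons A l ih =>
        intro u hu
        rw [List.prod_cons, ← mulVec_mulVec, skew (hP A (hl A List.mem_cons_self)),
          ih (fun B hB => hl B (List.mem_cons_of_mem _ hB)) _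
            (hUS A (hl A List.mem_cons_self) u hu), neg_zero]
    | zero => intro u _; rw [zero_dotProduct]
    | add a b _ _ ha hb => intro u hu; rw [add_dotProduct, ha u hu, hb u hu, add_zero]
    | smul c a _ ha => intro u hu; rw [smul_dotProduct, ha u hu, smul_zero]
  have hU0 := iso U hUS hUE hiso
  have hvU : v ∈ U := by
    rw [hU]
    refine Submodule.subset_span ⟨[], by simp, v, (hW _).2 ⟨hPv, hyv⟩, ?_⟩
    rw [List.prod_nil, one_mulVec]
  exact hv (hpv.symm.trans (hU0 v hvU))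

/-- `zen` acts by `0` on the image of `N p`. -/
theorem zero (h3 : R3Statement) (S : Submodule ℂ (Matrix I I ℂ))
    (E : Set (Matrix I I ℂ)) (P : Matrix I I ℂ) (hL : LieStar S)
    (hE : ∀ e ∈ E, ∀ A ∈ S, e * A = A * e) (hP : ∀ A ∈ S, Aᵀ * P + P * A = 0) (hPu : IsUnit P)
    (A0 : Matrix I I ℂ) (hA0 : A0 ∈ S) (hA0h : A0ᴴ = A0)
    (p : Matrix I I ℂ) (hp : pᴴ = p) (hpp : p * p = p) (hpS : ∀ A ∈ S, p * A = A * p)
    (iso : ∀ U : Submodule ℂ (I → ℂ), (∀ A ∈ S, ∀ v ∈ U, A *ᵥ v ∈ U) →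
      (∀ e ∈ E, ∀ v ∈ U, e *ᵥ v ∈ U) →
      (∀ v ∈ U, ∀ w ∈ U, v ⬝ᵥ (P *ᵥ w) = 0) → ∀ v ∈ U, p *ᵥ v = 0)
    (N : Matrix I I ℂ) (hN : N ∈ S) (hNN : N * N = 0) (hAN : A0 * N = 0) :
    ∀ y ∈ zen S A0, y * N * p = 0 := by
  have hNA : N * A0 = 0 := by
    have h1 : P * (N * A0) = 0 := by
      have e1 : P * N = -(Nᵀ * P) := eq_neg_of_add_eq_zero_right (hP N hN)
      have e2 : P * A0 = -(A0ᵀ * P) := eq_neg_of_add_eq_zero_right (hP A0 hA0)
      have e3 : Nᵀ * A0ᵀ = 0 := by rw [← transpose_mul, hAN, transpose_zero]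
      rw [← mul_assoc, e1, neg_mul, mul_assoc, e2, mul_neg, neg_neg, ← mul_assoc, e3, zero_mul]
    exact (hPu.mul_right_eq_zero).1 h1
  intro y hy
  have h1 := herm h3 S E P hL hE hP A0 hA0 hA0h p hp hpp hpS iso N hN hNN hAN hNA (y + yᴴ)
    (zen_add hy (zen_star hL hA0h hy)) (by
      rw [conjTranspose_add, conjTranspose_conjTranspose, add_comm])
  have h2 := herm h3 S E P hL hE hP A0 hA0 hA0h p hp hpp hpS iso N hN hNN hAN hNA
    (Complex.I • (y + (-1 : ℂ) • yᴴ))
    (zen_smul _ (zen_add hy (zen_smul _ (zen_star hL hA0h hy)))) (by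
      rw [conjTranspose_smul, conjTranspose_add, conjTranspose_smul,
        conjTranspose_conjTranspose]
      simp only [star_neg, star_one, Complex.star_def, Complex.conj_I]
      module)
  rw [smul_mul_assoc, smul_mul_assoc] at h2
  have h4 := (smul_eq_zero.1 h2).resolve_left Complex.I_ne_zero
  rw [add_mul, add_mul, smul_mul_assoc, smul_mul_assoc] at h4
  rw [add_mul, add_mul] at h1
  have h5 : (2 : ℂ) • (y * N * p) = 0 := by
    calc (2 : ℂ) • (y * N * p)
        = (y * N * p + yᴴ * N * p) + (y * N * p + (-1 : ℂ) • (yᴴ * N * p)) := by module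
      _ = 0 := by rw [h1, h4, add_zero]
  exact (smul_eq_zero.1 h5).resolve_left two_ne_zero

end Pool.Agent.Lib.MP_361a6f_ag.FL.E.BR.IsoC
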