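import Pool.Agent.Lib.MP_361a6f_ag.FL.E.RotA
import Pool.Agent.Lib.MP_361a6f_ag.FL.Alg1

/-!
# The logarithm of an element with the eigenvalues `1`, `2`, `1/2`

If `M` fixes a tensor and `(M - 1)(M - 2)(2 M - 1) = 0` then `z = p₁ - p₋₁` kills the tensor, where
`p₁`, `p₋₁` are the projections to the eigenspaces of `2` and `1/2`.
-/

set_option autoImplicit false
set_option linter.unusedSectionVars false

namespace Pool.Agent.Lib.MP_361a6f_ag.FL.E.Mlog

open Rot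

variable {I : Type} [Fintype I] [DecidableEq I]

/-- the action of a sum of matrices -/
theorem gT_sum {C : Type} [Fintype C] [DecidableEq C] (N : C → Matrix I I ℂ) {L : ℕ}
    (u : Ten I L) : gT (∑ c, N c) u = ∑ c : Fin L → C, slT (fun i => N (c i)) u := by
  funext w
  rw [Finset.sum_apply]
  unfold gT slT
  rw [Finset.sum_comm]
  refine Finset.sum_congr rfl fun w' _ => ?_
  rw [← Finset.sum_mul]
  congr 1
  simp only [Matrix.sum_apply]
  rw [Finset.prod_univ_sum, Fintype.piFinset_univ]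

/-- the derivation on a tensor of pure type -/
theorem aT_slT {C : Type} (N : C → Matrix I I ℂ) (z : Matrix I I ℂ) (e : C → ℂ)
    (hz : ∀ c, z * N c = e c • N c) {L : ℕ} (c : Fin L → C) (u : Ten I L) :
    aT z (slT (fun i => N (c i)) u) = (∑ i, e (c i)) • slT (fun i => N (c i)) u := by
  classical
  funext w
  rw [Pi.smul_apply, smul_eq_mul, Finset.sum_mul]
  unfold aT
  refine Finset.sum_congr rfl fun r _ => ?_
  show ∑ k, z (w r) k * ∑ w', (∏ i, N (c i) (Function.update w r k i) (w' i)) * u w' =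
    e (c r) * ∑ w', (∏ i, N (c i) (w i) (w' i)) * u w'
  simp only [Finset.mul_sum]
  rw [Finset.sum_comm]
  refine Finset.sum_congr rfl fun w' _ => ?_
  have h1 : ∀ k, ∏ i, N (c i) (Function.update w r k i) (w' i) =
      N (c r) k (w' r) * ∏ i ∈ Finset.univ.erase r, N (c i) (w i) (w' i) := by
    intro k
    rw [← Finset.mul_prod_erase Finset.univ _ (Finset.mem_univ r), Function.update_self]
    congr 1
    refine Finset.prod_congr rfl fun i hi => ?_
    rw [Function.update_of_ne (Finset.ne_of_mem_erase hi)]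
  have h2 : ∏ i, N (c i) (w i) (w' i) =
      N (c r) (w r) (w' r) * ∏ i ∈ Finset.univ.erase r, N (c i) (w i) (w' i) :=
    (Finset.mul_prod_erase Finset.univ _ (Finset.mem_univ r)).symm
  have h3 : ∑ k, z (w r) k * N (c r) k (w' r) = e (c r) * N (c r) (w r) (w' r) := by
    have h4 := congrFun (congrFun (hz (c r)) (w r)) (w' r)
    rwa [Matrix.mul_apply] at h4
  simp only [h1]
  rw [h2]
  calc ∑ k, z (w r) k * (N (c r) k (w' r) *
        (∏ i ∈ Finset.univ.erase r, N (c i) (w i) (w' i)) * u w')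
      = (∑ k, z (w r) k * N (c r) k (w' r)) *
        ((∏ i ∈ Finset.univ.erase r, N (c i) (w i) (w' i)) * u w') := by
        rw [Finset.sum_mul]
        refine Finset.sum_congr rfl fun k _ => by ring
    _ = _ := by
        rw [h3]
        ring

/-- **An operator whose eigenvalues satisfy the additive relation kills the tensors fixed by an
operator with the multiplicative relation.** -/
theorem kill {C : Type} [Fintype C] [DecidableEq C] (p : C → Matrix I I ℂ) (M z : Matrix I I ℂ)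
    (m e : C → ℂ) (hp : ∑ c, p c = 1) (hM : ∀ c, p c * M = m c • p c)
    (hz : ∀ c, z * p c = e c • p c)
    (hme : ∀ (L : ℕ) (c : Fin L → C), ∏ i, m (c i) = 1 → ∑ i, e (c i) = 0) {L : ℕ}
    {u : Ten I L} (hu : gT M u = u) : aT z u = 0 := by
  have h1 : u = ∑ c : Fin L → C, slT (fun i => p (c i)) u := by
    rw [← gT_sum, hp]
    exact (alg1.gT_one u).symm
  have h2 : ∀ c : Fin L → C, (∑ i, e (c i)) • slT (fun i => p (c i)) u = 0 := by
    intro c
    have h3 : slT (fun i => p (c i)) u = (∏ i, m (c i)) • slT (fun i => p (c i)) u := by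
      conv_lhs => rw [← hu, ← slT_const, slT_slT]
      rw [← slT_scal]
      congr 1
      funext i
      exact hM (c i)
    by_cases h : ∏ i, m (c i) = 1
    · rw [hme L c h, zero_smul]
    · have h4 : ((∏ i, m (c i)) - 1) • slT (fun i => p (c i)) u = 0 := by
        rw [sub_smul, one_smul, ← h3, sub_self]
      rw [(smul_eq_zero.1 h4).resolve_left (sub_ne_zero.2 h), smul_zero]
  have h5 : aT z u = ∑ c : Fin L → C, aT z (slT (fun i => p (c i)) u) := by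
    let f : Ten I L →ₗ[ℂ] Ten I L :=
      { toFun := aT z
        map_add' := fun a b => alg1.aT_add z a b
        map_smul' := fun c a => alg1.aT_smul z c a }
    have h6 : f u = ∑ c : Fin L → C, f (slT (fun i => p (c i)) u) := by
      rw [← map_sum, ← h1]
    exact h6
  rw [h5]
  refine Finset.sum_eq_zero fun c _ => ?_
  rw [aT_slT p z e hz, h2]

/-! ### The eigenvalues `1`, `2`, `1/2` -/

/-- the projections to the eigenspaces of `1`, `2`, `1/2` -/
noncomputable def pr (M : Matrix I I ℂ) : Fin 3 → Matrix I I ℂ :=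
  ![(-2 : ℂ) • (M * M) + (5 : ℂ) • M + (-2 : ℂ) • (1 : Matrix I I ℂ),
    (2 / 3 : ℂ) • (M * M) + (-1 : ℂ) • M + (1 / 3 : ℂ) • (1 : Matrix I I ℂ),
    (4 / 3 : ℂ) • (M * M) + (-4 : ℂ) • M + (8 / 3 : ℂ) • (1 : Matrix I I ℂ)]

/-- the logarithm to the base two -/
noncomputable def lg (M : Matrix I I ℂ) : Matrix I I ℂ :=
  (-2 / 3 : ℂ) • (M * M) + (3 : ℂ) • M + (-7 / 3 : ℂ) • (1 : Matrix I I ℂ)

/-- the cubic equation -/
def Cub (M : Matrix I I ℂ) : Prop :=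
  M * M * M = (7 / 2 : ℂ) • (M * M) + (-7 / 2 : ℂ) • M + (1 : Matrix I I ℂ)

theorem cub_of {M : Matrix I I ℂ} (h : (M - 1) * (M - 2) * (2 * M - 1) = 0) : Cub M := by
  have h2 : (2 : Matrix I I ℂ) = (2 : ℂ) • (1 : Matrix I I ℂ) := by
    rw [two_smul, one_add_one_eq_two]
  have h4 : (M - 1) * (M - 2) * (2 * M - 1) = (2 : ℂ) • (M * M * M) + (-7 : ℂ) • (M * M) +
      (7 : ℂ) • M + (-2 : ℂ) • (1 : Matrix I I ℂ) := by
    rw [h2]
    simp only [sub_mul, mul_sub, one_mul, mul_one, smul_mul_assoc, mul_smul_comm, smul_sub]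
    module
  rw [h] at h4
  unfold Cub
  have h3 : M * M * M - ((7 / 2 : ℂ) • (M * M) + (-7 / 2 : ℂ) • M + (1 : Matrix I I ℂ)) =
      (1 / 2 : ℂ) • ((2 : ℂ) • (M * M * M) + (-7 : ℂ) • (M * M) +
      (7 : ℂ) • M + (-2 : ℂ) • (1 : Matrix I I ℂ)) := by
    module
  rw [← h4, smul_zero] at h3
  exact sub_eq_zero.1 h3

theorem pr_sum (M : Matrix I I ℂ) : ∑ c, pr M c = 1 := by
  rw [Fin.sum_univ_three]
  show ((-2 : ℂ) • (M * M) + (5 : ℂ) • M + (-2 : ℂ) • (1 : Matrix I I ℂ)) +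
    ((2 / 3 : ℂ) • (M * M) + (-1 : ℂ) • M + (1 / 3 : ℂ) • (1 : Matrix I I ℂ)) +
    ((4 / 3 : ℂ) • (M * M) + (-4 : ℂ) • M + (8 / 3 : ℂ) • (1 : Matrix I I ℂ)) = 1
  module

theorem pr_M {M : Matrix I I ℂ} (h : Cub M) (c : Fin 3) :
    pr M c * M = (![1, 2, 1 / 2] : Fin 3 → ℂ) c • pr M c := by
  unfold Cub at h
  fin_cases c
  · show ((-2 : ℂ) • (M * M) + (5 : ℂ) • M + (-2 : ℂ) • (1 : Matrix I I ℂ)) * M =
      (1 : ℂ) • ((-2 : ℂ) • (M * M) + (5 : ℂ) • M + (-2 : ℂ) • (1 : Matrix I I ℂ))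
    simp only [add_mul, smul_mul_assoc, one_mul]
    rw [h]
    module
  · show ((2 / 3 : ℂ) • (M * M) + (-1 : ℂ) • M + (1 / 3 : ℂ) • (1 : Matrix I I ℂ)) * M =
      (2 : ℂ) • ((2 / 3 : ℂ) • (M * M) + (-1 : ℂ) • M + (1 / 3 : ℂ) • (1 : Matrix I I ℂ))
    simp only [add_mul, smul_mul_assoc, one_mul]
    rw [h]
    module
  · show ((4 / 3 : ℂ) • (M * M) + (-4 : ℂ) • M + (8 / 3 : ℂ) • (1 : Matrix I I ℂ)) * M =
      (1 / 2 : ℂ) • ((4 / 3 : ℂ) • (M * M) + (-4 : ℂ) • M + (8 / 3 : ℂ) • (1 : Matrix I I ℂ))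
    simp only [add_mul, smul_mul_assoc, one_mul]
    rw [h]
    module

theorem lg_eq (M : Matrix I I ℂ) : lg M = pr M 1 - pr M 2 := by
  show (-2 / 3 : ℂ) • (M * M) + (3 : ℂ) • M + (-7 / 3 : ℂ) • (1 : Matrix I I ℂ) =
    ((2 / 3 : ℂ) • (M * M) + (-1 : ℂ) • M + (1 / 3 : ℂ) • (1 : Matrix I I ℂ)) -
    ((4 / 3 : ℂ) • (M * M) + (-4 : ℂ) • M + (8 / 3 : ℂ) • (1 : Matrix I I ℂ))
  module

/-- a polynomial in `M` commutes with `pr M c` -/
theorem M_pr (M : Matrix I I ℂ) (c : Fin 3) : M * pr M c = pr M c * M := by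
  fin_cases c
  · show M * ((-2 : ℂ) • (M * M) + (5 : ℂ) • M + (-2 : ℂ) • (1 : Matrix I I ℂ)) =
      ((-2 : ℂ) • (M * M) + (5 : ℂ) • M + (-2 : ℂ) • (1 : Matrix I I ℂ)) * M
    simp only [mul_add, add_mul, smul_mul_assoc, mul_smul_comm, mul_one, one_mul, mul_assoc]
  · show M * ((2 / 3 : ℂ) • (M * M) + (-1 : ℂ) • M + (1 / 3 : ℂ) • (1 : Matrix I I ℂ)) =
      ((2 / 3 : ℂ) • (M * M) + (-1 : ℂ) • M + (1 / 3 : ℂ) • (1 : Matrix I I ℂ)) * M
    simp only [mul_add, add_mul, smul_mul_assoc, mul_smul_comm, mul_one, one_mul, mul_assoc]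
  · show M * ((4 / 3 : ℂ) • (M * M) + (-4 : ℂ) • M + (8 / 3 : ℂ) • (1 : Matrix I I ℂ)) =
      ((4 / 3 : ℂ) • (M * M) + (-4 : ℂ) • M + (8 / 3 : ℂ) • (1 : Matrix I I ℂ)) * M
    simp only [mul_add, add_mul, smul_mul_assoc, mul_smul_comm, mul_one, one_mul, mul_assoc]

theorem lg_pr {M : Matrix I I ℂ} (h : Cub M) (c : Fin 3) :
    lg M * pr M c = (![0, 1, -1] : Fin 3 → ℂ) c • pr M c := by
  have h1 : M * pr M c = (![1, 2, 1 / 2] : Fin 3 → ℂ) c • pr M c := (M_pr M c).trans (pr_M h c)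
  have h2 : lg M * pr M c = ((-2 / 3) * ((![1, 2, 1 / 2] : Fin 3 → ℂ) c *
      (![1, 2, 1 / 2] : Fin 3 → ℂ) c) + 3 * (![1, 2, 1 / 2] : Fin 3 → ℂ) c + (-7 / 3)) •
      pr M c := by
    unfold lg
    rw [add_mul, add_mul, smul_mul_assoc, smul_mul_assoc, smul_mul_assoc, one_mul, mul_assoc, h1,
      mul_smul_comm, h1]
    module
  rw [h2]
  congr 1
  fin_cases c
  · show (-2 / 3 : ℂ) * (1 * 1) + 3 * 1 + (-7 / 3) = 0
    norm_num
  · show (-2 / 3 : ℂ) * (2 * 2) + 3 * 2 + (-7 / 3) = 1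
    norm_num
  · show (-2 / 3 : ℂ) * (1 / 2 * (1 / 2)) + 3 * (1 / 2) + (-7 / 3) = -1
    norm_num

theorem rel (L : ℕ) (c : Fin L → Fin 3) (h : ∏ i, (![1, 2, 1 / 2] : Fin 3 → ℂ) (c i) = 1) :
    ∑ i, (![0, 1, -1] : Fin 3 → ℂ) (c i) = 0 := by
  have h1 : ∀ c : Fin 3, (![1, 2, 1 / 2] : Fin 3 → ℂ) c =
      (2 : ℂ) ^ ((![0, 1, -1] : Fin 3 → ℤ) c) := by
    intro c
    fin_cases c
    · show (1 : ℂ) = 2 ^ (0 : ℤ)
      norm_num
    · show (2 : ℂ) = 2 ^ (1 : ℤ)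
      norm_num
    · show (1 / 2 : ℂ) = 2 ^ (-1 : ℤ)
      norm_num
  have h2 : ∀ c : Fin 3, (![0, 1, -1] : Fin 3 → ℂ) c = (((![0, 1, -1] : Fin 3 → ℤ) c : ℤ) : ℂ) := by
    intro c
    fin_cases c
    · show (0 : ℂ) = ((0 : ℤ) : ℂ)
      norm_num
    · show (1 : ℂ) = ((1 : ℤ) : ℂ)
      norm_num
    · show (-1 : ℂ) = ((-1 : ℤ) : ℂ)
      norm_num
  have h3 : ∀ s : Finset (Fin L), ∏ i ∈ s, (2 : ℂ) ^ ((![0, 1, -1] : Fin 3 → ℤ) (c i)) =
      (2 : ℂ) ^ (∑ i ∈ s, (![0, 1, -1] : Fin 3 → ℤ) (c i)) := by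
    intro s
    induction s using Finset.induction_on with
    | empty => rw [Finset.prod_empty, Finset.sum_empty, zpow_zero]
    | insert a s ha ih =>
      rw [Finset.prod_insert ha, Finset.sum_insert ha, ih, zpow_add₀ two_ne_zero]
  have h4 : (2 : ℂ) ^ (∑ i, (![0, 1, -1] : Fin 3 → ℤ) (c i)) = 1 := by
    rw [← h3, ← h]
    exact Finset.prod_congr rfl fun i _ => (h1 (c i)).symm
  have h5 : (∑ i, (![0, 1, -1] : Fin 3 → ℤ) (c i)) = 0 := by
    have h6 : (2 : ℝ) ^ (∑ i, (![0, 1, -1] : Fin 3 → ℤ) (c i)) = 1 := by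
      have h7 := congrArg norm h4
      rw [norm_zpow, norm_one] at h7
      rwa [show ‖(2 : ℂ)‖ = 2 by norm_num] at h7
    exact (zpow_eq_one_iff_right₀ (by norm_num : (0 : ℝ) ≤ 2) (by norm_num : (2 : ℝ) ≠ 1)).1 h6
  have h8 : ∑ i, (![0, 1, -1] : Fin 3 → ℂ) (c i) =
      ((∑ i, (![0, 1, -1] : Fin 3 → ℤ) (c i) : ℤ) : ℂ) := by
    rw [Int.cast_sum]
    exact Finset.sum_congr rfl fun i _ => h2 (c i)
  rw [h8, h5, Int.cast_zero]

/-- **The logarithm kills what `M` fixes.** -/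
theorem lg_kill {M : Matrix I I ℂ} (h : Cub M) {L : ℕ} {u : Ten I L} (hu : gT M u = u) :
    aT (lg M) u = 0 :=
  kill (pr M) M (lg M) _ _ (pr_sum M) (pr_M h) (lg_pr h) rel hu

theorem lg_sq {M : Matrix I I ℂ} (h : Cub M) : lg M * lg M = pr M 1 + pr M 2 := by
  have h1 : lg M * pr M 1 = pr M 1 := by
    have := lg_pr h 1
    rwa [show (![0, 1, -1] : Fin 3 → ℂ) 1 = 1 from rfl, one_smul] at this
  have h2 : lg M * pr M 2 = -pr M 2 := by
    have := lg_pr h 2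
    rwa [show (![0, 1, -1] : Fin 3 → ℂ) 2 = -1 from rfl, neg_smul, one_smul] at this
  conv_lhs => rw [show lg M * lg M = lg M * (pr M 1 - pr M 2) by rw [← lg_eq]]
  rw [mul_sub, h1, h2, sub_neg_eq_add]

theorem lg_cube {M : Matrix I I ℂ} (h : Cub M) : lg M * lg M * lg M = lg M := by
  have h1 : lg M * pr M 1 = pr M 1 := by
    have := lg_pr h 1
    rwa [show (![0, 1, -1] : Fin 3 → ℂ) 1 = 1 from rfl, one_smul] at this
  have h2 : lg M * pr M 2 = -pr M 2 := by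
    have := lg_pr h 2
    rwa [show (![0, 1, -1] : Fin 3 → ℂ) 2 = -1 from rfl, neg_smul, one_smul] at this
  rw [mul_assoc, lg_sq h, mul_add, h1, h2, ← sub_eq_add_neg, ← lg_eq]

theorem lg_two {M : Matrix I I ℂ} (h : Cub M) (v : I → ℂ) :
    M.mulVec v = (2 : ℂ) • v ↔ (lg M).mulVec v = v := by
  constructor
  · intro h1
    unfold lg
    rw [Matrix.add_mulVec, Matrix.add_mulVec, Matrix.smul_mulVec, Matrix.smul_mulVec,
      Matrix.smul_mulVec, Matrix.one_mulVec, ← Matrix.mulVec_mulVec, h1, Matrix.mulVec_smul, h1]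
    module
  · intro h1
    have h2 : (pr M 1).mulVec v - (pr M 2).mulVec v = v := by
      rw [← Matrix.sub_mulVec, ← lg_eq, h1]
    have h3 : (pr M 1).mulVec v + (pr M 2).mulVec v = v := by
      rw [← Matrix.add_mulVec, ← lg_sq h, ← Matrix.mulVec_mulVec, h1, h1]
    have h4 : (pr M 1).mulVec v = v := by
      have h5 : (pr M 1).mulVec v = (1 / 2 : ℂ) • (((pr M 1).mulVec v - (pr M 2).mulVec v) +
          ((pr M 1).mulVec v + (pr M 2).mulVec v)) := by
        module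
      rw [h2, h3] at h5
      rw [h5]
      module
    have h6 : M * pr M 1 = (2 : ℂ) • pr M 1 := (M_pr M 1).trans (pr_M h 1)
    calc M.mulVec v = M.mulVec ((pr M 1).mulVec v) := by rw [h4]
      _ = (2 : ℂ) • (pr M 1).mulVec v := by
          rw [Matrix.mulVec_mulVec, h6, Matrix.smul_mulVec]
      _ = (2 : ℂ) • v := by rw [h4]

theorem lg_comm {M A : Matrix I I ℂ} (h : M * A = A * M) : lg M * A = A * lg M := by
  unfold lg
  simp only [mul_add, add_mul, smul_mul_assoc, mul_smul_comm, mul_one, one_mul]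
  rw [show M * M * A = A * (M * M) by rw [mul_assoc, h, ← mul_assoc, h, mul_assoc], h]

/-- the logarithm is in the Lie algebra -/
theorem lg_lie {Λ : Type} [DecidableEq Λ] {D : Dat I Λ} {M : Matrix I I ℂ} (h : Cub M)
    (hty : ∀ i j, D.typ i = D.typ j) (hG : M.transpose * Psi D * M = Psi D) :
    IsLie D (lg M) := by
  refine ⟨fun i j hij => absurd (hty i j) hij, ?_⟩
  unfold Cub at h
  obtain ⟨M', hM'⟩ : ∃ M' : Matrix I I ℂ,
      M' = M * M + (-7 / 2 : ℂ) • M + (7 / 2 : ℂ) • (1 : Matrix I I ℂ) := ⟨_, rfl⟩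
  have h1 : M * M' = 1 := by
    rw [hM', mul_add, mul_add, mul_smul_comm, mul_smul_comm, mul_one, ← mul_assoc, h]
    module
  have h2 : M.transpose * Psi D = Psi D * M' := by
    have h3 : M.transpose * Psi D * M * M' = Psi D * M' := by rw [hG]
    rwa [mul_assoc, h1, mul_one] at h3
  have h3 : (M * M).transpose * Psi D = Psi D * (M' * M') := by
    rw [Matrix.transpose_mul, mul_assoc, h2, ← mul_assoc, h2, mul_assoc]
  have h4 : M' * M' = (7 / 2 : ℂ) • (M * M) + (-45 / 4 : ℂ) • M +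
      (35 / 4 : ℂ) • (1 : Matrix I I ℂ) := by
    have h5 : M * M * M' = M := by rw [mul_assoc, h1, mul_one]
    have h8 : M' * M' = (M * M + (-7 / 2 : ℂ) • M +
      (7 / 2 : ℂ) • (1 : Matrix I I ℂ)) * M' := by rw [← hM']
    rw [h8, add_mul, add_mul, smul_mul_assoc, smul_mul_assoc, one_mul, h5, h1, hM']
    module
  have h6 : (lg M).transpose * Psi D = Psi D * ((-2 / 3 : ℂ) • (M' * M') + (3 : ℂ) • M' +
      (-7 / 3 : ℂ) • (1 : Matrix I I ℂ)) := by
    unfold lg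
    rw [Matrix.transpose_add, Matrix.transpose_add, Matrix.transpose_smul, Matrix.transpose_smul,
      Matrix.transpose_smul, Matrix.transpose_one, add_mul, add_mul, smul_mul_assoc,
      smul_mul_assoc, smul_mul_assoc, one_mul, h3, h2, mul_add, mul_add, mul_smul_comm,
      mul_smul_comm, mul_smul_comm, mul_one]
  rw [h6, ← mul_add, h4, hM']
  have h7 : (-2 / 3 : ℂ) • ((7 / 2 : ℂ) • (M * M) + (-45 / 4 : ℂ) • M +
      (35 / 4 : ℂ) • (1 : Matrix I I ℂ)) + (3 : ℂ) • (M * M + (-7 / 2 : ℂ) • M +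
      (7 / 2 : ℂ) • (1 : Matrix I I ℂ)) + (-7 / 3 : ℂ) • (1 : Matrix I I ℂ) + lg M = 0 := by
    unfold lg
    module
  rw [h7, mul_zero]

end Pool.Agent.Lib.MP_361a6f_ag.FL.E.Mlog
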