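import Pool.Agent.Lib.MP_361a6f_ag.FL.EMC.DefsC
import Pool.Agent.Lib.MP_361a6f_ag.FL.EM.Pcs
import Pool.Agent.Lib.MP_361a6f_ag.FL.EM.R11M

/-!
# Theorem EMBC: the classes and the pieces in the frame

A letter is self-dual if its class contains two opposite weights. The class of a letter which is
not self-dual is the eigenspace for `1` of a central element of `S`; the coordinate subspace of a
self-dual class contains no isotropic stable subspace.
-/

set_option autoImplicit false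
set_option linter.unusedSectionVars false

open Matrix Module

namespace Pool.Agent.Lib.MP_361a6f_ag.FL.E.Pc

open P5e LemR Mn K1

variable {I : Type} [Fintype I] [DecidableEq I] {S : Submodule ℂ (Matrix I I ℂ)}
  {E : Set (Matrix I I ℂ)} {P : Matrix I I ℂ} {k κ : I → ℂ} {B : Matrix I I ℂ}

/-- the letter `i` is self-dual -/
def SD (h : Submodule ℂ (Matrix I I ℂ)) (κ : I → ℂ) (i : I) : Prop :=
  ∃ a b, Conn h κ i a ∧ Conn h κ i b ∧ ∀ T, diagonal T ∈ h → T a + T b = 0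

theorem SD.of_conn {h : Submodule ℂ (Matrix I I ℂ)} (hS : Sit h κ) {i j : I}
    (hi : SD h κ i) (hij : Conn h κ i j) : SD h κ j := by
  obtain ⟨a, b, ha, hb, hab⟩ := hi
  exact ⟨a, b, conn_trans hS (conn_symm hS hij) ha, conn_trans hS (conn_symm hS hij) hb, hab⟩

/-- a coordinate subspace of a union of classes is stable -/
theorem co_StS (F : Frame S E k B κ) {J : Set I}
    (hJ : ∀ i j, Conn (conjS B S) κ i j → j ∈ J → i ∈ J) : StS S E (H5.co B J) :=
  ⟨fun X hX => H5.co_stable F.u2 X fun i hi j hj => by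
      by_contra h0
      exact hi (hJ i j (Conn.step F.sit (F.mem X hX) h0 (Conn.refl j)) hj),
    fun e he => H5.co_stable F.u2 e fun i hi j hj => by
      by_contra h0
      exact hi (hJ i j (Conn.same (F.same e he i j h0).1 (F.same e he i j h0).2
        (Conn.refl j)) hj)⟩

/-- the form in the frame -/
theorem dot_co (hU2 : B * Bᴴ = 1) (v w : I → ℂ) :
    v ⬝ᵥ (P *ᵥ w) = (Bᴴ *ᵥ v) ⬝ᵥ ((Bᵀ * P * B) *ᵥ (Bᴴ *ᵥ w)) := by
  have h1 : ∀ x : I → ℂ, B *ᵥ (Bᴴ *ᵥ x) = x := by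
    intro x
    rw [Matrix.mulVec_mulVec, hU2, Matrix.one_mulVec]
  rw [← dot_tr, h1, h1]

theorem isot_co (hU2 : B * Bᴴ = 1) {J : Set I}
    (h : ∀ i ∈ J, ∀ j ∈ J, (Bᵀ * P * B) i j = 0) : Isot P (H5.co B J) := by
  intro v hv w hw
  rw [dot_co hU2, dotProduct]
  refine Finset.sum_eq_zero fun x _ => ?_
  by_cases hx : x ∈ J
  · have h2 : ((Bᵀ * P * B) *ᵥ (Bᴴ *ᵥ w)) x = 0 := by
      rw [Matrix.mulVec, dotProduct]
      refine Finset.sum_eq_zero fun y _ => ?_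
      by_cases hy : y ∈ J
      · rw [h x hx y hy, zero_mul]
      · rw [hw y hy, mul_zero]
    rw [h2, mul_zero]
  · rw [hv x hx, zero_mul]

/-- the form is invariant in the frame -/
theorem inv_conj (hU1 : Bᴴ * B = 1) (hP : ∀ A ∈ S, A.transpose * P + P * A = 0) :
    ∀ X ∈ conjS B S, Xᵀ * (Bᵀ * P * B) + Bᵀ * P * B * X = 0 := by
  have hUT : Bᵀ * Bᴴᵀ = 1 := by
    rw [← Matrix.transpose_mul, hU1, Matrix.transpose_one]
  intro X hX
  have h2 := hP _ (mem_conjS.1 hX)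
  rw [Matrix.transpose_mul, Matrix.transpose_mul] at h2
  calc Xᵀ * (Bᵀ * P * B) + Bᵀ * P * B * X
      = (Bᵀ * Bᴴᵀ) * (Xᵀ * Bᵀ) * P * B + Bᵀ * P * (B * X) * (Bᴴ * B) := by
        rw [hUT, hU1, Matrix.one_mul, Matrix.mul_one]
        simp only [Matrix.mul_assoc]
    _ = Bᵀ * (Bᴴᵀ * (Xᵀ * Bᵀ) * P + P * (B * X * Bᴴ)) * B := by
        rw [Matrix.mul_add, Matrix.add_mul]
        simp only [Matrix.mul_assoc]
    _ = 0 := by rw [h2, Matrix.mul_zero, Matrix.zero_mul]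

theorem pair_conj (hU1 : Bᴴ * B = 1) (hP : ∀ A ∈ S, A.transpose * P + P * A = 0) {i j : I}
    (hij : (Bᵀ * P * B) i j ≠ 0) : ∀ T, diagonal T ∈ conjS B S → T i + T j = 0 := by
  intro T hT
  have h2 := congrFun (congrFun (inv_conj hU1 hP _ hT) i) j
  rw [Matrix.diagonal_transpose, Matrix.add_apply, Matrix.diagonal_mul, Matrix.mul_diagonal,
    Matrix.zero_apply, mul_comm, ← mul_add] at h2
  exact (mul_eq_zero.1 h2).resolve_left hij

/-- the form in the frame is nondegenerate -/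
theorem unit_conj (hU1 : Bᴴ * B = 1) (hU2 : B * Bᴴ = 1) (hu : IsUnit P) :
    IsUnit (Bᵀ * P * B) := by
  have h1 : IsUnit B := ⟨⟨B, Bᴴ, hU2, hU1⟩, rfl⟩
  have h2 : IsUnit Bᵀ := by
    refine ⟨⟨Bᵀ, Bᴴᵀ, ?_, ?_⟩, rfl⟩
    · rw [← Matrix.transpose_mul, hU1, Matrix.transpose_one]
    · rw [← Matrix.transpose_mul, hU2, Matrix.transpose_one]
  exact (h2.mul hu).mul h1

/-- a central element of `S` in the frame -/
theorem central (F : Frame S E k B κ) {Z : Matrix I I ℂ} (hZ : Z ∈ S)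
    (hc : ∀ A ∈ S, Z * A = A * Z) : ∃ d : I → ℂ, Bᴴ * Z * B = diagonal d ∧
      diagonal d ∈ conjS B S ∧ (∀ A ∈ conjS B S, ∀ i j, A i j ≠ 0 → d i = d j) ∧
      ∀ i j, Conn (conjS B S) κ i j → d i = d j := by
  have hU1 := F.u1
  have hU2 := F.u2
  have hD : Bᴴ * Z * B ∈ conjS B S := F.mem Z hZ
  have hcomm : ∀ A ∈ conjS B S, (Bᴴ * Z * B) * A = A * (Bᴴ * Z * B) := by
    intro A hA
    have h1 := hc _ (mem_conjS.1 hA)
    calc (Bᴴ * Z * B) * A = Bᴴ * (Z * (B * A * Bᴴ)) * B := by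
          have e : Bᴴ * (Z * (B * A * Bᴴ)) * B = Bᴴ * Z * B * A * (Bᴴ * B) := by
            simp only [Matrix.mul_assoc]
          rw [e, hU1, Matrix.mul_one]
      _ = Bᴴ * (B * A * Bᴴ * Z) * B := by rw [h1]
      _ = A * (Bᴴ * Z * B) := by
          have e : Bᴴ * (B * A * Bᴴ * Z) * B = (Bᴴ * B) * A * (Bᴴ * Z * B) := by
            simp only [Matrix.mul_assoc]
          rw [e, hU1, Matrix.one_mul]
  have hoff := F.sit.tor _ hD fun T hT i j hij => by
    have h1 := congrFun (congrFun (hcomm _ hT) i) j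
    rw [Matrix.mul_diagonal, Matrix.diagonal_mul, mul_comm] at h1
    exact (mul_right_cancel₀ hij h1).symm
  have hdiag : Bᴴ * Z * B = diagonal fun i => (Bᴴ * Z * B) i i := by
    ext i j
    by_cases hij : i = j
    · rw [hij, Matrix.diagonal_apply_eq]
    · rw [Matrix.diagonal_apply_ne _ hij]
      by_contra h0
      exact hij (hoff i j h0)
  obtain ⟨d, hd⟩ : ∃ d : I → ℂ, Bᴴ * Z * B = diagonal d := ⟨_, hdiag⟩
  rw [hd] at hD hcomm
  have h1 : ∀ A ∈ conjS B S, ∀ i j, A i j ≠ 0 → d i = d j := by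
    intro A hA i j hij
    have h2 := congrFun (congrFun (hcomm A hA) i) j
    rw [Matrix.mul_diagonal, Matrix.diagonal_mul, mul_comm] at h2
    exact mul_left_cancel₀ hij h2
  refine ⟨d, hd, hD, h1, fun i j hij => ?_⟩
  obtain ⟨s, hs, hT, -⟩ := hij
  have h2 : (s.map fun p => p.2.1 d).sum = 0 := by
    refine Multiset.sum_eq_zero fun x hx => ?_
    obtain ⟨p, hp, rfl⟩ := Multiset.mem_map.1 hx
    have h3 := hs p hp
    obtain ⟨a, b, hab⟩ : ∃ a b, p.1 a b ≠ 0 := by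
      by_contra hcc
      push Not at hcc
      exact h3.ne (by ext a b; simpa using hcc a b)
    rw [← h3.wt a b hab d hD, h1 p.1 h3.mem a b hab, sub_self]
  rw [hT d hD, h2, add_zero]

/-- the eigenvectors of `Z` in the frame -/
theorem fix_iff (hU1 : Bᴴ * B = 1) (hU2 : B * Bᴴ = 1) {Z : Matrix I I ℂ} {d : I → ℂ}
    (hd : Bᴴ * Z * B = diagonal d) (v : I → ℂ) :
    Z *ᵥ v = v ↔ ∀ i, (Bᴴ *ᵥ v) i ≠ 0 → d i = 1 := by
  have h1 : Bᴴ *ᵥ (Z *ᵥ v) = diagonal d *ᵥ (Bᴴ *ᵥ v) := by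
    rw [← hd, Matrix.mulVec_mulVec, Matrix.mulVec_mulVec]
    congr 1
    calc Bᴴ * Z = Bᴴ * Z * (B * Bᴴ) := by rw [hU2, Matrix.mul_one]
      _ = Bᴴ * Z * B * Bᴴ := by simp only [Matrix.mul_assoc]
  constructor
  · intro h i hi
    rw [h] at h1
    have h2 := congrFun h1 i
    rw [Matrix.mulVec_diagonal] at h2
    exact mul_right_cancel₀ hi (by rw [one_mul]; exact h2.symm)
  · intro h
    have h2 : Bᴴ *ᵥ (Z *ᵥ v) = Bᴴ *ᵥ v := by
      rw [h1]
      funext i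
      rw [Matrix.mulVec_diagonal]
      by_cases h0 : (Bᴴ *ᵥ v) i = 0
      · rw [h0, mul_zero]
      · rw [h i h0, one_mul]
    have h3 := congrArg (fun x => B *ᵥ x) h2
    simpa only [Matrix.mulVec_mulVec, ← Matrix.mul_assoc, hU2, Matrix.one_mul,
      Matrix.one_mulVec] using h3

/-- a stable isotropic subspace `≠ 0` gives a central element -/
theorem exists_z (F : Frame S E k B κ) (hbal : BalC S E P) {U : Submodule ℂ (I → ℂ)}
    (hU : StS S E U) (hi : Isot P U) (h0 : U ≠ ⊥) : ∃ M ≤ U, MinS S E M ∧ ∃ d : I → ℂ,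
      diagonal d ∈ conjS B S ∧ (∀ A ∈ conjS B S, ∀ i j, A i j ≠ 0 → d i = d j) ∧
      (∀ i j, Conn (conjS B S) κ i j → d i = d j) ∧ (∀ i, d i * d i * d i = d i) ∧
      ∀ v, v ∈ M ↔ ∀ i, (Bᴴ *ᵥ v) i ≠ 0 → d i = 1 := by
  obtain ⟨M, hM1, hM2⟩ := exists_min _ le_rfl hU h0
  obtain ⟨Z, hZ, hc, hZ3, hZM⟩ := hbal M hM2 fun v hv w hw => hi v (hM1 hv) w (hM1 hw)
  obtain ⟨d, hd, hdS, hd1, hd2⟩ := central F hZ hc
  refine ⟨M, hM1, hM2, d, hdS, hd1, hd2, fun i => ?_, fun v => (hZM v).trans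
    (fix_iff F.u1 F.u2 hd v)⟩
  have h1 : diagonal d * diagonal d * diagonal d = diagonal d := by
    rw [← hd]
    calc (Bᴴ * Z * B) * (Bᴴ * Z * B) * (Bᴴ * Z * B)
        = Bᴴ * Z * (B * Bᴴ) * Z * (B * Bᴴ) * Z * B := by simp only [Matrix.mul_assoc]
      _ = Bᴴ * (Z * Z * Z) * B := by
          rw [F.u2, Matrix.mul_one]
          simp only [Matrix.mul_assoc, Matrix.one_mul]
      _ = Bᴴ * Z * B := by rw [hZ3]
  rw [diagonal_mul_diagonal, diagonal_mul_diagonal] at h1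
  exact congrFun (diagonal_injective h1) i

theorem exists_coord (hU2 : B * Bᴴ = 1) {v : I → ℂ} (hv : v ≠ 0) : ∃ i, (Bᴴ *ᵥ v) i ≠ 0 := by
  by_contra hc
  push Not at hc
  apply hv
  have h1 : Bᴴ *ᵥ v = 0 := funext hc
  have h2 := congrArg (fun x => B *ᵥ x) h1
  simpa only [Matrix.mulVec_mulVec, hU2, Matrix.one_mulVec, Matrix.mulVec_zero] using h2

/-- the coordinate subspace of a self-dual class has no isotropic stable subspace -/
theorem iso_cl (F : Frame S E k B κ) (hbal : BalC S E P) {i : I} (hi : SD (conjS B S) κ i)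
    {U : Submodule ℂ (I → ℂ)} (hU : StS S E U) (hiU : Isot P U)
    (hUi : U ≤ H5.co B {j | Conn (conjS B S) κ i j}) : U = ⊥ := by
  by_contra h0
  obtain ⟨M, hMU, hM, d, hdS, -, hd2, -, hdM⟩ := exists_z F hbal hU hiU h0
  obtain ⟨v, hvM, hv0⟩ := (Submodule.ne_bot_iff M).1 hM.2.1
  obtain ⟨j, hj⟩ := exists_coord F.u2 hv0
  have h1 := (hdM v).1 hvM j hj
  have h2 : Conn (conjS B S) κ i j := by
    by_contra hc
    exact hj (hUi (hMU hvM) j hc)
  obtain ⟨a, b, ha, hb, hab⟩ := hi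
  have h3 := hab d hdS
  rw [← hd2 i a ha, ← hd2 i b hb, hd2 i j h2, h1] at h3
  norm_num at h3

theorem single_mem_co (hU1 : Bᴴ * B = 1) {J : Set I} {j : I} (hj : j ∈ J) :
    B *ᵥ Pi.single j 1 ∈ H5.co B J := by
  intro i hi
  rw [Matrix.mulVec_mulVec, hU1, Matrix.one_mulVec]
  refine Pi.single_eq_of_ne ?_ _
  rintro rfl
  exact hi hj

/-- the central element of a class that is not self-dual -/
theorem exists_d (F : Frame S E k B κ) (hbal : BalC S E P)
    (hP : ∀ A ∈ S, A.transpose * P + P * A = 0) (hu : IsUnit P) {i : I}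
    (hi : ¬ SD (conjS B S) κ i) : ∃ d : I → ℂ, diagonal d ∈ conjS B S ∧
      (∀ A ∈ conjS B S, ∀ i j, A i j ≠ 0 → d i = d j) ∧
      (∀ j, d j = 0 ∨ d j = 1 ∨ d j = -1) ∧ d i = 1 ∧
      ∀ j, d j = -1 → ∃ m, Conn (conjS B S) κ i m ∧
        ∀ T, diagonal T ∈ conjS B S → T j + T m = 0 := by
  have hS := F.sit
  have hU1 := F.u1
  have hU2 := F.u2
  have hst : StS S E (H5.co B {j | Conn (conjS B S) κ i j}) :=
    co_StS F fun x y hxy hy => conn_trans hS hy (conn_symm hS hxy)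
  have hiso : Isot P (H5.co B {j | Conn (conjS B S) κ i j}) := by
    refine isot_co hU2 fun x hx y hy => ?_
    by_contra h0
    exact hi ⟨x, y, hx, hy, pair_conj hU1 hP h0⟩
  have hne : H5.co B {j | Conn (conjS B S) κ i j} ≠ ⊥ :=
    H5.co_ne_bot hU1 (j := i) (Conn.refl i)
  obtain ⟨M, hMU, hM, d, hdS, hd1, hd2, hd3, hdM⟩ := exists_z F hbal hst hiso hne
  have hcoord : ∀ j, ∀ x, (Bᴴ *ᵥ (B *ᵥ Pi.single j (1 : ℂ))) x ≠ 0 → x = j := by
    intro j x hx
    rw [Matrix.mulVec_mulVec, hU1, Matrix.one_mulVec] at hx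
    by_contra hne
    exact hx (Pi.single_eq_of_ne hne _)
  have hone : ∀ j, d j = 1 → Conn (conjS B S) κ i j := by
    intro j hj
    have h1 : B *ᵥ Pi.single j 1 ∈ M := (hdM _).2 fun x hx => by rw [hcoord j x hx, hj]
    by_contra hc
    have h2 := hMU h1 j hc
    rw [Matrix.mulVec_mulVec, hU1, Matrix.one_mulVec, Pi.single_eq_same] at h2
    exact one_ne_zero h2
  have hval : ∀ j, d j = 0 ∨ d j = 1 ∨ d j = -1 := by
    intro j
    have h1 : d j * (d j - 1) * (d j + 1) = 0 := by linear_combination hd3 j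
    rcases mul_eq_zero.1 h1 with h2 | h2
    · rcases mul_eq_zero.1 h2 with h3 | h3
      · exact Or.inl h3
      · exact Or.inr (Or.inl (sub_eq_zero.1 h3))
    · exact Or.inr (Or.inr (eq_neg_of_add_eq_zero_left h2))
  have hdi : d i = 1 := by
    obtain ⟨v, hvM, hv0⟩ := (Submodule.ne_bot_iff M).1 hM.2.1
    obtain ⟨j, hj⟩ := exists_coord hU2 hv0
    have h1 := (hdM v).1 hvM j hj
    have h2 : Conn (conjS B S) κ i j := by
      by_contra hc
      exact hj (hMU hvM j hc)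
    rw [hd2 i j h2, h1]
  refine ⟨d, hdS, hd1, hval, hdi, fun j hj => ?_⟩
  obtain ⟨m, hm⟩ : ∃ m, (Bᵀ * P * B) j m ≠ 0 := by
    by_contra hc
    push Not at hc
    obtain ⟨u, hu⟩ := unit_conj hU1 hU2 hu
    have h1 : (Bᵀ * P * B) * (u⁻¹ : (Matrix I I ℂ)ˣ).1 = 1 := by
      rw [← hu]
      exact u.mul_inv
    have h2 := congrFun (congrFun h1 j) j
    rw [Matrix.mul_apply, Matrix.one_apply_eq] at h2
    simp [hc] at h2
  have h1 := pair_conj hU1 hP hm
  refine ⟨m, hone m ?_, h1⟩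
  have h2 := h1 d hdS
  rw [hj] at h2
  linear_combination h2

end Pool.Agent.Lib.MP_361a6f_ag.FL.E.Pc
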