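import Pool.Agent.Lib.MP_361a6f_ag.FL.EMB.ZLem

/-!
# Theorem EMBC: the root situation of a union of classes

`J` is a union of classes of letters, `Φ₀` the set of the roots that are not orthogonal to all
weights of `J`. Then `J` and `Φ₀` are a root situation, and a combination of the weights of `J`
which is in `Q + A` is in `Q₀ + A₀`.
-/

set_option autoImplicit false

open Module
open scoped InnerProductSpace

namespace Pool.Agent.Lib.MP_361a6f_ag.FL.E11.RC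

open ZL

variable {E : Type*} [NormedAddCommGroup E] [InnerProductSpace ℝ E] {I : Type*}
  {T : I → E} {Φ : Set E} {J : Set I}

/-- the roots that are not orthogonal to all weights of `J` -/
def Ph (T : I → E) (Φ : Set E) (J : Set I) : Set E := {b | b ∈ Φ ∧ ∃ l ∈ J, ⟪T l, b⟫_ℝ ≠ 0}

/-- the span of the weights of `J` -/
def Sp (T : I → E) (J : Set I) : Submodule ℝ E := Submodule.span ℝ (T '' J)

theorem ph_le : Ph T Φ J ⊆ Φ := fun _ h => h.1

theorem mem_sp {l : I} (hl : l ∈ J) : T l ∈ Sp T J := Submodule.subset_span ⟨l, hl, rfl⟩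

/-- the roots outside `Φ₀` are orthogonal to the span -/
theorem orth_of_not {b : E} (hb : b ∈ Φ) (h : b ∉ Ph T Φ J) : ∀ x ∈ Sp T J, ⟪x, b⟫_ℝ = 0 := by
  intro x hx
  induction hx using Submodule.span_induction with
  | mem x hx =>
    obtain ⟨l, hl, rfl⟩ := hx
    by_contra h0
    exact h ⟨hb, l, hl, h0⟩
  | zero => rw [inner_zero_left]
  | add x y _ _ hx hy => rw [inner_add_left, hx, hy, add_zero]
  | smul c x _ hx => rw [inner_smul_left, hx, mul_zero]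

/-- an element of `Φ` in the span is in `Φ₀` -/
theorem mem_ph_of_sp (hz : (0 : E) ∉ Φ) {b : E} (hb : b ∈ Φ) (h : b ∈ Sp T J) : b ∈ Ph T Φ J := by
  by_contra h0
  have h1 := orth_of_not hb h0 b h
  exact hz ((inner_self_eq_zero.1 h1) ▸ hb)

/-- the letters of `J` and their moves -/
structure ClSit (T : I → E) (Φ : Set E) (J : Set I) : Prop where
  zero : (0 : E) ∉ Φ
  neg : ∀ a ∈ Φ, -a ∈ Φ
  int : ∀ l, ∀ a ∈ Φ, ∃ n : ℤ, 2 * ⟪T l, a⟫_ℝ = n * ⟪a, a⟫_ℝ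
  add : ∀ a ∈ Φ, ∀ b ∈ Φ, ⟪a, b⟫_ℝ < 0 → a + b ∈ Φ ∨ a + b = 0
  mov : ∀ l, ∀ a ∈ Φ, 0 < ⟪T l, a⟫_ℝ → ∃ m, T m = T l - a
  two : ∀ l ∈ J, T l + T l ∈ AddSubgroup.closure Φ
  cls : ∀ l ∈ J, ∀ m, T m - T l ∈ AddSubgroup.closure Φ → m ∈ J

theorem ClSit.movJ (H : ClSit T Φ J) {l : I} (hl : l ∈ J) {a : E} (ha : a ∈ Φ)
    (h : 0 < ⟪T l, a⟫_ℝ) : ∃ m ∈ J, T m = T l - a := by
  obtain ⟨m, hm⟩ := H.mov l a ha h
  refine ⟨m, H.cls l hl m ?_, hm⟩
  have e : T m - T l = -a := by rw [hm]; abel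
  rw [e]
  exact neg_mem (AddSubgroup.subset_closure ha)

theorem ClSit.dif (H : ClSit T Φ J) {b : E} (hb : b ∈ Ph T Φ J) :
    ∃ i ∈ J, ∃ j ∈ J, b = T i - T j := by
  obtain ⟨hb, l, hl, h0⟩ := hb
  rcases lt_or_gt_of_ne h0 with h1 | h1
  · obtain ⟨m, hm, h2⟩ := H.movJ hl (H.neg b hb) (by rw [inner_neg_right]; linarith)
    exact ⟨m, hm, l, hl, by rw [h2]; abel⟩
  · obtain ⟨m, hm, h2⟩ := H.movJ hl hb h1
    exact ⟨l, hl, m, hm, by rw [h2]; abel⟩

theorem ClSit.ph_sp (H : ClSit T Φ J) {b : E} (hb : b ∈ Ph T Φ J) : b ∈ Sp T J := by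
  obtain ⟨i, hi, j, hj, rfl⟩ := H.dif hb
  exact Submodule.sub_mem _ (mem_sp hi) (mem_sp hj)

theorem ClSit.q_sp (H : ClSit T Φ J) {x : E} (hx : x ∈ AddSubgroup.closure (Ph T Φ J)) :
    x ∈ Sp T J := by
  have h1 : AddSubgroup.closure (Ph T Φ J) ≤ (Sp T J).toAddSubgroup :=
    (AddSubgroup.closure_le _).2 fun b hb => H.ph_sp hb
  exact h1 hx

theorem ClSit.a_sp (H : ClSit T Φ J) {ΦL : Set E} {x : E}
    (hx : x ∈ Submodule.span ℝ (ΦL ∩ Ph T Φ J)) : x ∈ Sp T J := by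
  have h1 : Submodule.span ℝ (ΦL ∩ Ph T Φ J) ≤ Sp T J :=
    Submodule.span_le.2 fun b hb => H.ph_sp hb.2
  exact h1 hx

/-- the splitting for `Q` -/
theorem split_q {x : E} (hx : x ∈ AddSubgroup.closure Φ) :
    ∃ y ∈ AddSubgroup.closure (Ph T Φ J), ∀ z ∈ Sp T J, ⟪z, x - y⟫_ℝ = 0 := by
  induction hx using AddSubgroup.closure_induction with
  | mem b hb =>
    by_cases h : b ∈ Ph T Φ J
    · exact ⟨b, AddSubgroup.subset_closure h, fun z _ => by rw [sub_self, inner_zero_right]⟩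
    · exact ⟨0, zero_mem _, fun z hz => by rw [sub_zero]; exact orth_of_not hb h z hz⟩
  | zero => exact ⟨0, zero_mem _, fun z _ => by rw [sub_zero, inner_zero_right]⟩
  | add x x' _ _ ih ih' =>
    obtain ⟨y, h1, h2⟩ := ih
    obtain ⟨y', h1', h2'⟩ := ih'
    refine ⟨y + y', add_mem h1 h1', fun z hz => ?_⟩
    have e : x + x' - (y + y') = (x - y) + (x' - y') := by abel
    rw [e, inner_add_right, h2 z hz, h2' z hz, add_zero]
  | neg x _ ih =>
    obtain ⟨y, h1, h2⟩ := ih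
    refine ⟨-y, neg_mem h1, fun z hz => ?_⟩
    have e : -x - -y = -(x - y) := by abel
    rw [e, inner_neg_right, h2 z hz, neg_zero]

/-- the splitting for `A` -/
theorem split_a {ΦL : Set E} (hΦL : ΦL ⊆ Φ) {x : E} (hx : x ∈ Submodule.span ℝ ΦL) :
    ∃ y ∈ Submodule.span ℝ (ΦL ∩ Ph T Φ J), ∀ z ∈ Sp T J, ⟪z, x - y⟫_ℝ = 0 := by
  induction hx using Submodule.span_induction with
  | mem b hb =>
    by_cases h : b ∈ Ph T Φ J
    · exact ⟨b, Submodule.subset_span ⟨hb, h⟩, fun z _ => by rw [sub_self, inner_zero_right]⟩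
    · exact ⟨0, zero_mem _, fun z hz => by rw [sub_zero]; exact orth_of_not (hΦL hb) h z hz⟩
  | zero => exact ⟨0, zero_mem _, fun z _ => by rw [sub_zero, inner_zero_right]⟩
  | add x x' _ _ ih ih' =>
    obtain ⟨y, h1, h2⟩ := ih
    obtain ⟨y', h1', h2'⟩ := ih'
    refine ⟨y + y', add_mem h1 h1', fun z hz => ?_⟩
    have e : x + x' - (y + y') = (x - y) + (x' - y') := by abel
    rw [e, inner_add_right, h2 z hz, h2' z hz, add_zero]
  | smul c x _ ih =>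
    obtain ⟨y, h1, h2⟩ := ih
    refine ⟨c • y, Submodule.smul_mem _ c h1, fun z hz => ?_⟩
    rw [← smul_sub, inner_smul_right, h2 z hz, mul_zero]

/-- an element of `Q + A` in the span of the weights of `J` is in `Q₀ + A₀` -/
theorem ClSit.mem_qa (H : ClSit T Φ J) {ΦL : Set E} (hΦL : ΦL ⊆ Φ) {x : E} (hx : x ∈ QA Φ ΦL)
    (hxs : x ∈ Sp T J) : x ∈ QA (Ph T Φ J) (ΦL ∩ Ph T Φ J) := by
  obtain ⟨q, hq, a, ha, rfl⟩ := AddSubgroup.mem_sup.1 hx
  obtain ⟨y, h1, h2⟩ := split_q (T := T) (J := J) hq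
  obtain ⟨y', h1', h2'⟩ := split_a (T := T) (J := J) hΦL ha
  have h3 : q + a - (y + y') ∈ Sp T J :=
    Submodule.sub_mem _ hxs (Submodule.add_mem _ (H.q_sp h1) (H.a_sp h1'))
  have h4 : ⟪q + a - (y + y'), q + a - (y + y')⟫_ℝ = 0 := by
    have e : q + a - (y + y') = (q - y) + (a - y') := by abel
    calc ⟪q + a - (y + y'), q + a - (y + y')⟫_ℝ
        = ⟪q + a - (y + y'), (q - y) + (a - y')⟫_ℝ := by rw [← e]
      _ = 0 := by rw [inner_add_right, h2 _ h3, h2' _ h3, add_zero]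
  have h5 : q + a = y + y' := sub_eq_zero.1 (inner_self_eq_zero.1 h4)
  rw [h5]
  exact add_mem (q_le h1)
    ((le_sup_right : (Submodule.span ℝ (ΦL ∩ Ph T Φ J)).toAddSubgroup ≤
      QA (Ph T Φ J) (ΦL ∩ Ph T Φ J)) h1')

theorem ClSit.mem_q (H : ClSit T Φ J) {x : E} (hx : x ∈ AddSubgroup.closure Φ)
    (hxs : x ∈ Sp T J) : x ∈ AddSubgroup.closure (Ph T Φ J) := by
  obtain ⟨y, h1, h2⟩ := split_q (T := T) (J := J) hx
  have h3 : x - y ∈ Sp T J := Submodule.sub_mem _ hxs (H.q_sp h1)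
  rw [sub_eq_zero.1 (inner_self_eq_zero.1 (h2 _ h3))]
  exact h1

theorem qa_le {ΦL : Set E} : QA (Ph T Φ J) (ΦL ∩ Ph T Φ J) ≤ QA Φ ΦL := by
  refine sup_le ((AddSubgroup.closure_mono ph_le).trans q_le) ?_
  exact (Submodule.toAddSubgroup_mono (Submodule.span_mono Set.inter_subset_left)).trans
    le_sup_right

/-- **The root situation of `J`.** -/
theorem ClSit.root (H : ClSit T Φ J) : RootSit0 (fun l : J => T l) (Ph T Φ J) where
  zero := fun h => H.zero h.1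
  neg := by
    rintro a ⟨ha, l, hl, h0⟩
    exact ⟨H.neg a ha, l, hl, by rw [inner_neg_right]; exact neg_ne_zero.2 h0⟩
  int := fun l a ha => H.int l a ha.1
  dif := by
    intro a ha
    obtain ⟨i, hi, j, hj, h⟩ := H.dif ha
    exact ⟨⟨i, hi⟩, ⟨j, hj⟩, h⟩
  add := by
    intro a ha b hb hab
    rcases H.add a ha.1 b hb.1 hab with h | h
    · exact Or.inl (mem_ph_of_sp H.zero h (Submodule.add_mem _ (H.ph_sp ha) (H.ph_sp hb)))
    · exact Or.inr h
  mov := by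
    intro l a ha h
    obtain ⟨m, hm, h1⟩ := H.movJ l.2 ha.1 h
    exact ⟨⟨m, hm⟩, h1⟩
  two := fun l => H.mem_q (H.two l l.2) (Submodule.add_mem _ (mem_sp l.2) (mem_sp l.2))

end Pool.Agent.Lib.MP_361a6f_ag.FL.E11.RC
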