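import Pool.Agent.Lib.MP_361a6f_ag.FL.EMC.PieceC
import Pool.Agent.Lib.MP_361a6f_ag.FL.EMC.RootC
import Pool.Agent.Lib.MP_361a6f_ag.FL.EMC.IsoC
import Pool.Agent.Lib.MP_361a6f_ag.FL.EMB.Zn

/-!
# Theorem EMBC: the pieces of the self-dual letters
-/

set_option autoImplicit false
set_option linter.unusedSectionVars false

open Matrix Module
open scoped InnerProductSpace

namespace Pool.Agent.Lib.MP_361a6f_ag.FL.E.Pc

open P5e LemR Mn K1

variable {I : Type} [Fintype I] [DecidableEq I] {S : Submodule ℂ (Matrix I I ℂ)}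
  {E : Set (Matrix I I ℂ)} {P : Matrix I I ℂ} {k κ : I → ℂ} {B : Matrix I I ℂ}

theorem tr_st (hU1 : Bᴴ * B = 1) (hU2 : B * Bᴴ = 1) {U : Submodule ℂ (I → ℂ)}
    (hU : StS S E U) : ∀ X ∈ conjS B S, ∀ x ∈ tr B U, X *ᵥ x ∈ tr B U := by
  intro X hX x hx
  rw [mem_tr hU1 hU2] at hx ⊢
  have h1 := hU.1 _ (mem_conjS.1 hX) _ hx
  rw [Matrix.mulVec_mulVec, Matrix.mul_assoc, hU1, Matrix.mul_one,
    ← Matrix.mulVec_mulVec] at h1
  exact h1

/-- the vectors of isotropic stable subspaces have no self-dual letters -/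
theorem iso_coord (F : Frame S E k B κ) (hbal : BalC S E P) {U : Submodule ℂ (I → ℂ)}
    (hU : StS S E U) (hiU : Isot P U) {v : I → ℂ} (hv : v ∈ U) {i : I}
    (hi : SD (conjS B S) κ i) : (Bᴴ *ᵥ v) i = 0 := by
  have hS := F.sit
  have hU1 := F.u1
  have hU2 := F.u2
  by_contra h0
  have hx : Bᴴ *ᵥ v ∈ tr B U := by
    rw [mem_tr hU1 hU2, Matrix.mulVec_mulVec, hU2, Matrix.one_mulVec]
    exact hv
  have hy := E11.pr_mem hS (tr_st hU1 hU2 hU) (E11.wt (conjS B S) i) hx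
  have hyi : E11.pr (E11.wt (conjS B S) i) (Bᴴ *ᵥ v) i ≠ 0 := by
    rw [E11.pr_apply _ rfl]
    exact h0
  have hyw := E11.hasWt_pr (E11.wt (conjS B S) i) (Bᴴ *ᵥ v)
  have hco : StS S E (H5.co B {j | Conn (conjS B S) κ i j}) :=
    co_StS F fun x y hxy hy => conn_trans hS hy (conn_symm hS hxy)
  have h1 := iso_cl F hbal hi (inf_StS hU hco) (fun v hv w hw => hiU v hv.1 w hw.1)
    inf_le_right
  have h2 : B *ᵥ E11.pr (E11.wt (conjS B S) i) (Bᴴ *ᵥ v) ∈
      U ⊓ H5.co B {j | Conn (conjS B S) κ i j} := by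
    refine ⟨(mem_tr hU1 hU2).1 hy, fun j hj => ?_⟩
    rw [Matrix.mulVec_mulVec, hU1, Matrix.one_mulVec]
    by_contra h3
    have h4 := (E11.wt_eq_iff hS i j).1 (hyw j h3).symm
    exact hj (Conn.same h4 (F.eqv i j h4) (Conn.refl j))
  rw [h1, Submodule.mem_bot] at h2
  have h3 := congrArg (fun z => (Bᴴ *ᵥ z) i) h2
  simp only [Matrix.mulVec_mulVec, hU1, Matrix.one_mulVec, Matrix.mulVec_zero,
    Pi.zero_apply] at h3
  exact hyi h3

/-- a minimal stable subspace in a self-dual class with the letter `l` -/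
theorem exists_meetC (F : Frame S E k B κ) (hbal : BalC S E P)
    (hP : ∀ A ∈ S, A.transpose * P + P * A = 0)
    (hEP : ∀ e ∈ E, ∃ f ∈ E, f.transpose * P = P * e) (hskew : P.transpose = -P) (hu : IsUnit P)
    {l : I} (hl : SD (conjS B S) κ l) :
    ∃ M, MinS S E M ∧ M ≤ H5.co B {j | Conn (conjS B S) κ l j} ∧ ∃ v ∈ M, (Bᴴ *ᵥ v) l ≠ 0 := by
  have hS := F.sit
  have hU1 := F.u1
  have hU2 := F.u2
  by_contra hcc
  push Not at hcc
  have hco : StS S E (H5.co B {j | Conn (conjS B S) κ l j}) :=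
    co_StS F fun x y hxy hy => conn_trans hS hy (conn_symm hS hxy)
  let Y : Submodule ℂ (I → ℂ) :=
    (⨅ M : {M // MinS S E M ∧ M ≤ H5.co B {j | Conn (conjS B S) κ l j}}, orth P M.1) ⊓
      H5.co B {j | Conn (conjS B S) κ l j}
  have hY : StS S E Y :=
    inf_StS ⟨fun A hA w hw => (Submodule.mem_iInf _).2 fun M =>
        (orth_StS hP hEP M.2.1.1).1 A hA w ((Submodule.mem_iInf _).1 hw M),
      fun e he w hw => (Submodule.mem_iInf _).2 fun M =>
        (orth_StS hP hEP M.2.1.1).2 e he w ((Submodule.mem_iInf _).1 hw M)⟩ hco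
  -- the letters of the class are paired
  have hpair : ∀ i j, (Bᵀ * P * B) i j ≠ 0 → Conn (conjS B S) κ l i →
      Conn (conjS B S) κ l j := by
    intro i j hij hi
    obtain ⟨a, b, ha, hb, hab⟩ := hl
    have h1 := pair_conj hU1 hP hij
    have h2 := (E11.sub_mem_iff hS F.eqv i a).2 (conn_trans hS (conn_symm hS hi) ha)
    have h3 : E11.wt (conjS B S) i = -E11.wt (conjS B S) j := E11.wt_neg_of hS h1
    have h4 : E11.wt (conjS B S) a = -E11.wt (conjS B S) b := E11.wt_neg_of hS hab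
    refine conn_trans hS hb ((E11.sub_mem_iff hS F.eqv b j).1 ?_)
    have e : E11.wt (conjS B S) b - E11.wt (conjS B S) j =
        E11.wt (conjS B S) i - E11.wt (conjS B S) a := by
      rw [h3, h4]
      abel
    rw [e]
    exact h2
  -- the vector which represents the coordinate `l`
  obtain ⟨u, hu'⟩ := unit_conj hU1 hU2 hu
  obtain ⟨x, hx⟩ : ∃ x, (Bᵀ * P * B) *ᵥ x = Pi.single l 1 :=
    ⟨(u⁻¹ : (Matrix I I ℂ)ˣ).1 *ᵥ Pi.single l 1, by
      rw [Matrix.mulVec_mulVec, ← hu', u.mul_inv, Matrix.one_mulVec]⟩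
  have hinj : ∀ y : I → ℂ, (Bᵀ * P * B) *ᵥ y = 0 → y = 0 := by
    intro y hy
    have h1 : (u⁻¹ : (Matrix I I ℂ)ˣ).1 *ᵥ ((Bᵀ * P * B) *ᵥ y) = y := by
      rw [Matrix.mulVec_mulVec, ← hu', u.inv_mul, Matrix.one_mulVec]
    rw [← h1, hy, Matrix.mulVec_zero]
  have hskew' : ∀ i j, (Bᵀ * P * B) i j = -(Bᵀ * P * B) j i := by
    intro i j
    have h1 : (Bᵀ * P * B)ᵀ = -(Bᵀ * P * B) := by
      rw [Matrix.transpose_mul, Matrix.transpose_mul, Matrix.transpose_transpose, hskew,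
        Matrix.neg_mul, Matrix.mul_neg, Matrix.mul_assoc]
    have h2 := congrFun (congrFun h1 j) i
    rw [Matrix.transpose_apply, Matrix.neg_apply] at h2
    exact h2
  have hxl : ∀ j, ¬ Conn (conjS B S) κ l j → x j = 0 := by
    classical
    have h0 : (fun j => if Conn (conjS B S) κ l j then (0 : ℂ) else x j) = 0 := by
      apply hinj
      funext i
      rw [Matrix.mulVec, dotProduct, Pi.zero_apply]
      by_cases hi : Conn (conjS B S) κ l i
      · refine Finset.sum_eq_zero fun j _ => ?_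
        by_cases hj : Conn (conjS B S) κ l j
        · rw [if_pos hj, mul_zero]
        · by_cases h0 : (Bᵀ * P * B) i j = 0
          · rw [h0, zero_mul]
          · exact absurd (hpair i j h0 hi) hj
      · have h1 := congrFun hx i
        rw [Matrix.mulVec, dotProduct, Pi.single_eq_of_ne (by
          rintro rfl
          exact hi (Conn.refl _))] at h1
        rw [← h1]
        refine Finset.sum_congr rfl fun j _ => ?_
        by_cases hj : Conn (conjS B S) κ l j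
        · have h2 : (Bᵀ * P * B) i j = 0 := by
            by_contra h0
            refine hi (hpair j i ?_ hj)
            intro h3
            exact h0 (by rw [hskew', h3, neg_zero])
          rw [h2, zero_mul, zero_mul]
        · rw [if_neg hj]
    intro j hj
    have h1 := congrFun h0 j
    simp only [if_neg hj] at h1
    exact h1
  have hw : ∀ v : I → ℂ, v ⬝ᵥ (P *ᵥ (B *ᵥ x)) = (Bᴴ *ᵥ v) l := by
    intro v
    have h1 : Bᴴ *ᵥ (B *ᵥ x) = x := by rw [Matrix.mulVec_mulVec, hU1, Matrix.one_mulVec]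
    rw [dot_co hU2, h1, hx, dotProduct_single, mul_one]
  have hwY : B *ᵥ x ∈ Y := by
    refine ⟨(Submodule.mem_iInf _).2 fun M v hv => ?_, fun j hj => ?_⟩
    · rw [hw]
      exact hcc M.1 M.2.1 M.2.2 v hv
    · rw [Matrix.mulVec_mulVec, hU1, Matrix.one_mulVec]
      exact hxl j hj
  have hx0 : B *ᵥ x ≠ 0 := by
    intro h0
    have h1 := congrArg (fun z => Bᴴ *ᵥ z) h0
    simp only [Matrix.mulVec_mulVec, hU1, Matrix.one_mulVec, Matrix.mulVec_zero] at h1
    rw [h1, Matrix.mulVec_zero] at hx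
    have h2 := congrFun hx l
    rw [Pi.single_eq_same, Pi.zero_apply] at h2
    exact zero_ne_one h2
  have hY0 : Y ≠ ⊥ := by
    intro h0
    rw [h0] at hwY
    exact hx0 ((Submodule.mem_bot ℂ).1 hwY)
  obtain ⟨M, hM1, hM2⟩ := exists_min _ le_rfl hY hY0
  have hMl : M ≤ H5.co B {j | Conn (conjS B S) κ l j} := hM1.trans inf_le_right
  refine hM2.2.1 (iso_cl F hbal hl hM2.1 (fun v hv w hw => ?_) hMl)
  exact (Submodule.mem_iInf _).1 (hM1 hw).1 ⟨M, hM2, hMl⟩ v hv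

/-- the piece of a self-dual letter -/
theorem exists_pieceC (F : Frame S E k B κ) (hbal : BalC S E P)
    (hP : ∀ A ∈ S, A.transpose * P + P * A = 0)
    (hEP : ∀ e ∈ E, ∃ f ∈ E, f.transpose * P = P * e) (hskew : P.transpose = -P) (hu : IsUnit P)
    {l : I} (hl : SD (conjS B S) κ l) :
    ∃ M, (MinS S E M ∧ ¬ Isot P M) ∧ E11.Nice (conjS B S) (Bᵀ * P * B) (tr B M) ∧
      E11.wt (conjS B S) l ∈ E11.WtU (conjS B S) (tr B M) ∧
      M ≤ H5.co B {j | Conn (conjS B S) κ l j} := by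
  have hS := F.sit
  have hU1 := F.u1
  have hU2 := F.u2
  obtain ⟨M, hM, hMl, v, hv, hvl⟩ := exists_meetC F hbal hP hEP hskew hu hl
  have hst := tr_st hU1 hU2 hM.1
  have hnd : ∀ v ∈ M, (∀ w ∈ M, v ⬝ᵥ (P *ᵥ w) = 0) → v = 0 := by
    intro v hv h0
    have h1 : StS S E (M ⊓ orth P M) := inf_StS hM.1 (orth_StS hP hEP hM.1)
    have h2 := iso_cl F hbal hl h1 (fun v hv w hw => hw.2 v hv.1) (inf_le_left.trans hMl)
    have h3 : v ∈ M ⊓ orth P M :=
      ⟨hv, fun w hw => by rw [E11.dot_skew hskew, h0 w hw, neg_zero]⟩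
    rw [h2] at h3
    exact (Submodule.mem_bot ℂ).1 h3
  have hx : Bᴴ *ᵥ v ∈ tr B M := by
    rw [mem_tr hU1 hU2, Matrix.mulVec_mulVec, hU2, Matrix.one_mulVec]
    exact hv
  have hy := E11.pr_mem hS hst (E11.wt (conjS B S) l) hx
  have hyl : E11.pr (E11.wt (conjS B S) l) (Bᴴ *ᵥ v) l ≠ 0 := by
    rw [E11.pr_apply _ rfl]
    exact hvl
  have hy0 : E11.pr (E11.wt (conjS B S) l) (Bᴴ *ᵥ v) ≠ 0 := by
    intro h0
    exact hyl (congrFun h0 l)
  have hyw := E11.hasWt_pr (E11.wt (conjS B S) l) (Bᴴ *ᵥ v)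
  refine ⟨M, ⟨hM, fun h => hM.2.1 (iso_cl F hbal hl hM.1 h hMl)⟩, ⟨hst, fun x hx h0 => ?_⟩,
    ⟨_, hy, hy0, hyw⟩, hMl⟩
  rw [mem_tr hU1 hU2] at hx
  have h1 := hnd _ hx fun w hw => by
    have h2 : B *ᵥ (Bᴴ *ᵥ w) = w := by rw [Matrix.mulVec_mulVec, hU2, Matrix.one_mulVec]
    rw [← h2, dot_tr]
    refine h0 _ ?_
    rw [mem_tr hU1 hU2, h2]
    exact hw
  have h3 := congrArg (fun z => Bᴴ *ᵥ z) h1
  simpa only [Matrix.mulVec_mulVec, hU1, Matrix.one_mulVec, Matrix.mulVec_zero] using h3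

/-- the self-dual letters are a union of classes -/
theorem clSit {h : Submodule ℂ (Matrix I I ℂ)} (hS : Sit h κ)
    (hEQ : ∀ i j, (∀ T, diagonal T ∈ h → T i = T j) → κ i = κ j) :
    E11.RC.ClSit (E11.wt h) (E11.Rt h κ) {i | SD h κ i} where
  zero := fun h0 => h0.1 rfl
  neg := E11.Rt_neg hS
  int := fun l => E11.Rt_int hS (E11.intS h κ hS) l
  add := E11.Rt_add hS
  mov := E11.Rt_mov hS
  two := by
    rintro l ⟨a, b, ha, hb, hab⟩
    have h1 := (E11.sub_mem_iff hS hEQ l a).2 ha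
    have h2 := (E11.sub_mem_iff hS hEQ l b).2 hb
    have h3 := E11.wt_neg_of hS hab
    have h4 : E11.wt h l + E11.wt h l =
        (E11.wt h l - E11.wt h a) + (E11.wt h l - E11.wt h b) := by
      rw [h3]
      abel
    rw [h4]
    exact add_mem h1 h2
  cls := fun l hl m hm => SD.of_conn hS hl (conn_symm hS ((E11.sub_mem_iff hS hEQ m l).1 hm))

/-- the piece situation of the self-dual letters -/
theorem pieceC {h : Submodule ℂ (Matrix I I ℂ)} (hS : Sit h κ)
    (hEQ : ∀ i j, (∀ T, diagonal T ∈ h → T i = T j) → κ i = κ j)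
    (hP : ∀ A ∈ h, A.transpose * P + P * A = 0) (hPt : P.transpose = -P)
    (V : {i | SD h κ i} → Submodule ℂ (I → ℂ)) (hV : ∀ l, E11.Nice h P (V l))
    (hl : ∀ l, E11.wt h l ∈ E11.WtU h (V l))
    (hc : ∀ l, ∀ u ∈ V l, ∀ i, u i ≠ 0 → Conn h κ l i) :
    E11.PieceZ (fun l : {i | SD h κ i} => E11.wt h l)
      (E11.RC.Ph (E11.wt h) (E11.Rt h κ) {i | SD h κ i}) (fun l => E11.WtU h (V l))
      (fun l => finrank ℂ (V l)) where
  self := hl
  wt := by
    rintro l v ⟨u, huV, hu0, hu⟩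
    obtain ⟨i, hi⟩ : ∃ i, u i ≠ 0 := by
      by_contra hc
      push Not at hc
      exact hu0 (funext hc)
    exact ⟨⟨i, SD.of_conn hS l.2 (hc l u huV i hi)⟩, hu i hi⟩
  neg := fun l v hv => (hV l).neg hS hP hv
  mov := fun l v hv a ha h0 => (hV l).mov hS hv ha.1 h0
  card := fun l F hF => E11.card_le F hF
  par := fun l v hv N hev hN ho h2 => by
    have H := clSit (κ := κ) hS hEQ
    refine (hV l).parQ hS hP hPt hv N hev (fun b hb => (hN b hb).1) (fun b hb c hc hbc => ?_) h2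
    obtain ⟨h3, h4⟩ := ho b hb c hc hbc
    refine ⟨h3, fun h5 => h4 (E11.RC.mem_ph_of_sp H.zero h5 ?_)⟩
    exact Submodule.add_mem _ (H.ph_sp (hN b hb)) (H.ph_sp (hN c hc))

end Pool.Agent.Lib.MP_361a6f_ag.FL.E.Pc
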