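import Pool.Agent.Lib.MP_361a6f_ag.FL.E.BR.R6b
import Pool.Agent.Lib.MP_361a6f_ag.FL.LT.T1
import Pool.Agent.Lib.MP_361a6f_ag.FL.E.P2

/-!
# Row R6b without the condition on isotropic subspaces

The members of length two of `t` are fixed by `J₀`, so the algebra of the endomorphisms is closed
under the hermitian adjoint, and the hermitian complement of a subspace that is stable under the
stabiliser of `s` and the endomorphisms is stable. So the projection is in the commutant of
`(stab s, E)`, which is the commutant of `(stab t, E)`.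
-/

set_option autoImplicit false
set_option linter.unusedSectionVars false

open Filter Topology

namespace Pool.Agent.Lib.MP_361a6f_ag.FL.E.R6c

open BR.R6b

/-! ### The hermitian complement -/

section abs

variable {I : Type} [Fintype I] [DecidableEq I]

/-- the hermitian complement -/
def hp (U : Submodule ℂ (I → ℂ)) : Submodule ℂ (I → ℂ) where
  carrier := {w | ∀ v ∈ U, dotProduct (star v) w = 0}
  zero_mem' v _ := dotProduct_zero _
  add_mem' {a b} ha hb v hv := by rw [dotProduct_add, ha v hv, hb v hv, add_zero]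
  smul_mem' c a ha v hv := by rw [dotProduct_smul, ha v hv, smul_zero]

theorem mem_hp {U : Submodule ℂ (I → ℂ)} {w : I → ℂ} :
    w ∈ hp U ↔ ∀ v ∈ U, dotProduct (star v) w = 0 := Iff.rfl

theorem hp_stable {U : Submodule ℂ (I → ℂ)} {A : Matrix I I ℂ}
    (h : ∀ v ∈ U, A.conjTranspose.mulVec v ∈ U) : ∀ w ∈ hp U, A.mulVec w ∈ hp U := by
  intro w hw v hv
  have h1 := hw _ (h v hv)
  rwa [Matrix.star_mulVec, Matrix.conjTranspose_conjTranspose, ← Matrix.dotProduct_mulVec] at h1

theorem isCompl_hp (U : Submodule ℂ (I → ℂ)) : IsCompl U (hp U) := by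
  have hdis : U ⊓ hp U = ⊥ := by
    rw [eq_bot_iff]
    rintro v ⟨hv, hv'⟩
    rw [Submodule.mem_bot]
    open scoped ComplexOrder in
    exact dotProduct_star_self_eq_zero.1 (hv' v hv)
  have hfin : Fintype.card I ≤ Module.finrank ℂ U + Module.finrank ℂ (hp U) := by
    let b := Module.finBasis ℂ U
    let φ : (I → ℂ) →ₗ[ℂ] (Fin (Module.finrank ℂ U) → ℂ) :=
      Matrix.mulVecLin (Matrix.of fun i j => star ((b i : I → ℂ) j))
    have hker : LinearMap.ker φ ≤ hp U := by
      intro w hw v hv
      have h1 : ∀ i, dotProduct (star (b i : I → ℂ)) w = 0 := fun i => congrFun hw i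
      have h2 : v = ∑ i, (b.repr ⟨v, hv⟩ i) • (b i : I → ℂ) := by
        have h5 := congrArg (Submodule.subtype U) (b.sum_repr ⟨v, hv⟩)
        rw [map_sum] at h5
        exact h5.symm
      rw [h2, star_sum, sum_dotProduct]
      refine Finset.sum_eq_zero fun i _ => ?_
      rw [star_smul, smul_dotProduct, h1, smul_zero]
    have h3 := Submodule.finrank_mono hker
    have h4 := LinearMap.finrank_range_add_finrank_ker φ
    have h5 : Module.finrank ℂ (LinearMap.range φ) ≤ Module.finrank ℂ U := by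
      have h6 := Submodule.finrank_le (LinearMap.range φ)
      rwa [Module.finrank_fin_fun] at h6
    rw [Module.finrank_fintype_fun_eq_card] at h4
    omega
  constructor
  · rwa [disjoint_iff]
  · rw [codisjoint_iff]
    apply Submodule.eq_top_of_finrank_eq
    have h1 := Submodule.finrank_sup_add_finrank_inf_eq U (hp U)
    rw [hdis, finrank_bot, add_zero] at h1
    have h2 := Submodule.finrank_le (U ⊔ hp U)
    rw [Module.finrank_fintype_fun_eq_card] at h2 ⊢
    omega

end abs

/-! ### The endomorphisms -/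

variable {I Λ : Type} [Fintype I] [DecidableEq I] [DecidableEq Λ] {D : Dat I Λ}
  {At Bt : (L : ℕ) → Ten I L → Prop} {ι : Type} [Fintype ι] {len : ι → ℕ} {l : I → ℂ}
  {Γ : Set (Matrix I I ℂ)} {β : Type} [Fintype β] {lb : β → ℕ} {b : Tup I lb}

/-- the hermitian adjoint of the matrix of a tensor fixed by `J₀` -/
theorem star_opM (ho : ∀ i, D.odd (D.typ i)) {z : Ten I 2} (hz : jT D z = z) :
    (opM D z).conjTranspose = opM D (((-1 : ℚ) : ℂ) • permT (Equiv.swap 0 1) z) := by
  ext i j
  have h1 := congrFun hz ![j, D.τ i]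
  have h2 : D.τ ∘ ![j, D.τ i] = ![D.τ j, i] := by
    funext r
    fin_cases r
    · rfl
    · exact D.τ_τ i
  rw [jT, h2, sg, Fin.prod_univ_two] at h1
  have h3 : D.s (D.τ j) * D.s i * (starRingEnd ℂ) (z ![D.τ j, i]) = z ![j, D.τ i] := h1
  rw [Matrix.conjTranspose_apply]
  show (starRingEnd ℂ) (z ![j, D.τ i] * D.s i) =
    (((-1 : ℚ) : ℂ) * permT (Equiv.swap 0 1) z ![i, D.τ j]) * D.s j
  have h4 : permT (Equiv.swap 0 1) z ![i, D.τ j] = z ![D.τ j, i] := by
    unfold permT
    congr 1
    funext r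
    fin_cases r <;> rfl
  have h5 : (starRingEnd ℂ) (D.s i) = D.s i := Six.s_conj i
  have h6 : (starRingEnd ℂ) (D.s (D.τ j)) = D.s (D.τ j) := Six.s_conj (D.τ j)
  have h7 : D.s i * D.s i = 1 := Six.s_sq i
  have h8 : D.s (D.τ j) = -D.s j := (D.odd_τ j (ho j)).2
  rw [h4, ← h3, map_mul, map_mul, map_mul, Complex.conj_conj, h5, h6, h8]
  push_cast
  linear_combination (-(D.s j) * z ![D.τ j, i]) * h7

/-- the members of length two of `t` are fixed by `J₀` -/
theorem jT_two (P : CSys D At Bt l Γ lb b) {m : ℕ} (hm : 2 ≤ m) {t s : Tup I len}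
    {x : Matrix I I ℂ} {k : I → ℂ} (h : LvlP D At l m len t s x k) (i : ι) (hi : len i = 2) :
    jT D (t i) = t i := by
  have h1 : ∀ (L : ℕ) (e : len i = L), L = 2 → At L (e ▸ t i : Ten I L) →
      gT (Matrix.diagonal k) (e ▸ t i : Ten I L) = e ▸ t i := by
    intro L e hL hAt
    subst hL
    exact LT.T1.fix_of_comm h.lvl.cpt.1
      (g4b D At Bt l Γ lb b P m hm len t s x k h _ hAt).2.1.symm
  have h2 : gT (Matrix.diagonal k) (t i) = t i := h1 (len i) rfl hi (h.lvl.mem i)
  have h3 : gT (Matrix.diagonal k) (s i) = jT D (s i) := congrFun h.lvl.key i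
  rw [h.two i hi] at h3
  exact h3.symm.trans h2

/-- the hermitian complement of a stable subspace is stable under the endomorphisms -/
theorem hp_end (P : CSys D At Bt l Γ lb b) {m : ℕ} (hm : 2 ≤ m) {t s : Tup I len}
    {x : Matrix I I ℂ} {k : I → ℂ} (h : LvlP D At l m len t s x k) {U : Submodule ℂ (I → ℂ)}
    (hE : ∀ z, At 2 z → ∀ v ∈ U, (opM D z).mulVec v ∈ U) :
    ∀ z, At 2 z → ∀ w ∈ hp U, (opM D z).mulVec w ∈ hp U := by
  intro z hz w hw
  have hspan := h.lvl.span 2 hm z hz
  clear hz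
  induction hspan using Submodule.span_induction with
  | mem v hv =>
    obtain ⟨i, hi, rfl⟩ := hv
    have h1 : ∀ (L : ℕ) (e : len i = L) (hL : L = 2), At L (e ▸ t i : Ten I L) →
        jT D (e ▸ t i : Ten I L) = e ▸ t i →
        (opM D (hL ▸ (e ▸ t i : Ten I L) : Ten I 2)).mulVec w ∈ hp U := by
      intro L e hL hAt hJ
      subst hL
      refine hp_stable (fun v hv => ?_) w hw
      rw [star_opM P.odd hJ]
      exact hE _ (P.sys.qsmul _ _ _ (P.sys.perm _ _ _ hAt)) v hv
    exact h1 (len i) rfl hi (h.lvl.mem i) (jT_two P hm h i hi)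
  | zero =>
    have h1 : opM D (0 : Ten I 2) = 0 := by
      ext i j
      exact zero_mul _
    rw [h1, Matrix.zero_mulVec]
    exact (hp U).zero_mem
  | add a c _ _ ha hc =>
    have h1 : opM D (a + c) = opM D a + opM D c := by
      ext i j
      exact add_mul _ _ _
    rw [h1, Matrix.add_mulVec]
    exact (hp U).add_mem ha hc
  | smul r a _ ha =>
    have h1 : opM D (r • a) = r • opM D a := by
      ext i j
      exact mul_assoc _ _ _
    rw [h1, Matrix.smul_mulVec]
    exact (hp U).smul_mem r ha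

/-- the hermitian complement of a stable subspace is stable -/
theorem hp_lie {s : Tup I len} (hmin : Minimal D s) {U : Submodule ℂ (I → ℂ)}
    (hU : ∀ A ∈ stab D s, ∀ v ∈ U, A.mulVec v ∈ U) :
    ∀ A ∈ stab D s, ∀ w ∈ hp U, A.mulVec w ∈ hp U := fun A hA =>
  hp_stable fun v hv => hU _ (p2 D s hmin A hA) v hv

/-- **Row R6b without the condition on isotropic subspaces.** A subspace that is stable under the
stabiliser of the minimal tuple and the endomorphisms has finitely many images under `Γ`. -/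
theorem stable_stabU (P : CSys D At Bt l Γ lb b)
    {m : ℕ} (hm : 2 ≤ m) {t s : Tup I len} {x : Matrix I I ℂ} {k : I → ℂ}
    (h : LvlP D At l m len t s x k) {g : ℕ → Matrix I I ℂ} (hg : ∀ j, IsGb D b (g j))
    (hlim : Tendsto (fun j => gS (g j) t) atTop (𝓝 s)) {U : Submodule ℂ (I → ℂ)}
    (hU : ∀ A ∈ stab D s, ∀ v ∈ U, A.mulVec v ∈ U)
    (hE : ∀ z, At 2 z → ∀ v ∈ U, (opM D z).mulVec v ∈ U) : StabU D At Γ U := by
  have com := fun z hz => (g4b D At Bt l Γ lb b P m hm len t s x k h z hz).2.2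
  have hfix : gS (Matrix.diagonal l) t = t := funext fun i => P.fix _ _ (h.lvl.mem i)
  obtain ⟨a, ha, -, hat⟩ := p3 D t l P.typ_eq P.odd P.tau P.ratio hfix
  have hC := comS_eq h.lvl.grp h.lvl.eq com (fun i j hij => (ha i j).1 hij) hat
    (fun j => (hg j).1) (fun j => P.comm _ (hg j).1 (hg j).2) hlim
  have hc := isCompl_hp U
  have h2 : LinearMap.toMatrix' (U.projection (hp U) hc) ∈ comS D At s :=
    ⟨fun A hA => proj_comm hc (hU A hA) (hp_lie h.lvl.min hU A hA),
      fun z hz => proj_comm hc (hE z hz) (hp_end P hm h hE z hz)⟩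
  rw [← hC] at h2
  refine stabU_of_t h.lvl.grp h.lvl.eq com h.lvl.min P.grp P.gfix h.lvl.mem ?_ hE
  intro A hA v hv
  have h3 := congrArg (fun M => Matrix.toLin' M v) (h2.1 A hA)
  simp only [Matrix.toLin'_mul, Matrix.toLin'_toMatrix', LinearMap.comp_apply] at h3
  have h4 : U.projection (hp U) hc v = v := Submodule.projection_apply_left hc ⟨v, hv⟩
  rw [h4] at h3
  change Matrix.toLin' A v ∈ U
  rw [← h3]
  exact Submodule.projection_apply_mem hc _

end Pool.Agent.Lib.MP_361a6f_ag.FL.E.R6c
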